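import Pool.Agent.R376.AP.Stm

/-!
# MP_ab5bd9_nt, AP-A: `|g|² + 2 |b|² = m` with coprime Eisenstein integers

A positive definite binary hermitian form over the Eisenstein integers of determinant 2 is equivalent
to `|x|² + 2 |y|²` as soon as it is even-divisible in the right way; here we only need the forms
`(a, t, c)` with `a c - |t|² = 2`, and the reduction is an explicit descent.
-/

set_option autoImplicit false

namespace Pool.Agent.R376.AP

open QuadraticAlgebra

theorem A_nrm (z : R) : z.norm = z.re * z.re - z.re * z.im + z.im * z.im := by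
  rw [QuadraticAlgebra.norm_def]; ring

theorem A_nrm_nonneg (z : R) : 0 ≤ z.norm := by
  rw [A_nrm]; nlinarith [sq_nonneg (z.re - z.im), sq_nonneg z.re, sq_nonneg z.im]

theorem A_nrm_ne_two (z : R) : z.norm ≠ 2 := by
  rw [A_nrm]
  intro h
  obtain ⟨x, hx⟩ := Int.even_or_odd' z.re
  obtain ⟨y, hy⟩ := Int.even_or_odd' z.im
  rcases hx with hx | hx <;> rcases hy with hy | hy <;> rw [hx, hy] at h <;> ring_nf at h <;> omega

theorem A_round (a x : ℤ) (ha : 1 ≤ a) : ∃ k : ℤ, -a ≤ 2 * (x - a * k) ∧ 2 * (x - a * k) ≤ a := by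
  refine ⟨(2 * x + a) / (2 * a), ?_, ?_⟩
  · have := Int.ediv_mul_le (2 * x + a) (show (2 * a : ℤ) ≠ 0 by omega)
    nlinarith
  · have := Int.lt_ediv_add_one_mul_self (2 * x + a) (show (0 : ℤ) < 2 * a by omega)
    nlinarith

theorem A_ident (p q r s : R) :
    (p.norm + 2 * r.norm) * (q.norm + 2 * s.norm) =
      (star p * q + 2 * (star r * s)).norm + 2 * (p * s - q * r).norm := by
  obtain ⟨p1, p2⟩ := p
  obtain ⟨q1, q2⟩ := q
  obtain ⟨r1, r2⟩ := r
  obtain ⟨s1, s2⟩ := s
  simp only [A_nrm, re_add, im_add, re_sub, im_sub, re_mul, im_mul, re_star, im_star, re_ofNat,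
    im_ofNat]
  ring

theorem A_self (q : R) : star q * q = (q.norm : R) := by
  have h := QuadraticAlgebra.algebraMap_norm_eq_mul_star q
  rw [mul_comm, ← h]
  rfl

theorem A_unit_norm (z : R) (h : IsUnit z) : z.norm = 1 := by
  have h1 : IsUnit z.norm := QuadraticAlgebra.isUnit_iff_norm_isUnit.1 h
  have h2 := A_nrm_nonneg z
  rcases Int.isUnit_iff.1 h1 with h3 | h3
  · exact h3
  · omega

theorem A_claim (a : ℕ) : ∀ t : R, 1 ≤ a → (a : ℤ) ∣ t.norm + 2 →
    ∃ p q r s : R, (a : ℤ) = p.norm + 2 * r.norm ∧ t = star p * q + 2 * (star r * s) ∧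
      IsUnit (p * s - q * r) := by
  induction a using Nat.strong_induction_on with
  | _ a ih =>
    intro t ha hdvd
    rcases Nat.lt_or_ge 1 a with ha2 | ha2
    swap
    · have ha1 : a = 1 := by omega
      subst ha1
      refine ⟨1, t, 0, 1, ?_, ?_, ?_⟩
      · simp
      · simp
      · simp
    have haz : (1 : ℤ) ≤ a := by exact_mod_cast ha
    have haz2 : (2 : ℤ) ≤ a := by exact_mod_cast ha2
    obtain ⟨k1, h1, h1'⟩ := A_round a t.re haz
    obtain ⟨k2, h2, h2'⟩ := A_round a t.im haz
    set k : R := ⟨k1, k2⟩ with hk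
    set t' : R := t - (a : ℤ) * k with ht'
    have hre : t'.re = t.re - a * k1 := by
      simp [ht', hk]
    have him : t'.im = t.im - a * k2 := by
      simp [ht', hk]
    have hdv' : (a : ℤ) ∣ t'.norm + 2 := by
      have e : t'.norm + 2 = t.norm + 2 + a * (-(2 * t.re * k1) + t.re * k2 + t.im * k1
          - 2 * t.im * k2 + a * (k1 * k1 - k1 * k2 + k2 * k2)) := by
        rw [A_nrm, A_nrm, hre, him]; ring
      rw [e]
      exact dvd_add hdvd (dvd_mul_right _ _)
    obtain ⟨c, hc⟩ := hdv'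
    have hn0 := A_nrm_nonneg t'
    have hbound : 4 * t'.norm ≤ 3 * (a * a : ℤ) := by
      rw [A_nrm, hre, him]
      nlinarith [mul_nonneg (sub_nonneg.2 h1) (sub_nonneg.2 h1'),
        mul_nonneg (sub_nonneg.2 h2) (sub_nonneg.2 h2'),
        mul_nonneg (sub_nonneg.2 h1) (sub_nonneg.2 h2),
        mul_nonneg (sub_nonneg.2 h1) (sub_nonneg.2 h2'),
        mul_nonneg (sub_nonneg.2 h1') (sub_nonneg.2 h2),
        mul_nonneg (sub_nonneg.2 h1') (sub_nonneg.2 h2')]
    have hcpos : 1 ≤ c := by
      by_contra hcc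
      have : c ≤ 0 := by omega
      nlinarith
    have hclt : c < a := by
      by_contra hcc
      have hge : (a : ℤ) ≤ c := by omega
      have h3 : (a * a : ℤ) ≤ t'.norm + 2 := by nlinarith
      have h4 : (a * a : ℤ) ≤ 8 := by nlinarith
      have h5 : (a : ℤ) = 2 := by nlinarith
      rw [h5] at h3 hbound
      have h6 : t'.norm = 2 ∨ t'.norm = 3 := by omega
      rcases h6 with h6 | h6
      · exact A_nrm_ne_two _ h6
      · rw [h5, h6] at hc
        omega
    obtain ⟨c', rfl⟩ := Int.eq_ofNat_of_zero_le (show 0 ≤ c by omega)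
    have hc'a : c' < a := by exact_mod_cast hclt
    have hc'1 : 1 ≤ c' := by exact_mod_cast hcpos
    obtain ⟨p, q, r, s, hp, hq, hu⟩ := ih c' hc'a (star t') hc'1 (by
      rw [QuadraticAlgebra.norm_star, hc]
      exact dvd_mul_left _ _)
    have hid := A_ident p q r s
    rw [← hp, ← hq, A_unit_norm _ hu, QuadraticAlgebra.norm_star] at hid
    have haq : (a : ℤ) = q.norm + 2 * s.norm := by
      have h7 : (c' : ℤ) * (q.norm + 2 * s.norm) = c' * a := by
        rw [hid]; linarith
      have h8 : (c' : ℤ) ≠ 0 := by omega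
      exact (mul_left_cancel₀ h8 h7).symm
    refine ⟨q, p + q * k, s, r + s * k, haq, ?_, ?_⟩
    · have h9 : t' = star q * p + 2 * (star s * r) := by
        have := congrArg star hq
        rw [star_star, star_add, star_mul, star_mul, star_mul, star_star, star_star] at this
        rw [this]
        have h2 : star (2 : R) = 2 := by
          ext <;> simp
        rw [h2]; ring
      have h10 : t = t' + (a : ℤ) * k := by rw [ht']; ring
      rw [h10, h9, haq]
      have e1 := A_self q
      have e2 := A_self s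
      push_cast
      rw [← e1, ← e2]
      ring
    · have : q * (r + s * k) - (p + q * k) * s = -(p * s - q * r) := by ring
      rw [this]
      exact hu.neg

/-- NT-A -/
theorem stmA (hT : StmT) : StmA := by
  intro m hm
  obtain ⟨u, v, huv⟩ := hT m hm
  have hm1 : 1 ≤ m := hm.pos
  obtain ⟨p, q, r, s, hp, -, hu⟩ := A_claim m (⟨u + v, 2 * v⟩ : R) hm1 (by
    have : (⟨u + v, 2 * v⟩ : R).norm + 2 = u ^ 2 + 3 * v ^ 2 + 2 := by
      rw [A_nrm]; ring
    rw [this]; exact huv)
  refine ⟨p, r, hp.symm, ?_⟩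
  obtain ⟨w, hw⟩ := hu.exists_left_inv
  exact ⟨w * s, -(w * q), by rw [← hw]; ring⟩

end Pool.Agent.R376.AP
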