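import Pool.Agent.R376.AP.Stm

/-!
# MP_ab5bd9_nt: the norm 7 move
-/

set_option autoImplicit false

namespace Pool.Agent.R376.AP

namespace BB

theorem seven0 : (7 : ZMod 7) = 0 := by decide

/-- reduction modulo `λ = 3 + ω` -/
def ph : R →+* ZMod 7 where
  toFun z := (z.re : ZMod 7) + 4 * (z.im : ZMod 7)
  map_one' := by decide
  map_zero' := by simp
  map_add' x y := by
    simp only [QuadraticAlgebra.re_add, QuadraticAlgebra.im_add]
    push_cast; ring
  map_mul' x y := by
    simp only [QuadraticAlgebra.re_mul, QuadraticAlgebra.im_mul]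
    push_cast
    linear_combination (-3 * (x.im : ZMod 7) * (y.im : ZMod 7)) * seven0

/-- reduction modulo `λ' = 2 - ω` -/
def ph' : R →+* ZMod 7 where
  toFun z := (z.re : ZMod 7) + 2 * (z.im : ZMod 7)
  map_one' := by decide
  map_zero' := by simp
  map_add' x y := by
    simp only [QuadraticAlgebra.re_add, QuadraticAlgebra.im_add]
    push_cast; ring
  map_mul' x y := by
    simp only [QuadraticAlgebra.re_mul, QuadraticAlgebra.im_mul]
    push_cast
    linear_combination (-1 * (x.im : ZMod 7) * (y.im : ZMod 7)) * seven0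

theorem ph_apply (z : R) : ph z = (z.re : ZMod 7) + 4 * (z.im : ZMod 7) := rfl
theorem ph'_apply (z : R) : ph' z = (z.re : ZMod 7) + 2 * (z.im : ZMod 7) := rfl

theorem ph_star (z : R) : ph (star z) = ph' z := by
  simp only [ph_apply, ph'_apply, QuadraticAlgebra.re_star, QuadraticAlgebra.im_star]
  push_cast
  linear_combination (-1 * (z.im : ZMod 7)) * seven0

theorem ph'_star (z : R) : ph' (star z) = ph z := by
  simp only [ph_apply, ph'_apply, QuadraticAlgebra.re_star, QuadraticAlgebra.im_star]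
  push_cast
  linear_combination (-1 * (z.im : ZMod 7)) * seven0

theorem norm_eq (z : R) : z.norm = z.re ^ 2 - z.re * z.im + z.im ^ 2 := by
  rw [QuadraticAlgebra.norm_def]; ring

theorem ph_norm (z : R) : ((z.norm : ℤ) : ZMod 7) = ph z * ph' z := by
  rw [norm_eq, ph_apply, ph'_apply]
  push_cast
  linear_combination (-1 * (z.re : ZMod 7) * z.im - (z.im : ZMod 7) ^ 2) * seven0

/-- `λ = 3 + ω` -/
def la : R := ⟨3, 1⟩
/-- `λ' = 2 - ω` -/
def la' : R := ⟨2, -1⟩
/-- `θ = 1 + 2ω = √-3` -/
def th : R := ⟨1, 2⟩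

theorem la_mul : la * la' = 7 := by
  ext <;> simp [la, la'] <;> rfl

theorem norm_la : la.norm = 7 := by rw [norm_eq]; norm_num [la]
theorem norm_la' : la'.norm = 7 := by rw [norm_eq]; norm_num [la']
theorem norm_th : th.norm = 3 := by rw [norm_eq]; norm_num [th]
theorem norm_seven : (7 : R).norm = 49 := by
  rw [← la_mul, map_mul, norm_la, norm_la']; norm_num

theorem ph_eq_zero_iff (z : R) : ph z = 0 ↔ la ∣ z := by
  constructor
  · intro h
    have h1 : ((z.re + 4 * z.im : ℤ) : ZMod 7) = 0 := by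
      push_cast; exact h
    rw [ZMod.intCast_zmod_eq_zero_iff_dvd] at h1
    obtain ⟨k, hk⟩ := h1
    push_cast at hk
    refine ⟨⟨2 * k - z.im, z.im - k⟩, ?_⟩
    ext
    · simp only [la, QuadraticAlgebra.re_mul]; linarith
    · simp only [la, QuadraticAlgebra.im_mul]; linarith
  · rintro ⟨w, rfl⟩
    rw [map_mul]
    have : ph la = 0 := by rw [ph_apply]; simp only [la]; decide
    rw [this, zero_mul]

theorem ph'_eq_zero_iff (z : R) : ph' z = 0 ↔ la' ∣ z := by
  constructor
  · intro h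
    have h1 : ((z.re + 2 * z.im : ℤ) : ZMod 7) = 0 := by
      push_cast; exact h
    rw [ZMod.intCast_zmod_eq_zero_iff_dvd] at h1
    obtain ⟨k, hk⟩ := h1
    push_cast at hk
    refine ⟨⟨3 * k - z.im, k⟩, ?_⟩
    ext
    · simp only [la', QuadraticAlgebra.re_mul]; linarith
    · simp only [la', QuadraticAlgebra.im_mul]; linarith
  · rintro ⟨w, rfl⟩
    rw [map_mul]
    have : ph' la' = 0 := by rw [ph'_apply]; simp only [la']; decide
    rw [this, zero_mul]

theorem seven_dvd (z : R) (h : ph z = 0) (h' : ph' z = 0) : (7 : R) ∣ z := by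
  have h1 : ((z.re + 4 * z.im : ℤ) : ZMod 7) = 0 := by push_cast; exact h
  have h2 : ((z.re + 2 * z.im : ℤ) : ZMod 7) = 0 := by push_cast; exact h'
  rw [ZMod.intCast_zmod_eq_zero_iff_dvd] at h1 h2
  push_cast at h1 h2
  have h3 : (7 : ℤ) ∣ z.im := by omega
  have h4 : (7 : ℤ) ∣ z.re := by omega
  obtain ⟨x, hx⟩ := h4
  obtain ⟨y, hy⟩ := h3
  refine ⟨⟨x, y⟩, ?_⟩
  rw [← la_mul]
  ext
  · simp only [la, la', QuadraticAlgebra.re_mul, QuadraticAlgebra.im_mul]; linarith
  · simp only [la, la', QuadraticAlgebra.re_mul, QuadraticAlgebra.im_mul]; linarith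

theorem coprime_la {z : R} (h : ph z ≠ 0) : IsCoprime la z := by
  obtain ⟨k, hk⟩ : ∃ k : ℤ, (k : ZMod 7) * ph z = 1 := by
    refine ⟨((ph z)⁻¹).val, ?_⟩
    have : Fact (Nat.Prime 7) := ⟨by norm_num⟩
    have : (((((ph z)⁻¹).val : ℕ) : ℤ) : ZMod 7) = (ph z)⁻¹ := by
      rw [Int.cast_natCast, ZMod.natCast_zmod_val]
    rw [this, inv_mul_cancel₀ h]
  have h1 : ph (1 - (k : R) * z) = 0 := by
    rw [map_sub, map_mul, map_one, map_intCast, hk, sub_self]
  rw [ph_eq_zero_iff] at h1
  obtain ⟨a, ha⟩ := h1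
  exact ⟨a, k, by linear_combination -ha⟩

theorem coprime_la' {z : R} (h : ph' z ≠ 0) : IsCoprime la' z := by
  obtain ⟨k, hk⟩ : ∃ k : ℤ, (k : ZMod 7) * ph' z = 1 := by
    refine ⟨((ph' z)⁻¹).val, ?_⟩
    have : Fact (Nat.Prime 7) := ⟨by norm_num⟩
    have : (((((ph' z)⁻¹).val : ℕ) : ℤ) : ZMod 7) = (ph' z)⁻¹ := by
      rw [Int.cast_natCast, ZMod.natCast_zmod_val]
    rw [this, inv_mul_cancel₀ h]
  have h1 : ph' (1 - (k : R) * z) = 0 := by
    rw [map_sub, map_mul, map_one, map_intCast, hk, sub_self]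
  rw [ph'_eq_zero_iff] at h1
  obtain ⟨a, ha⟩ := h1
  exact ⟨a, k, by linear_combination -ha⟩

/-- the units -/
def un (c : ZMod 7) : R :=
  if c = 1 then ⟨1, 0⟩ else if c = 6 then ⟨-1, 0⟩ else if c = 4 then ⟨0, 1⟩ else
  if c = 3 then ⟨0, -1⟩ else if c = 2 then ⟨-1, -1⟩ else ⟨1, 1⟩

theorem norm_un (c : ZMod 7) : (un c).norm = 1 := by
  rw [norm_eq]; unfold un; split_ifs <;> norm_num

theorem ph_un : ∀ c : ZMod 7, c ≠ 0 → ph (un c) = c := by
  intro c
  rw [ph_apply]
  revert c
  decide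

theorem ph'_un : ∀ c : ZMod 7, c ≠ 0 → c * ph' (un c) = 1 := by
  intro c
  rw [ph'_apply]
  revert c
  decide

theorem un_add : ∀ c d : ZMod 7, c ≠ 0 → d ≠ 0 → c ≠ d → c ≠ -d →
    ((un c + un d).re ^ 2 - (un c + un d).re * (un c + un d).im + (un c + un d).im ^ 2) % 2 = 1 := by
  decide

theorem choose3 : ∀ a b c : ZMod 7, ∃ x : ZMod 7, x ≠ 0 ∧ x ≠ a ∧ x ≠ b ∧ x ≠ c ∧ x ≠ -c := by
  decide

theorem un_mul_star (c : ZMod 7) : un c * star (un c) = 1 := by
  rw [← QuadraticAlgebra.algebraMap_norm_eq_mul_star, norm_un, map_one]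

/-- first component of the move -/
def M1 (e g b : R) : R := g + 2 * th * star e * b
/-- second component of the move -/
def M2 (e g b : R) : R := b + th * e * g

theorem norm_M (e g b : R) (he : e.norm = 1) :
    (M1 e g b).norm + 2 * (M2 e g b).norm = 7 * (g.norm + 2 * b.norm) := by
  have h2r : (2 : R).re = 2 := rfl
  have h2i : (2 : R).im = 0 := rfl
  rw [norm_eq] at he
  simp only [norm_eq, M1, M2, th, QuadraticAlgebra.re_mul, QuadraticAlgebra.im_mul,
    QuadraticAlgebra.re_add, QuadraticAlgebra.im_add, QuadraticAlgebra.re_star,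
    QuadraticAlgebra.im_star, h2r, h2i]
  linear_combination (6 * (g.re ^ 2 - g.re * g.im + g.im ^ 2) +
    12 * (b.re ^ 2 - b.re * b.im + b.im ^ 2)) * he

theorem th_sq : th * th = -3 := by
  ext <;> simp [th] <;> rfl

theorem back1 (e g b : R) (he : e * star e = 1) :
    M1 e g b - 2 * th * star e * M2 e g b = 7 * g := by
  unfold M1 M2
  linear_combination (-2 * g * (e * star e)) * th_sq + 6 * g * he

theorem back2 (e g b : R) (he : e * star e = 1) :
    M2 e g b - th * e * M1 e g b = 7 * b := by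
  unfold M1 M2
  linear_combination (-2 * b * (e * star e)) * th_sq + 6 * b * he

/-- `I = (x, y)` contains `1` as soon as it contains `7`, and neither `λ` nor `λ'` divides both. -/
theorem coprime_of {x y : R} (h7 : ∃ u v : R, u * x + v * y = 7) (h : ph x ≠ 0 ∨ ph y ≠ 0)
    (h' : ph' x ≠ 0 ∨ ph' y ≠ 0) : IsCoprime x y := by
  obtain ⟨u, v, huv⟩ := h7
  have e1 : ∃ a c d : R, a * la + (c * x + d * y) = 1 := by
    rcases h with h | h
    · obtain ⟨a, b, hab⟩ := coprime_la h
      exact ⟨a, b, 0, by rw [zero_mul, add_zero, hab]⟩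
    · obtain ⟨a, b, hab⟩ := coprime_la h
      exact ⟨a, 0, b, by rw [zero_mul, zero_add, hab]⟩
  have e2 : ∃ a c d : R, a * la' + (c * x + d * y) = 1 := by
    rcases h' with h | h
    · obtain ⟨a, b, hab⟩ := coprime_la' h
      exact ⟨a, b, 0, by rw [zero_mul, add_zero, hab]⟩
    · obtain ⟨a, b, hab⟩ := coprime_la' h
      exact ⟨a, 0, b, by rw [zero_mul, zero_add, hab]⟩
  obtain ⟨a, c, d, h1⟩ := e1
  obtain ⟨a', c', d', h2⟩ := e2
  refine ⟨a * a' * u + a * la * c' + c * a' * la' + c * (c' * x + d' * y),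
    a * a' * v + a * la * d' + d * a' * la' + d * (c' * x + d' * y), ?_⟩
  have h3 : (a * la + (c * x + d * y)) * (a' * la' + (c' * x + d' * y)) = 1 := by
    rw [h1, h2, one_mul]
  rw [← h3]
  linear_combination (a * a') * huv - (a * a') * la_mul

theorem coprime_of' {x y : R} (h7 : ∃ u v : R, u * x + v * y = la')
    (h' : ph' x ≠ 0 ∨ ph' y ≠ 0) : IsCoprime x y := by
  obtain ⟨u, v, huv⟩ := h7
  rcases h' with h | h
  · obtain ⟨a, b, hab⟩ := coprime_la' h
    exact ⟨a * u + b, a * v, by rw [← hab, ← huv]; ring⟩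
  · obtain ⟨a, b, hab⟩ := coprime_la' h
    exact ⟨a * u, a * v + b, by rw [← hab, ← huv]; ring⟩

theorem norm_nonneg (z : R) : 0 ≤ z.norm := by
  rw [norm_eq]; nlinarith [sq_nonneg (2 * z.re - z.im), sq_nonneg z.im]

theorem norm_pos {z : R} (h : z ≠ 0) : 0 < z.norm := by
  rcases (norm_nonneg z).lt_or_eq with h1 | h1
  · exact h1
  · exfalso
    apply h
    rw [norm_eq] at h1
    have h2 : z.im = 0 := by
      have : 3 * z.im ^ 2 ≤ 0 := by nlinarith [sq_nonneg (2 * z.re - z.im)]
      have : z.im ^ 2 = 0 := le_antisymm (by linarith) (sq_nonneg _)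
      exact pow_eq_zero_iff (two_ne_zero) |>.1 this
    have h3 : z.re = 0 := by
      rw [h2] at h1
      have : z.re ^ 2 = 0 := by linarith
      exact pow_eq_zero_iff (two_ne_zero) |>.1 this
    ext
    · exact h3
    · exact h2

theorem two_dvd_iff (z : R) : (2 : R) ∣ z ↔ Even z.norm := by
  constructor
  · rintro ⟨w, rfl⟩
    have : ((2 : R) * w).norm = 4 * w.norm := by
      rw [map_mul]
      congr 1
    rw [this]
    exact ⟨2 * w.norm, by ring⟩
  · intro h
    rw [norm_eq] at h
    have h1 : Even z.re ∧ Even z.im := by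
      rcases Int.even_or_odd z.re with hx | hx <;> rcases Int.even_or_odd z.im with hy | hy
      · exact ⟨hx, hy⟩
      all_goals
        exfalso
        obtain ⟨x, hx⟩ := hx
        obtain ⟨y, hy⟩ := hy
        obtain ⟨k, hk⟩ := h
        rw [hx, hy] at hk
        ring_nf at hk
        omega
    obtain ⟨⟨x, hx⟩, ⟨y, hy⟩⟩ := h1
    refine ⟨⟨x, y⟩, ?_⟩
    have h2r : (2 : R).re = 2 := rfl
    have h2i : (2 : R).im = 0 := rfl
    ext
    · rw [QuadraticAlgebra.re_mul, h2r, h2i]; linarith
    · rw [QuadraticAlgebra.im_mul, h2r, h2i]; linarith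

/-- remove the factors `λ`. -/
theorem exists_pow {g : R} (hg : g ≠ 0) : ∃ (k : ℕ) (g0 : R), g = la ^ k * g0 ∧ ph g0 ≠ 0 := by
  obtain ⟨n, hn⟩ : ∃ n : ℕ, g.norm.toNat ≤ n := ⟨_, le_rfl⟩
  induction n generalizing g with
  | zero =>
    have := norm_pos hg
    omega
  | succ n ih =>
    by_cases h : ph g = 0
    · obtain ⟨w, hw⟩ := (ph_eq_zero_iff g).1 h
      have hw0 : w ≠ 0 := by rintro rfl; apply hg; rw [hw, mul_zero]
      have h1 : g.norm = 7 * w.norm := by rw [hw, map_mul, norm_la]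
      have h2 := norm_pos hw0
      obtain ⟨k, g0, h3, h4⟩ := ih hw0 (by omega)
      exact ⟨k + 1, g0, by rw [hw, h3]; ring, h4⟩
    · exact ⟨0, g, by simp, h⟩

theorem ph_la' : ph la' ≠ 0 := by rw [ph_apply]; simp only [la']; decide
theorem ph'_la : ph' la ≠ 0 := by rw [ph'_apply]; simp only [la]; decide
theorem ph_th : ph th = 2 := by rw [ph_apply]; simp only [th]; decide
theorem ph'_th : ph' th = -2 := by rw [ph'_apply]; simp only [th]; decide

instance : Fact (Nat.Prime 7) := ⟨by norm_num⟩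

/-- replace `g` by an element of the same norm not divisible by `λ`. -/
theorem exists_noLa {g b : R} (hg : g ≠ 0) (hc : IsCoprime g b)
    (h7 : ph g = 0 → ph' b ≠ 0) :
    ∃ g' : R, g'.norm = g.norm ∧ IsCoprime g' b ∧ ph g' ≠ 0 := by
  obtain ⟨k, g0, h1, h2⟩ := exists_pow hg
  refine ⟨la' ^ k * g0, ?_, ?_, ?_⟩
  · rw [h1, map_mul, map_mul, map_pow, map_pow, norm_la, norm_la']
  · have hc0 : IsCoprime g0 b := by
      rw [h1] at hc
      exact (IsCoprime.of_mul_left_right hc)
    rcases Nat.eq_zero_or_pos k with hk | hk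
    · rw [hk, pow_zero, one_mul]; exact hc0
    · have h3 : ph g = 0 := by
        rw [ph_eq_zero_iff, h1]
        exact Dvd.dvd.mul_right (dvd_pow_self _ hk.ne') _
      exact IsCoprime.mul_left (IsCoprime.pow_left (coprime_la' (h7 h3))) hc0
  · rw [map_mul, map_pow]
    exact mul_ne_zero (pow_ne_zero _ ph_la') h2

theorem cancel7 {x y : R} (h : 7 * x = 7 * y) : x = y := by
  have h7r : (7 : R).re = 7 := rfl
  have h7i : (7 : R).im = 0 := rfl
  have h1 := congrArg QuadraticAlgebra.re h
  have h2 := congrArg QuadraticAlgebra.im h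
  rw [QuadraticAlgebra.re_mul, QuadraticAlgebra.re_mul, h7r, h7i] at h1
  rw [QuadraticAlgebra.im_mul, QuadraticAlgebra.im_mul, h7r, h7i] at h2
  ext
  · linarith
  · linarith

theorem odd_M2 {e g b : R} (he : e.norm = 1) (hb : Even b.norm) (hg : Odd g.norm) :
    Odd (M2 e g b).norm := by
  rw [← Int.not_even_iff_odd]
  intro h
  rw [← two_dvd_iff] at h hb
  have h1 : (2 : R) ∣ th * e * g := by
    have : th * e * g = M2 e g b - b := by unfold M2; ring
    rw [this]; exact dvd_sub h hb
  rw [two_dvd_iff, map_mul, map_mul, norm_th, he] at h1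
  rw [← Int.not_even_iff_odd] at hg
  apply hg
  rcases Int.even_or_odd g.norm with h2 | h2
  · exact h2
  · exfalso
    obtain ⟨k, hk⟩ := h2
    obtain ⟨l, hl⟩ := h1
    omega

theorem case1 {m : ℤ} {g b : R} (hm7 : (m : ZMod 7) ≠ 0) (hsum : g.norm + 2 * b.norm = m)
    (hc : IsCoprime g b) (hb0 : b ≠ 0) (hg0 : g ≠ 0) (hbe : Even b.norm) (hgo : Odd g.norm) :
    ∃ g' b' : R, g'.norm + 2 * b'.norm = m ∧ IsCoprime g' b' ∧ Odd b'.norm := by
  have key : ∀ x y : R, x.norm + 2 * y.norm = m → ¬ (ph x * ph' x = 0 ∧ ph y * ph' y = 0) := by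
    rintro x y h ⟨h1, h2⟩
    apply hm7
    rw [← h]
    push_cast
    rw [ph_norm, ph_norm, h1, h2]; ring
  obtain ⟨g1, hg1n, hg1c, hg1p⟩ := exists_noLa hg0 hc (by
    intro h1 h2
    exact key g b hsum ⟨by rw [h1, zero_mul], by rw [h2, mul_zero]⟩)
  have hs1 : g1.norm + 2 * b.norm = m := by rw [hg1n, hsum]
  obtain ⟨b1, hb1n, hb1c, hb1p⟩ := exists_noLa hb0 hg1c.symm (by
    intro h1 h2
    exact key g1 b hs1 ⟨by rw [h2, mul_zero], by rw [h1, zero_mul]⟩)
  have hs2 : g1.norm + 2 * b1.norm = m := by rw [hb1n, hs1]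
  have hc1 : IsCoprime g1 b1 := hb1c.symm
  have two0 : (2 : ZMod 7) ≠ 0 := by decide
  set c : ZMod 7 := -(ph b1) / (2 * ph g1) with hcdef
  have hc0 : c ≠ 0 := div_ne_zero (neg_ne_zero.2 hb1p) (mul_ne_zero two0 hg1p)
  have hce : ph b1 = -(2 * c * ph g1) := by
    rw [hcdef]; field_simp
  set e : R := un c with hedef
  have hen : e.norm = 1 := norm_un c
  have hes : e * star e = 1 := un_mul_star c
  have hpe : ph e = c := ph_un c hc0
  have hpe' : c * ph' e = 1 := ph'_un c hc0
  have hM2 : ph (M2 e g1 b1) = 0 := by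
    unfold M2
    rw [map_add, map_mul, map_mul, ph_th, hpe, hce]; ring
  have hM1 : ph (M1 e g1 b1) = 0 := by
    unfold M1
    rw [map_add, map_mul, map_mul, map_mul, ph_th, ph_star, hce]
    have h2 : ph (2 : R) = 2 := by rw [map_ofNat]
    rw [h2]
    linear_combination (-8 * ph g1) * hpe' + (-ph g1) * seven0
  obtain ⟨x, hx⟩ := (ph_eq_zero_iff _).1 hM1
  obtain ⟨y, hy⟩ := (ph_eq_zero_iff _).1 hM2
  have hxy : x.norm + 2 * y.norm = m := by
    have h1 := norm_M e g1 b1 hen
    rw [hs2, hx, hy, map_mul, map_mul, norm_la] at h1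
    linarith
  have hyo : Odd y.norm := by
    have h1 : Odd (M2 e g1 b1).norm := odd_M2 hen (by rw [hb1n]; exact hbe) (by rw [hg1n]; exact hgo)
    rw [hy, map_mul, norm_la] at h1
    rcases Int.even_or_odd y.norm with h2 | h2
    · exfalso
      obtain ⟨k, hk⟩ := h2
      obtain ⟨l, hl⟩ := h1
      omega
    · exact h2
  refine ⟨x, y, hxy, ?_, hyo⟩
  have b1' := back1 e g1 b1 hes
  have b2' := back2 e g1 b1 hes
  rw [hx, hy] at b1' b2'
  have e1 : x - 2 * th * star e * y = la' * g1 := by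
    apply cancel7
    rw [← la_mul]
    have : la * x - 2 * th * star e * (la * y) = la * la' * g1 := by rw [b1', la_mul]
    linear_combination la' * this
  have e2 : y - th * e * x = la' * b1 := by
    apply cancel7
    rw [← la_mul]
    have : la * y - th * e * (la * x) = la * la' * b1 := by rw [b2', la_mul]
    linear_combination la' * this
  obtain ⟨u, v, huv⟩ := hc1
  apply coprime_of'
  · refine ⟨u - v * th * e, v - 2 * u * th * star e, ?_⟩
    linear_combination u * e1 + v * e2 + la' * huv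
  · by_contra hcon
    rw [not_or, not_not, not_not] at hcon
    exact key x y hxy ⟨by rw [hcon.1, mul_zero], by rw [hcon.2, mul_zero]⟩

theorem fin2 {m : ℤ} {w1 w2 : R} (hs : 7 * (w1.norm + 2 * w2.norm) = m) (hc : IsCoprime w1 w2)
    (c3 : ZMod 7) (hodd : ∀ c : ZMod 7, c ≠ 0 → c ≠ c3 → c ≠ -c3 → Odd (M2 (un c) w1 w2).norm) :
    ∃ g' b' : R, g'.norm + 2 * b'.norm = m ∧ IsCoprime g' b' ∧ Odd b'.norm := by
  obtain ⟨u, v, huv⟩ := hc
  obtain ⟨c, hc0, hca, hcb, hc1, hc2⟩ :=
    choose3 (-(ph w2) / (2 * ph w1)) (2 * ph' w1 / ph' w2) c3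
  have two0 : (2 : ZMod 7) ≠ 0 := by decide
  have hes := un_mul_star c
  refine ⟨M1 (un c) w1 w2, M2 (un c) w1 w2, ?_, ?_, hodd c hc0 hc1 hc2⟩
  · rw [norm_M _ _ _ (norm_un c), hs]
  · have b1' := back1 (un c) w1 w2 hes
    have b2' := back2 (un c) w1 w2 hes
    apply coprime_of
    · refine ⟨u - v * th * un c, v - 2 * u * th * star (un c), ?_⟩
      linear_combination u * b1' + v * b2' + 7 * huv
    · right
      intro h
      unfold M2 at h
      rw [map_add, map_mul, map_mul, ph_th, ph_un c hc0] at h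
      by_cases h1 : ph w1 = 0
      · rw [h1, mul_zero, add_zero] at h
        have h2 := congrArg ph huv
        rw [map_add, map_mul, map_mul, h1, h, map_one] at h2
        simp at h2
      · apply hca
        rw [eq_div_iff (mul_ne_zero two0 h1)]
        linear_combination h
    · right
      intro h
      unfold M2 at h
      rw [map_add, map_mul, map_mul, ph'_th] at h
      have h3 := ph'_un c hc0
      by_cases h1 : ph' w2 = 0
      · have h4 : ph' w1 = 0 := by
          rw [h1] at h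
          have : -2 * ph' (un c) * ph' w1 = 0 := by linear_combination h
          have h5 : ph' (un c) ≠ 0 := by
            intro h6; rw [h6, mul_zero] at h3; exact absurd h3 (by decide)
          rcases mul_eq_zero.1 this with h6 | h6
          · rcases mul_eq_zero.1 h6 with h7 | h7
            · exact absurd h7 (by decide)
            · exact absurd h7 h5
          · exact h6
        have h2 := congrArg ph' huv
        rw [map_add, map_mul, map_mul, h1, h4, map_one] at h2
        simp at h2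
      · apply hcb
        rw [eq_div_iff h1]
        linear_combination c * h + (2 * ph' w1) * h3

theorem case2 {m : ℤ} {g b : R} (hm7 : (m : ZMod 7) = 0) (hmo : Odd m)
    (hsum : g.norm + 2 * b.norm = m)
    (hc : IsCoprime g b) (hbe : Even b.norm) (hgo : Odd g.norm) :
    ∃ g' b' : R, g'.norm + 2 * b'.norm = m ∧ IsCoprime g' b' ∧ Odd b'.norm := by
  have key : ph g * ph' g + 2 * (ph b * ph' b) = 0 := by
    rw [← ph_norm, ← ph_norm, ← hm7, ← hsum]; push_cast; ring
  have two0 : (2 : ZMod 7) ≠ 0 := by decide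
  obtain ⟨u, v, huv⟩ := hc
  have hev : ∀ x : ℤ, Even (7 * x) → Even x := by
    intro x hx
    rcases Int.even_or_odd x with h2 | h2
    · exact h2
    · exfalso
      obtain ⟨k, hk⟩ := h2
      obtain ⟨l, hl⟩ := hx
      omega
  have hod : ∀ x : ℤ, Odd (7 * x) → Odd x := by
    intro x hx
    rcases Int.even_or_odd x with h2 | h2
    · exfalso
      obtain ⟨k, hk⟩ := h2
      obtain ⟨l, hl⟩ := hx
      omega
    · exact h2
  by_cases h1 : ph g = 0
  · have h2 : ph b ≠ 0 := by
      intro h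
      have h2 := congrArg ph huv
      rw [map_add, map_mul, map_mul, h1, h, map_one] at h2
      simp at h2
    have h3 : ph' b = 0 := by
      rw [h1, zero_mul, zero_add] at key
      rcases mul_eq_zero.1 key with h | h
      · exact absurd h two0
      · rcases mul_eq_zero.1 h with h | h
        · exact absurd h h2
        · exact h
    obtain ⟨w1, hw1⟩ := (ph_eq_zero_iff _).1 h1
    obtain ⟨w2, hw2⟩ := (ph'_eq_zero_iff _).1 h3
    have n1 : g.norm = 7 * w1.norm := by rw [hw1, map_mul, norm_la]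
    have n2 : b.norm = 7 * w2.norm := by rw [hw2, map_mul, norm_la']
    refine fin2 (w1 := w1) (w2 := w2) (by rw [← hsum, n1, n2]; ring)
      ⟨u * la, v * la', by rw [← huv, hw1, hw2]; ring⟩ 0 ?_
    intro c _ _ _
    exact odd_M2 (norm_un c) (hev _ (by rw [← n2]; exact hbe)) (hod _ (by rw [← n1]; exact hgo))
  by_cases h1' : ph' g = 0
  · have h2 : ph' b ≠ 0 := by
      intro h
      have h2 := congrArg ph' huv
      rw [map_add, map_mul, map_mul, h1', h, map_one] at h2
      simp at h2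
    have h3 : ph b = 0 := by
      rw [h1', mul_zero, zero_add] at key
      rcases mul_eq_zero.1 key with h | h
      · exact absurd h two0
      · rcases mul_eq_zero.1 h with h | h
        · exact h
        · exact absurd h h2
    obtain ⟨w1, hw1⟩ := (ph'_eq_zero_iff _).1 h1'
    obtain ⟨w2, hw2⟩ := (ph_eq_zero_iff _).1 h3
    have n1 : g.norm = 7 * w1.norm := by rw [hw1, map_mul, norm_la']
    have n2 : b.norm = 7 * w2.norm := by rw [hw2, map_mul, norm_la]
    refine fin2 (w1 := w1) (w2 := w2) (by rw [← hsum, n1, n2]; ring)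
      ⟨u * la', v * la, by rw [← huv, hw1, hw2]; ring⟩ 0 ?_
    intro c _ _ _
    exact odd_M2 (norm_un c) (hev _ (by rw [← n2]; exact hbe)) (hod _ (by rw [← n1]; exact hgo))
  have hb1 : ph b ≠ 0 := by
    intro h
    rw [h, zero_mul, mul_zero, add_zero] at key
    rcases mul_eq_zero.1 key with h | h
    · exact h1 h
    · exact h1' h
  set c : ZMod 7 := -(ph b) / (2 * ph g) with hcdef
  have hc0 : c ≠ 0 := div_ne_zero (neg_ne_zero.2 hb1) (mul_ne_zero two0 h1)
  have hce : ph b = -(2 * c * ph g) := by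
    rw [hcdef]; field_simp
  have hes := un_mul_star c
  have hpe : ph (un c) = c := ph_un c hc0
  have hpe' : c * ph' (un c) = 1 := ph'_un c hc0
  have hM2 : ph (M2 (un c) g b) = 0 := by
    unfold M2
    rw [map_add, map_mul, map_mul, ph_th, hpe, hce]; ring
  have hM1 : ph (M1 (un c) g b) = 0 := by
    unfold M1
    rw [map_add, map_mul, map_mul, map_mul, ph_th, ph_star, hce]
    have h2 : ph (2 : R) = 2 := by rw [map_ofNat]
    rw [h2]
    linear_combination (-8 * ph g) * hpe' + (-ph g) * seven0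
  -- `ph' b = 2 ph' g / c`
  have hb' : c * ph' b = 2 * ph' g := by
    have h4 : ph g * (ph' g - 4 * (c * ph' b)) = 0 := by
      rw [hce] at key
      linear_combination key
    rcases mul_eq_zero.1 h4 with h | h
    · exact absurd h h1
    · linear_combination (-2 : ZMod 7) * h - (c * ph' b) * seven0
  have hM2' : ph' (M2 (un c) g b) = 0 := by
    have h5 : c * ph' (M2 (un c) g b) = 0 := by
      unfold M2
      rw [map_add, map_mul, map_mul, ph'_th]
      linear_combination hb' + (-2 * ph' g) * hpe'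
    rcases mul_eq_zero.1 h5 with h | h
    · exact absurd h hc0
    · exact h
  have hM1' : ph' (M1 (un c) g b) = 0 := by
    unfold M1
    rw [map_add, map_mul, map_mul, map_mul, ph'_th, ph'_star, hpe]
    have h2 : ph' (2 : R) = 2 := by rw [map_ofNat]
    rw [h2]
    linear_combination (-4 : ZMod 7) * hb' - ph' g * seven0
  obtain ⟨w1, hw1⟩ := seven_dvd _ hM1 hM1'
  obtain ⟨w2, hw2⟩ := seven_dvd _ hM2 hM2'
  have b1' := back1 (un c) g b hes
  have b2' := back2 (un c) g b hes
  rw [hw1, hw2] at b1' b2'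
  have e1 : w1 - 2 * th * star (un c) * w2 = g := by
    apply cancel7; rw [← b1']; ring
  have e2 : w2 - th * un c * w1 = b := by
    apply cancel7; rw [← b2']; ring
  have hn := norm_M (un c) g b (norm_un c)
  rw [hw1, hw2, map_mul, map_mul, norm_seven, hsum] at hn
  have hs : 7 * (w1.norm + 2 * w2.norm) = m := by linarith
  have hw1o : Odd w1.norm := by
    rcases Int.even_or_odd w1.norm with h2 | h2
    · exfalso
      obtain ⟨k, hk⟩ := h2
      obtain ⟨l, hl⟩ := hmo
      omega
    · exact h2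
  refine fin2 (w1 := w1) (w2 := w2) hs
    ⟨u - v * th * un c, v - 2 * u * th * star (un c), by
      linear_combination u * e1 + v * e2 + huv⟩ c ?_
  intro d hd0 hd1 hd2
  rw [← Int.not_even_iff_odd]
  intro h
  rw [← two_dvd_iff] at h hbe
  have h6 : (2 : R) ∣ th * (un d + un c) * w1 := by
    have : th * (un d + un c) * w1 = M2 (un d) w1 w2 - b := by
      unfold M2
      linear_combination (-1 : R) * e2
    rw [this]; exact dvd_sub h hbe
  rw [two_dvd_iff, map_mul, map_mul, norm_th] at h6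
  have h7 := un_add d c hd0 hc0 hd1 hd2
  have h8 : (un d + un c).norm % 2 = 1 := by rw [norm_eq]; exact h7
  have h9 : Odd ((un d + un c).norm) := Int.odd_iff.2 h8
  have h10 : Odd (3 * (un d + un c).norm * w1.norm) :=
    ((by decide : Odd (3 : ℤ)).mul h9).mul hw1o
  rw [← Int.not_even_iff_odd] at h10
  exact h10 h6

end BB

open BB in
/-- **Piece B.** -/
theorem stmB (hA : StmA) : StmB := by
  intro m hm hm3
  obtain ⟨g, b, hs, hc⟩ := hA m hm
  have hmo : Odd (m : ℤ) := by exact_mod_cast hm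
  have hgo : Odd g.norm := by
    rcases Int.even_or_odd g.norm with h2 | h2
    · exfalso
      obtain ⟨k, hk⟩ := h2
      obtain ⟨l, hl⟩ := hmo
      omega
    · exact h2
  by_cases hb : Even b.norm
  · have hb0 : b ≠ 0 := by
      rintro rfl
      rw [isCoprime_zero_right, QuadraticAlgebra.isUnit_iff_norm_isUnit, Int.isUnit_iff] at hc
      rw [QuadraticAlgebra.norm_zero] at hs
      rcases hc with h | h <;> omega
    have hg0 : g ≠ 0 := by
      rintro rfl
      rw [QuadraticAlgebra.norm_zero] at hgo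
      exact absurd hgo (by decide)
    by_cases h7 : ((m : ℤ) : ZMod 7) = 0
    · obtain ⟨g', b', h1, h2, h3⟩ := case2 h7 hmo hs hc hb hgo
      exact ⟨g', b', h1, h2, by rw [two_dvd_iff, Int.not_even_iff_odd]; exact h3⟩
    · obtain ⟨g', b', h1, h2, h3⟩ := case1 h7 hs hc hb0 hg0 hb hgo
      exact ⟨g', b', h1, h2, by rw [two_dvd_iff, Int.not_even_iff_odd]; exact h3⟩
  · exact ⟨g, b, hs, hc, by rw [two_dvd_iff]; exact hb⟩

end Pool.Agent.R376.AP
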