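import Pool.Agent.R376.AP.Stm

/-!
# AP-CAP: caps become generalised balls
-/

set_option autoImplicit false

open scoped RealInnerProductSpace

namespace Pool.Agent.R376.AP

namespace Cap

theorem inner4 (x W : E4) : ⟪x, W⟫ = x 0 * W 0 + x 1 * W 1 + x 2 * W 2 + x 3 * W 3 := by
  simp [PiLp.inner_apply, Fin.sum_univ_four, mul_comm]

theorem inner3 (x y : E3) : ⟪x, y⟫ = x 0 * y 0 + x 1 * y 1 + x 2 * y 2 := by
  simp [PiLp.inner_apply, Fin.sum_univ_three, mul_comm]

theorem norm4 (x : E4) : ‖x‖ ^ 2 = x 0 ^ 2 + x 1 ^ 2 + x 2 ^ 2 + x 3 ^ 2 := by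
  rw [EuclideanSpace.norm_sq_eq]
  simp [Fin.sum_univ_four]

theorem norm3 (x : E3) : ‖x‖ ^ 2 = x 0 ^ 2 + x 1 ^ 2 + x 2 ^ 2 := by
  rw [EuclideanSpace.norm_sq_eq]
  simp [Fin.sum_univ_three]

/-- the plane projection of a point -/
noncomputable def sp (x : E4) : E3 := !₂[x 0 / (1 - x 3), x 1 / (1 - x 3), x 2 / (1 - x 3)]

theorem stereo_north : stereo north = OnePoint.infty := by
  unfold stereo
  rw [if_pos rfl]

theorem stereo_ne (x : E4) (hx : x ≠ north) : stereo x = ((sp x : E3) : Hat) := by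
  unfold stereo
  rw [if_neg hx]
  rfl

theorem lt_one (x : E4) (h : ‖x‖ = 1) (hx : x ≠ north) : x 3 < 1 := by
  have h1 := norm4 x
  rw [h] at h1
  by_contra h2
  push Not at h2
  apply hx
  have h3 : x 3 = 1 := by nlinarith [sq_nonneg (x 0), sq_nonneg (x 1), sq_nonneg (x 2)]
  have h0 : x 0 = 0 := by nlinarith [sq_nonneg (x 0), sq_nonneg (x 1), sq_nonneg (x 2)]
  have h4 : x 1 = 0 := by nlinarith [sq_nonneg (x 0), sq_nonneg (x 1), sq_nonneg (x 2)]
  have h5 : x 2 = 0 := by nlinarith [sq_nonneg (x 0), sq_nonneg (x 1), sq_nonneg (x 2)]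
  ext i
  fin_cases i
  · simpa [north] using h0
  · simpa [north] using h4
  · simpa [north] using h5
  · simpa [north] using h3

theorem dilate_coe (c : ℝ) (y : E3) : dilate c (y : Hat) = ((c • y : E3) : Hat) := rfl

theorem dilate_infty (c : ℝ) : dilate c OnePoint.infty = OnePoint.infty := rfl

theorem key (W : E4) (τ : ℝ) (x : E4) (h : ‖x‖ = 1) (hx : x 3 < 1) :
    √3 * (τ - W 3) * ‖(1 / √3) • sp x‖ ^ 2 - 2 * ⟪pr W, (1 / √3) • sp x⟫ + (τ + W 3) / √3 =
      2 * (τ - ⟪x, W⟫) / (√3 * (1 - x 3)) := by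
  have h3 : (0 : ℝ) < √3 := Real.sqrt_pos.2 (by norm_num)
  have hs : √3 ^ 2 = (3 : ℝ) := Real.sq_sqrt (by norm_num)
  have h1 := norm4 x
  rw [h] at h1
  have hd : (0 : ℝ) < 1 - x 3 := by linarith
  rw [norm_smul, mul_pow, Real.norm_eq_abs, sq_abs, inner_smul_right, norm3, inner3, inner4]
  have e0 : (sp x) 0 = x 0 / (1 - x 3) := rfl
  have e1 : (sp x) 1 = x 1 / (1 - x 3) := rfl
  have e2 : (sp x) 2 = x 2 / (1 - x 3) := rfl
  have f0 : (pr W) 0 = W 0 := rfl
  have f1 : (pr W) 1 = W 1 := rfl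
  have f2 : (pr W) 2 = W 2 := rfl
  rw [e0, e1, e2, f0, f1, f2]
  obtain ⟨r, hr⟩ : ∃ r, r = √3 := ⟨_, rfl⟩
  rw [← hr] at h3 hs ⊢
  have hr2 : r * (1 / r) ^ 2 = 1 / r := by field_simp
  have e3 : r * (τ - W 3) * ((1 / r) ^ 2 * ((x 0 / (1 - x 3)) ^ 2 + (x 1 / (1 - x 3)) ^ 2 +
      (x 2 / (1 - x 3)) ^ 2)) - 2 * (1 / r * (W 0 * (x 0 / (1 - x 3)) + W 1 * (x 1 / (1 - x 3)) +
      W 2 * (x 2 / (1 - x 3)))) + (τ + W 3) / r =
      (1 / r) * ((τ - W 3) * ((x 0 / (1 - x 3)) ^ 2 + (x 1 / (1 - x 3)) ^ 2 +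
      (x 2 / (1 - x 3)) ^ 2) - 2 * (W 0 * (x 0 / (1 - x 3)) + W 1 * (x 1 / (1 - x 3)) +
      W 2 * (x 2 / (1 - x 3))) + (τ + W 3)) := by
    field_simp
  rw [e3]
  have e4 : (x 0 / (1 - x 3)) ^ 2 + (x 1 / (1 - x 3)) ^ 2 + (x 2 / (1 - x 3)) ^ 2 =
      (1 + x 3) / (1 - x 3) := by
    field_simp
    linear_combination -h1
  rw [e4]
  field_simp
  ring

end Cap

open Cap in
theorem stmCap : StmCap := by
  intro W τ _
  have h3 : (0 : ℝ) < √3 := Real.sqrt_pos.2 (by norm_num)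
  ext p
  constructor
  · rintro ⟨q, ⟨x, ⟨hx1, hx2⟩, rfl⟩, rfl⟩
    by_cases hx : x = north
    · rw [hx, stereo_north, dilate_infty]
      left
      refine ⟨rfl, ?_⟩
      rw [hx, inner4] at hx2
      have : τ ≤ W 3 := by simpa [north] using hx2
      exact mul_nonpos_of_nonneg_of_nonpos h3.le (by linarith)
    · rw [stereo_ne x hx, dilate_coe]
      right
      have hlt := lt_one x hx1 hx
      refine ⟨_, rfl, ?_⟩
      rw [key W τ x hx1 hlt]
      refine div_nonpos_of_nonpos_of_nonneg (by linarith) ?_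
      exact mul_nonneg h3.le (by linarith)
  · rintro (⟨rfl, hp⟩ | ⟨z, rfl, hz⟩)
    · refine ⟨OnePoint.infty, ⟨north, ⟨?_, ?_⟩, stereo_north⟩, dilate_infty _⟩
      · have h1 := norm4 north
        have h2 : ‖north‖ ^ 2 = 1 := by rw [h1]; simp [north]
        nlinarith [norm_nonneg north]
      · rw [inner4]
        have h1 : τ - W 3 ≤ 0 := by
          by_contra h2
          push Not at h2
          have := mul_pos h3 h2
          linarith
        simp [north]
        linarith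
    · obtain ⟨y, hy⟩ : ∃ y : E3, y = √3 • z := ⟨_, rfl⟩
      obtain ⟨N, hN⟩ : ∃ N, N = ‖y‖ ^ 2 := ⟨_, rfl⟩
      have hN0 : 0 ≤ N := by rw [hN]; positivity
      have hN1 : N = y 0 ^ 2 + y 1 ^ 2 + y 2 ^ 2 := by rw [hN, norm3]
      obtain ⟨x, hx⟩ : ∃ x : E4, x = !₂[2 * y 0 / (N + 1), 2 * y 1 / (N + 1), 2 * y 2 / (N + 1),
        (N - 1) / (N + 1)] := ⟨_, rfl⟩
      have x0 : x 0 = 2 * y 0 / (N + 1) := by rw [hx]; rfl
      have x1 : x 1 = 2 * y 1 / (N + 1) := by rw [hx]; rfl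
      have x2 : x 2 = 2 * y 2 / (N + 1) := by rw [hx]; rfl
      have x3 : x 3 = (N - 1) / (N + 1) := by rw [hx]; rfl
      have hx3 : 1 - x 3 = 2 / (N + 1) := by rw [x3]; field_simp; ring
      have hlt : x 3 < 1 := by
        have : 0 < 2 / (N + 1) := by positivity
        linarith
      have hn : ‖x‖ = 1 := by
        have h1 := norm4 x
        rw [x0, x1, x2, x3] at h1
        have h2 : ‖x‖ ^ 2 = 1 := by
          rw [h1]
          field_simp
          linear_combination (-4) * hN1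
        nlinarith [norm_nonneg x]
      have hne : x ≠ north := by
        rintro h1
        rw [h1] at hlt
        simp [north] at hlt
      have hsp : sp x = y := by
        ext i
        fin_cases i
        · change x 0 / (1 - x 3) = y 0
          rw [hx3, x0]; field_simp
        · change x 1 / (1 - x 3) = y 1
          rw [hx3, x1]; field_simp
        · change x 2 / (1 - x 3) = y 2
          rw [hx3, x2]; field_simp
      have hzy : (1 / √3) • sp x = z := by
        rw [hsp, hy, smul_smul, one_div, inv_mul_cancel₀ h3.ne', one_smul]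
      refine ⟨(y : Hat), ⟨x, ⟨hn, ?_⟩, ?_⟩, ?_⟩
      · have h1 := key W τ x hn hlt
        rw [hzy] at h1
        rw [h1] at hz
        have h2 : 0 < √3 * (1 - x 3) := mul_pos h3 (by linarith)
        rw [div_le_iff₀ h2, zero_mul] at hz
        linarith
      · rw [stereo_ne x hne, hsp]
      · rw [dilate_coe, ← hsp, hzy]

end Pool.Agent.R376.AP
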