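import Pool.Agent.R376.AP.Stm

/-!
# MP_ab5bd9_nt: the 24 vertices and the 24 facet poles
-/

set_option autoImplicit false

open scoped RealInnerProductSpace

namespace Pool.Agent.R376.AP

namespace Cd

theorem le_two {x a b c : ℤ} (h : x ^ 2 + a ^ 2 + b ^ 2 + c ^ 2 ≤ 4) : -2 ≤ x ∧ x ≤ 2 := by
  have h1 : x ^ 2 ≤ 4 := by nlinarith [sq_nonneg a, sq_nonneg b, sq_nonneg c]
  constructor <;> nlinarith

/-- the finite set of candidates -/
noncomputable def box : Finset (Fin 4 → ℤ) := Fintype.piFinset fun _ => Finset.Icc (-2) 2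

theorem mem_box {w : Fin 4 → ℤ} (h : ∑ i, w i ^ 2 ≤ 4) : w ∈ box := by
  rw [Fin.sum_univ_four] at h
  unfold box
  rw [Fintype.mem_piFinset]
  intro i
  rw [Finset.mem_Icc]
  fin_cases i
  · exact le_two h
  · exact le_two (x := w 1) (a := w 0) (b := w 2) (c := w 3) (by linarith)
  · exact le_two (x := w 2) (a := w 0) (b := w 1) (c := w 3) (by linarith)
  · exact le_two (x := w 3) (a := w 0) (b := w 1) (c := w 2) (by linarith)

theorem card2 : (box.filter fun w => ∑ i, w i ^ 2 = 2).card = 24 := by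
  decide +kernel

theorem card4 : (box.filter fun w => ∑ i, w i ^ 2 = 4).card = 24 := by
  decide +kernel

theorem ofInt_inj : Function.Injective ofInt := by
  intro u v h
  funext i
  have h1 := congrArg (fun x : E4 => x i) h
  simpa [ofInt] using h1

theorem card_image (U : E4 ≃ₗᵢ[ℝ] E4) (c : ℝ) (hc : c ≠ 0) (n : ℤ) (hn : n ≤ 4)
    (h : (box.filter fun w => ∑ i, w i ^ 2 = n).card = 24) :
    {x | ∃ u : Fin 4 → ℤ, ∑ i, u i ^ 2 = n ∧ x = U (c • ofInt u)}.ncard = 24 := by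
  have e : {x | ∃ u : Fin 4 → ℤ, ∑ i, u i ^ 2 = n ∧ x = U (c • ofInt u)} =
      (fun u : Fin 4 → ℤ => U (c • ofInt u)) '' ((box.filter fun w => ∑ i, w i ^ 2 = n : Finset _) :
        Set (Fin 4 → ℤ)) := by
    ext x
    constructor
    · rintro ⟨u, hu, rfl⟩
      exact ⟨u, by
        rw [Finset.coe_filter]
        exact ⟨mem_box (by rw [hu]; exact hn), hu⟩, rfl⟩
    · rintro ⟨u, hu, rfl⟩
      rw [Finset.coe_filter] at hu
      exact ⟨u, hu.2, rfl⟩
  rw [e, Set.ncard_image_of_injective, Set.ncard_coe_finset, h]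
  intro u v huv
  apply ofInt_inj
  exact smul_right_injective E4 hc (U.injective huv)

end Cd

open Cd in
theorem card24 (hPole : StmPole) (V : Set E4) (hV : IsEdgeScribed24Cell V) :
    V.ncard = 24 ∧ {f | IsFacetPole V f}.ncard = 24 := by
  obtain ⟨U, rfl⟩ := hV
  refine ⟨card_image U _ (by positivity) 2 (by norm_num) card2, ?_⟩
  have : {f | IsFacetPole {x | ∃ u : Fin 4 → ℤ, ∑ i, u i ^ 2 = 2 ∧ x = U (√(2 / 3) • ofInt u)} f} =
      {x | ∃ u : Fin 4 → ℤ, ∑ i, u i ^ 2 = 4 ∧ x = U ((√(3 / 2) / 2) • ofInt u)} := by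
    ext f
    exact hPole U f
  rw [this]
  exact card_image U _ (by positivity) 4 (by norm_num) card4

end Pool.Agent.R376.AP
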