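import Pool.Agent.R376.AP.Stm

/-!
# AP-CURV: curvature of generalised balls
-/

set_option autoImplicit false

open scoped RealInnerProductSpace

namespace Pool.Agent.R376.AP

/-- The quadratic function of a generalised ball. -/
noncomputable def QQ (a : ℝ) (b : E3) (c : ℝ) (x : E3) : ℝ := a * ‖x‖ ^ 2 - 2 * ⟪b, x⟫ + c

theorem QQ_add (a : ℝ) (b : E3) (c : ℝ) (x v : E3) (s : ℝ) :
    QQ a b c (x + s • v) = QQ a b c x + 2 * s * ⟪a • x - b, v⟫ + a * s ^ 2 * ‖v‖ ^ 2 := by
  unfold QQ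
  rw [norm_add_sq_real, inner_add_right, inner_smul_right, inner_smul_right, norm_smul,
    inner_sub_left, inner_smul_left, mul_pow, Real.norm_eq_abs, sq_abs]
  simp only [conj_trivial]
  ring

theorem QQ_grad (a : ℝ) (b : E3) (c : ℝ) (h : ‖b‖ ^ 2 - a * c = 1) (x : E3) :
    ‖a • x - b‖ ^ 2 = a * QQ a b c x + 1 := by
  unfold QQ
  rw [norm_sub_sq_real, norm_smul, mul_pow, Real.norm_eq_abs, sq_abs, inner_smul_left,
    real_inner_comm]
  simp only [conj_trivial]
  linear_combination h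

theorem mem_GB_coe (a : ℝ) (b : E3) (c : ℝ) (x : E3) :
    (x : Hat) ∈ GB a b c ↔ QQ a b c x ≤ 0 := by
  constructor
  · rintro (⟨h, -⟩ | ⟨y, hy, h⟩)
    · exact absurd h (OnePoint.coe_ne_infty x)
    · rw [OnePoint.coe_eq_coe] at hy
      subst hy
      exact h
  · intro h
    exact Or.inr ⟨x, rfl, h⟩

theorem mem_GB_infty (a : ℝ) (b : E3) (c : ℝ) :
    (OnePoint.infty : Hat) ∈ GB a b c ↔ a ≤ 0 := by
  constructor
  · rintro (⟨-, h⟩ | ⟨y, hy, -⟩)
    · exact h
    · exact absurd hy.symm (OnePoint.coe_ne_infty y)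
  · intro h
    exact Or.inl ⟨rfl, h⟩

/-- At a zero of one function the other one vanishes too, with the same gradient. -/
theorem zero_key (a : ℝ) (b : E3) (c : ℝ) (h : ‖b‖ ^ 2 - a * c = 1) (a' : ℝ) (b' : E3) (c' : ℝ)
    (h' : ‖b'‖ ^ 2 - a' * c' = 1) (hQ : ∀ x, QQ a b c x ≤ 0 ↔ QQ a' b' c' x ≤ 0) (x : E3)
    (hx : QQ a b c x = 0) : QQ a' b' c' x = 0 ∧ a • x - b = a' • x - b' := by
  have hg : ‖a • x - b‖ ^ 2 = 1 := by rw [QQ_grad a b c h, hx]; ring
  have hx' : QQ a' b' c' x ≤ 0 := (hQ x).1 hx.le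
  have h0 : QQ a' b' c' x = 0 := by
    by_contra hne
    have hlt : QQ a' b' c' x < 0 := lt_of_le_of_ne hx' hne
    obtain ⟨δ, hδ⟩ : ∃ δ, δ = -QQ a' b' c' x := ⟨_, rfl⟩
    have hδ0 : 0 < δ := by linarith
    obtain ⟨κ, hκ⟩ : ∃ κ, κ = ⟪a' • x - b', a • x - b⟫ := ⟨_, rfl⟩
    obtain ⟨s, hs⟩ : ∃ s, s = min (min 1 (1 / (|a| + 1))) (δ / (2 * |κ| + |a'| + 1)) := ⟨_, rfl⟩
    have hs0 : 0 < s := by
      rw [hs]
      refine lt_min (lt_min one_pos (by positivity)) (by positivity)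
    have hs1 : s ≤ 1 := by rw [hs]; exact (min_le_left _ _).trans (min_le_left _ _)
    have hs2 : s * (|a| + 1) ≤ 1 := by
      have : s ≤ 1 / (|a| + 1) := by rw [hs]; exact (min_le_left _ _).trans (min_le_right _ _)
      rwa [le_div_iff₀ (by positivity)] at this
    have hs3 : s * (2 * |κ| + |a'| + 1) ≤ δ := by
      have : s ≤ δ / (2 * |κ| + |a'| + 1) := by rw [hs]; exact min_le_right _ _
      rwa [le_div_iff₀ (by positivity)] at this
    have e1 := QQ_add a b c x (a • x - b) s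
    have e2 := QQ_add a' b' c' x (a • x - b) s
    rw [hx, real_inner_self_eq_norm_sq, hg] at e1
    rw [hg, ← hκ] at e2
    have n1 := neg_abs_le a
    have n2 := le_abs_self a'
    have n3 := le_abs_self κ
    have p1 : 0 < QQ a b c (x + s • (a • x - b)) := by
      rw [e1]
      have : 0 < 2 + a * s := by nlinarith [abs_nonneg a]
      nlinarith
    have p2 : QQ a' b' c' (x + s • (a • x - b)) ≤ 0 := by
      rw [e2]
      have q1 : 2 * s * κ ≤ 2 * s * |κ| := mul_le_mul_of_nonneg_left n3 (by positivity)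
      have q2 : a' * s ^ 2 * 1 ≤ |a'| * s := by
        have q3 : a' * s ^ 2 ≤ |a'| * s ^ 2 := mul_le_mul_of_nonneg_right n2 (by positivity)
        have q4 : |a'| * s ^ 2 ≤ |a'| * s :=
          mul_le_mul_of_nonneg_left (by nlinarith) (abs_nonneg _)
        linarith
      nlinarith
    exact absurd ((hQ _).2 p2) (not_le.2 p1)
  refine ⟨h0, ?_⟩
  have hg' : ‖a' • x - b'‖ ^ 2 = 1 := by rw [QQ_grad a' b' c' h', h0]; ring
  by_contra hne
  obtain ⟨κ, hκ⟩ : ∃ κ, κ = ⟪a • x - b, a' • x - b'⟫ := ⟨_, rfl⟩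
  have hv : ‖(a • x - b) - (a' • x - b')‖ ^ 2 = 2 * (1 - κ) := by
    rw [norm_sub_sq_real, hg, hg', hκ]
    ring
  have hv0 : 0 < ‖(a • x - b) - (a' • x - b')‖ ^ 2 := by
    have : 0 < ‖(a • x - b) - (a' • x - b')‖ := norm_pos_iff.2 (sub_ne_zero.2 hne)
    positivity
  have hκ1 : 0 < 1 - κ := by linarith
  obtain ⟨s, hs⟩ : ∃ s, s = 1 / (|a| + |a'| + 1) := ⟨_, rfl⟩
  have hs0 : 0 < s := by rw [hs]; positivity
  have hs1 : s * (|a| + |a'| + 1) = 1 := by
    rw [hs]
    field_simp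
  have e1 := QQ_add a b c x ((a • x - b) - (a' • x - b')) s
  have e2 := QQ_add a' b' c' x ((a • x - b) - (a' • x - b')) s
  have i1 : ⟪a • x - b, (a • x - b) - (a' • x - b')⟫ = 1 - κ := by
    rw [inner_sub_right, real_inner_self_eq_norm_sq, hg, ← hκ]
  have i2 : ⟪a' • x - b', (a • x - b) - (a' • x - b')⟫ = -(1 - κ) := by
    rw [inner_sub_right, real_inner_self_eq_norm_sq, hg', real_inner_comm, ← hκ]
    ring
  rw [hx, i1, hv] at e1
  rw [h0, i2, hv] at e2
  have n1 := neg_abs_le a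
  have n2 := le_abs_self a'
  have p1 : 0 < QQ a b c (x + s • ((a • x - b) - (a' • x - b'))) := by
    rw [e1]
    have : 0 < 1 + a * s := by nlinarith [abs_nonneg a, abs_nonneg a']
    have : 0 < 2 * s * (1 - κ) * (1 + a * s) := by positivity
    nlinarith
  have p2 : QQ a' b' c' (x + s • ((a • x - b) - (a' • x - b'))) ≤ 0 := by
    rw [e2]
    have : 0 < 1 - a' * s := by nlinarith [abs_nonneg a, abs_nonneg a']
    have : 0 < 2 * s * (1 - κ) * (1 - a' * s) := by positivity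
    nlinarith
  exact absurd ((hQ _).2 p2) (not_le.2 p1)

/-- two distinct zeros -/
theorem two_zeros (a : ℝ) (b : E3) (c : ℝ) (h : ‖b‖ ^ 2 - a * c = 1) :
    ∃ x y : E3, x ≠ y ∧ QQ a b c x = 0 ∧ QQ a b c y = 0 := by
  by_cases ha : a = 0
  · subst ha
    have hb : ‖b‖ ^ 2 = 1 := by linarith
    obtain ⟨w, hw0, hw⟩ : ∃ w : E3, w ≠ 0 ∧ ⟪b, w⟫ = 0 := by
      by_cases hb0 : b 0 = 0
      · refine ⟨!₂[1, 0, 0], ?_, ?_⟩
        · intro h1
          have h2 := congrArg (fun v : E3 => v 0) h1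
          simp at h2
        · simp [PiLp.inner_apply, Fin.sum_univ_three, hb0]
      · refine ⟨!₂[-b 1, b 0, 0], ?_, ?_⟩
        · intro h1
          have h2 := congrArg (fun v : E3 => v 1) h1
          simp at h2
          exact hb0 h2
        · simp [PiLp.inner_apply, Fin.sum_univ_three]
          ring
    refine ⟨(c / 2) • b, (c / 2) • b + w, ?_, ?_, ?_⟩
    · intro h1
      exact hw0 (by simpa using h1)
    · unfold QQ
      rw [inner_smul_right, real_inner_self_eq_norm_sq, hb]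
      ring
    · unfold QQ
      rw [inner_add_right, inner_smul_right, real_inner_self_eq_norm_sq, hb, hw]
      ring
  · have hz : ∀ e : E3, ‖e‖ ^ 2 = 1 → QQ a b c (a⁻¹ • (b + e)) = 0 := by
      intro e he
      unfold QQ
      rw [inner_smul_right, inner_add_right, real_inner_self_eq_norm_sq, norm_smul, mul_pow,
        Real.norm_eq_abs, sq_abs, norm_add_sq_real, he]
      field_simp
      linear_combination -h
    have he1 : ‖(!₂[1, 0, 0] : E3)‖ ^ 2 = 1 := by
      rw [EuclideanSpace.norm_sq_eq]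
      simp [Fin.sum_univ_three]
    refine ⟨a⁻¹ • (b + !₂[1, 0, 0]), a⁻¹ • (b + -!₂[1, 0, 0]), ?_, hz _ he1, hz _ ?_⟩
    · intro h1
      have h2 := smul_right_injective E3 (inv_ne_zero ha) h1
      have h3 := add_left_cancel h2
      have h4 := congrArg (fun v : E3 => v 0) h3
      simp at h4
      norm_num at h4
    · rw [norm_neg]
      exact he1

theorem GB_unique (a : ℝ) (b : E3) (c : ℝ) (h : ‖b‖ ^ 2 - a * c = 1) (a' : ℝ) (b' : E3) (c' : ℝ)
    (h' : ‖b'‖ ^ 2 - a' * c' = 1) (hG : GB a b c = GB a' b' c') : a = a' ∧ b = b' ∧ c = c' := by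
  have hQ : ∀ x, QQ a b c x ≤ 0 ↔ QQ a' b' c' x ≤ 0 := by
    intro x
    rw [← mem_GB_coe, ← mem_GB_coe, hG]
  obtain ⟨x, y, hxy, hx, hy⟩ := two_zeros a b c h
  obtain ⟨hx', gx⟩ := zero_key a b c h a' b' c' h' hQ x hx
  obtain ⟨-, gy⟩ := zero_key a b c h a' b' c' h' hQ y hy
  have h1 : (a - a') • (x - y) = 0 := by
    have h2 : (a • x - b) - (a • y - b) = (a' • x - b') - (a' • y - b') := by rw [gx, gy]
    have h3 : (a - a') • (x - y) = ((a • x - b) - (a • y - b)) -
        ((a' • x - b') - (a' • y - b')) := by module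
    rw [h3, h2, sub_self]
  have ha : a = a' := by
    rcases smul_eq_zero.1 h1 with h2 | h2
    · linarith
    · exact absurd (sub_eq_zero.1 h2) hxy
  subst ha
  have hb : b = b' := sub_right_injective gx
  subst hb
  refine ⟨rfl, rfl, ?_⟩
  unfold QQ at hx hx'
  linarith

theorem QQ_centre (r : ℝ) (hr : 0 < r) (c : E3) (x : E3) :
    QQ (1 / r) ((1 / r) • c) ((‖c‖ ^ 2 - r ^ 2) / r) x = (‖x - c‖ ^ 2 - r ^ 2) / r := by
  unfold QQ
  rw [inner_smul_left, norm_sub_sq_real, real_inner_comm]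
  simp only [conj_trivial]
  field_simp
  ring

theorem norm_centre (r : ℝ) (hr : 0 < r) (c : E3) :
    ‖(1 / r) • c‖ ^ 2 - (1 / r) * ((‖c‖ ^ 2 - r ^ 2) / r) = 1 := by
  rw [norm_smul, mul_pow, Real.norm_eq_abs, sq_abs]
  field_simp
  ring

theorem ball_GB (c : E3) (r : ℝ) (hr : 0 < r) :
    ballSet c r = GB (1 / r) ((1 / r) • c) ((‖c‖ ^ 2 - r ^ 2) / r) := by
  ext p
  induction p using OnePoint.rec with
  | infty =>
    rw [mem_GB_infty]
    constructor
    · rintro ⟨x, hx, -⟩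
      exact absurd hx.symm (OnePoint.coe_ne_infty x)
    · intro h1
      have : 0 < 1 / r := by positivity
      linarith
  | coe x =>
    rw [mem_GB_coe, QQ_centre r hr]
    have h2 : (x : Hat) ∈ ballSet c r ↔ dist x c ≤ r := by
      constructor
      · rintro ⟨y, hy, h⟩
        rw [OnePoint.coe_eq_coe] at hy
        subst hy
        exact h
      · intro h
        exact ⟨x, rfl, h⟩
    rw [h2, dist_eq_norm, div_nonpos_iff]
    constructor
    · intro h
      right
      have := norm_nonneg (x - c)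
      exact ⟨by nlinarith, hr.le⟩
    · rintro (⟨-, h⟩ | ⟨h, -⟩)
      · linarith
      · exact abs_le_of_sq_le_sq' (by linarith) hr.le |>.2

theorem coball_GB (c : E3) (r : ℝ) (hr : 0 < r) :
    coballSet c r = GB (-(1 / r)) (-((1 / r) • c)) (-((‖c‖ ^ 2 - r ^ 2) / r)) := by
  ext p
  induction p using OnePoint.rec with
  | infty =>
    rw [mem_GB_infty]
    constructor
    · intro _
      have : 0 < 1 / r := by positivity
      linarith
    · intro _
      exact Or.inl rfl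
  | coe x =>
    have h1 : QQ (-(1 / r)) (-((1 / r) • c)) (-((‖c‖ ^ 2 - r ^ 2) / r)) x =
        -QQ (1 / r) ((1 / r) • c) ((‖c‖ ^ 2 - r ^ 2) / r) x := by
      unfold QQ
      rw [inner_neg_left]
      ring
    rw [mem_GB_coe, h1, QQ_centre r hr]
    have h2 : (x : Hat) ∈ coballSet c r ↔ r ≤ dist x c := by
      constructor
      · rintro (h | ⟨y, hy, h⟩)
        · exact absurd h (OnePoint.coe_ne_infty x)
        · rw [OnePoint.coe_eq_coe] at hy
          subst hy
          exact h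
      · intro h
        exact Or.inr ⟨x, rfl, h⟩
    rw [h2, dist_eq_norm, neg_nonpos, div_nonneg_iff]
    constructor
    · intro h
      left
      exact ⟨by nlinarith, hr.le⟩
    · rintro (⟨h, -⟩ | ⟨-, h⟩)
      · exact abs_le_of_sq_le_sq' (by linarith) (norm_nonneg _) |>.2
      · linarith

theorem half_GB (n : E3) (h : ℝ) : halfSet n h = GB 0 n (2 * h) := by
  ext p
  induction p using OnePoint.rec with
  | infty =>
    rw [mem_GB_infty]
    constructor
    · intro _
      exact le_rfl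
    · intro _
      exact Or.inl rfl
  | coe x =>
    rw [mem_GB_coe]
    have h2 : (x : Hat) ∈ halfSet n h ↔ h ≤ ⟪n, x⟫ := by
      constructor
      · rintro (h | ⟨y, hy, h⟩)
        · exact absurd h (OnePoint.coe_ne_infty x)
        · rw [OnePoint.coe_eq_coe] at hy
          subst hy
          exact h
      · intro h
        exact Or.inr ⟨x, rfl, h⟩
    rw [h2]
    unfold QQ
    constructor
    · intro h; linarith
    · intro h; linarith

/-- The canonical form. -/
theorem canon (a : ℝ) (b : E3) (c : ℝ) (h : ‖b‖ ^ 2 - a * c = 1) :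
    (∃ (c₀ : E3) (r : ℝ), 0 < r ∧ GB a b c = ballSet c₀ r ∧ a = 1 / r) ∨
    (∃ (n : E3) (h : ℝ), ‖n‖ = 1 ∧ GB a b c = halfSet n h ∧ a = 0) ∨
    (∃ (c₀ : E3) (r : ℝ), 0 < r ∧ GB a b c = coballSet c₀ r ∧ a = -(1 / r)) := by
  have hform : a ≠ 0 → a⁻¹ * (‖b‖ ^ 2 - 1) = c := by
    intro ha
    field_simp
    linear_combination h
  rcases lt_trichotomy a 0 with ha | ha | ha
  · right; right
    refine ⟨a⁻¹ • b, -(1 / a), by rw [neg_pos]; exact one_div_neg.2 ha, ?_, by field_simp⟩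
    have hr : 0 < -(1 / a) := by rw [neg_pos]; exact one_div_neg.2 ha
    rw [coball_GB _ _ hr]
    have e1 : -(1 / (-(1 / a))) = a := by field_simp
    have e2 : -((1 / (-(1 / a))) • (a⁻¹ • b)) = b := by
      rw [smul_smul, ← neg_smul]
      have ha' : a ≠ 0 := ha.ne
      have : -(1 / (-(1 / a)) * a⁻¹) = 1 := by
        rw [neg_mul_eq_neg_mul, e1, mul_inv_cancel₀ ha']
      rw [this, one_smul]
    have e3 : -((‖a⁻¹ • b‖ ^ 2 - (-(1 / a)) ^ 2) / (-(1 / a))) = c := by
      rw [norm_smul, mul_pow, Real.norm_eq_abs, sq_abs, ← hform ha.ne]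
      field_simp
    rw [e3, e2, e1]
  · right; left
    subst ha
    have hb : ‖b‖ = 1 := by
      have h1 : ‖b‖ ^ 2 = 1 := by linarith
      nlinarith [norm_nonneg b]
    refine ⟨b, c / 2, hb, ?_, rfl⟩
    rw [half_GB]
    congr 1
    ring
  · left
    have hr : 0 < 1 / a := by positivity
    refine ⟨a⁻¹ • b, 1 / a, hr, ?_, by field_simp⟩
    rw [ball_GB _ _ hr]
    have e1 : 1 / (1 / a) = a := by field_simp
    have e2 : (1 / (1 / a)) • (a⁻¹ • b) = b := by
      rw [smul_smul]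
      have : 1 / (1 / a) * a⁻¹ = 1 := by field_simp
      rw [this, one_smul]
    have e3 : (‖a⁻¹ • b‖ ^ 2 - (1 / a) ^ 2) / (1 / a) = c := by
      rw [norm_smul, mul_pow, Real.norm_eq_abs, sq_abs, ← hform ha.ne']
      field_simp
    rw [e3, e2, e1]

theorem stmCurv : StmCurv := by
  intro a b c h k
  constructor
  · rintro (⟨c₀, r, hr, hB, hk⟩ | ⟨n, h₀, hn, hB, hk⟩ | ⟨c₀, r, hr, hB, hk⟩)
    · rw [ball_GB _ _ hr] at hB
      rw [hk, (GB_unique a b c h _ _ _ (norm_centre r hr c₀) hB).1]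
    · rw [half_GB] at hB
      rw [hk, (GB_unique a b c h _ _ _ (by rw [hn]; ring) hB).1]
    · rw [coball_GB _ _ hr] at hB
      have h1 := norm_centre r hr c₀
      rw [hk, (GB_unique a b c h _ _ _ (by rw [norm_neg]; linarith) hB).1]
  · rintro rfl
    exact canon k b c h

end Pool.Agent.R376.AP
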