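import Pool.Agent.R376.AP.Stm

/-!
# MP_ab5bd9_nt: piece D (helper92), the descent in the cube reflection group
-/

set_option autoImplicit false

namespace Pool.Agent.R376.AP

theorem d_sgn (z : ℤ) : ∃ ε : ℤ, (ε = 1 ∨ ε = -1) ∧ ε * z = |z| := by
  rcases abs_cases z with ⟨h, _⟩ | ⟨h, _⟩
  · exact ⟨1, Or.inl rfl, by rw [h]; ring⟩
  · exact ⟨-1, Or.inr rfl, by rw [h]; ring⟩

theorem d_aux (n : ℕ) : ∀ d z y s : ℤ, s.toNat = n → 0 < s → Odd s → Odd d → Odd (z + y) →
    d ^ 2 + 2 * z ^ 2 + 2 * y ^ 2 = 3 * s ^ 2 →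
    (∀ p : ℤ, p ∣ d → p ∣ z → p ∣ y → p ∣ s → IsUnit p) →
    ∀ a b : ℤ, 2 * a = 3 * s + d → 2 * b = 3 * s - d →
      Orb ![a - 1, b - 1, z, y] (2 * s - 1) := by
  induction n using Nat.strong_induction_on with
  | _ n ih =>
  intro d z y s hn hs hso hdo hzy hq hp a b ha hb
  by_cases h1 : s < d
  · -- reflection in (2,0,0,0)
    have hd2 : d < 2 * s := by nlinarith [sq_nonneg z, sq_nonneg y]
    obtain ⟨k, hk⟩ : ∃ k : ℤ, d = s + 2 * k := by
      obtain ⟨m, hm⟩ := hso
      obtain ⟨l, hl⟩ := hdo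
      exact ⟨l - m, by rw [hm, hl]; ring⟩
    have hs' : (2 * s - d).toNat < n := by omega
    have hO := ih _ hs' (3 * s - 2 * d) z y (2 * s - d) rfl (by omega)
      (by rcases hdo with ⟨l, hl⟩; exact ⟨s - l - 1, by rw [hl]; ring⟩)
      (by rcases hso with ⟨l, hl⟩; exact ⟨3 * l - d + 1, by rw [hl]; ring⟩) hzy
      (by linear_combination hq)
      (by
        intro p p1 p2 p3 p4
        apply hp p _ p2 p3 _
        · have e : d = 3 * (2 * s - d) - 2 * (3 * s - 2 * d) := by ring
          rw [e]; exact dvd_sub (Dvd.dvd.mul_left p4 _) (Dvd.dvd.mul_left p1 _)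
        · have e : s = 2 * (2 * s - d) - (3 * s - 2 * d) := by ring
          rw [e]; exact dvd_sub (Dvd.dvd.mul_left p4 _) p1)
      (a - 6 * k) b (by linarith) (by linarith)
    have hst := Orb.step _ _ ![2, 0, 0, 0] (-k) hO (by simp [Fin.sum_univ_four])
      (by simp [Fin.sum_univ_four]; linarith)
    have e1 : (fun i => (![a - 6 * k - 1, b - 1, z, y] : Fin 4 → ℤ) i - 3 * -k *
        (![2, 0, 0, 0] : Fin 4 → ℤ) i) = ![a - 1, b - 1, z, y] := by
      funext i; fin_cases i <;> simp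
      ring
    have e2 : 2 * (2 * s - d) - 1 - 4 * -k = 2 * s - 1 := by rw [hk]; ring
    rw [e1, e2] at hst
    exact hst
  by_cases h2 : d < -s
  · -- reflection in (0,2,0,0)
    have hd2 : -d < 2 * s := by nlinarith [sq_nonneg z, sq_nonneg y]
    obtain ⟨k, hk⟩ : ∃ k : ℤ, -d = s + 2 * k := by
      obtain ⟨m, hm⟩ := hso
      obtain ⟨l, hl⟩ := hdo
      exact ⟨-l - m - 1, by rw [hm, hl]; ring⟩
    have hs' : (2 * s + d).toNat < n := by omega
    have hO := ih _ hs' (-3 * s - 2 * d) z y (2 * s + d) rfl (by omega)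
      (by rcases hdo with ⟨l, hl⟩; exact ⟨s + l, by rw [hl]; ring⟩)
      (by rcases hso with ⟨l, hl⟩; exact ⟨-3 * l - d - 2, by rw [hl]; ring⟩) hzy
      (by linear_combination hq)
      (by
        intro p p1 p2 p3 p4
        apply hp p _ p2 p3 _
        · have e : d = -3 * (2 * s + d) - 2 * (-3 * s - 2 * d) := by ring
          rw [e]; exact dvd_sub (Dvd.dvd.mul_left p4 _) (Dvd.dvd.mul_left p1 _)
        · have e : s = 2 * (2 * s + d) + (-3 * s - 2 * d) := by ring
          rw [e]; exact dvd_add (Dvd.dvd.mul_left p4 _) p1)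
      a (b - 6 * k) (by linarith) (by linarith)
    have hst := Orb.step _ _ ![0, 2, 0, 0] (-k) hO (by simp [Fin.sum_univ_four])
      (by simp [Fin.sum_univ_four]; linarith)
    have e1 : (fun i => (![a - 1, b - 6 * k - 1, z, y] : Fin 4 → ℤ) i - 3 * -k *
        (![0, 2, 0, 0] : Fin 4 → ℤ) i) = ![a - 1, b - 1, z, y] := by
      funext i; fin_cases i <;> simp
      ring
    have e2 : 2 * (2 * s + d) - 1 - 4 * -k = 2 * s - 1 := by linarith
    rw [e1, e2] at hst
    exact hst
  obtain ⟨ε, hε, hεz⟩ := d_sgn z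
  obtain ⟨δ, hδ, hδy⟩ := d_sgn y
  have hε2 : ε ^ 2 = 1 := by rcases hε with h | h <;> rw [h] <;> norm_num
  have hδ2 : δ ^ 2 = 1 := by rcases hδ with h | h <;> rw [h] <;> norm_num
  have hz2 : |z| ^ 2 = z ^ 2 := sq_abs z
  have hy2 : |y| ^ 2 = y ^ 2 := sq_abs y
  have hz0 : 0 ≤ |z| := abs_nonneg z
  have hy0 : 0 ≤ |y| := abs_nonneg y
  by_cases h3 : s < |z| + |y|
  · have hd0 : 0 < d ^ 2 := by
      rcases hdo with ⟨l, hl⟩
      have : d ≠ 0 := by omega
      positivity
    have hlt : |z| + |y| < 2 * s := by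
      nlinarith [sq_nonneg (|z| - |y|)]
    obtain ⟨k, hk⟩ : ∃ k : ℤ, |z| + |y| = s + 2 * k := by
      obtain ⟨m, hm⟩ := hso
      obtain ⟨l, hl⟩ := hzy
      rcases abs_cases z with ⟨h, _⟩ | ⟨h, _⟩ <;> rcases abs_cases y with ⟨h', _⟩ | ⟨h', _⟩ <;>
        rw [h, h']
      · exact ⟨l - m, by linarith⟩
      · exact ⟨l - m - y, by linarith⟩
      · exact ⟨l - m - z, by linarith⟩
      · exact ⟨l - m - z - y, by linarith⟩
    have hs' : (s - 2 * k).toNat < n := by omega
    have hpar : ∃ c : ℤ, ε + δ = 2 * c := by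
      rcases hε with h | h <;> rcases hδ with h' | h' <;> rw [h, h']
      · exact ⟨1, by norm_num⟩
      · exact ⟨0, by norm_num⟩
      · exact ⟨0, by norm_num⟩
      · exact ⟨-1, by norm_num⟩
    have hO := ih _ hs' d (z - 3 * k * ε) (y - 3 * k * δ) (s - 2 * k) rfl (by omega)
      (by rcases hso with ⟨l, hl⟩; exact ⟨l - k, by rw [hl]; ring⟩) hdo
      (by
        rcases hzy with ⟨l, hl⟩
        obtain ⟨c, hc⟩ := hpar
        exact ⟨l - 3 * k * c, by linear_combination hl - 3 * k * hc⟩)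
      (by
        have e : |z| + |y| - s = 2 * k := by linarith
        linear_combination hq + (-12 * k) * hεz + (-12 * k) * hδy + (-12 * k) * hk +
          (18 * k ^ 2) * hε2 + (18 * k ^ 2) * hδ2)
      (by
        intro p p1 p2 p3 p4
        have hk2 : p ∣ 2 * k := by
          have e : 2 * k = (s - 2 * k) - ε * (z - 3 * k * ε) - δ * (y - 3 * k * δ) := by
            linear_combination hk + hεz + hδy + (-3 * k) * hε2 + (-3 * k) * hδ2
          rw [e]
          exact dvd_sub (dvd_sub p4 (Dvd.dvd.mul_left p2 _)) (Dvd.dvd.mul_left p3 _)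
        have hk1 : p ∣ k := by
          rcases hso with ⟨l, hl⟩
          have e : k = k * (s - 2 * k) - (l - k) * (2 * k) := by rw [hl]; ring
          rw [e]
          exact dvd_sub (Dvd.dvd.mul_left p4 _) (Dvd.dvd.mul_left hk2 _)
        apply hp p p1 _ _ _
        · have e : z = (z - 3 * k * ε) + k * (3 * ε) := by ring
          rw [e]; exact dvd_add p2 (Dvd.dvd.mul_right hk1 _)
        · have e : y = (y - 3 * k * δ) + k * (3 * δ) := by ring
          rw [e]; exact dvd_add p3 (Dvd.dvd.mul_right hk1 _)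
        · have e : s = (s - 2 * k) + k * 2 := by ring
          rw [e]; exact dvd_add p4 (Dvd.dvd.mul_right hk1 _))
      (a - 3 * k) (b - 3 * k) (by linarith) (by linarith)
    have hst := Orb.step _ _ ![1, 1, ε, δ] (-k) hO
      (by simp [Fin.sum_univ_four]; linarith)
      (by
        simp [Fin.sum_univ_four]
        have hab : a + b = 3 * s := by linarith
        linear_combination -hab - hεz - hδy - hk + 3 * k * hε2 + 3 * k * hδ2)
    have e1 : (fun i => (![a - 3 * k - 1, b - 3 * k - 1, z - 3 * k * ε, y - 3 * k * δ] :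
        Fin 4 → ℤ) i - 3 * -k * (![1, 1, ε, δ] : Fin 4 → ℤ) i) = ![a - 1, b - 1, z, y] := by
      funext i; fin_cases i <;> simp
      all_goals ring
    have e2 : 2 * (s - 2 * k) - 1 - 4 * -k = 2 * s - 1 := by ring
    rw [e1, e2] at hst
    exact hst
  · -- base
    push Not at h1 h2 h3
    have hdd : d ^ 2 ≤ s ^ 2 := by nlinarith
    have hzz : (|z| + |y|) ^ 2 ≤ s ^ 2 := by nlinarith
    have hd2 : d ^ 2 = s ^ 2 := by nlinarith [mul_nonneg hz0 hy0]
    have hzy2 : |z| * |y| = 0 := by nlinarith [mul_nonneg hz0 hy0]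
    have hsum : z ^ 2 + y ^ 2 = s ^ 2 := by linarith
    have hdvd : s ∣ d := by
      rcases sq_eq_sq_iff_eq_or_eq_neg.mp hd2 with h | h
      · rw [h]
      · rw [h]; exact (dvd_neg.mpr dvd_rfl)
    have hcase : (z = 0 ∧ y ^ 2 = s ^ 2) ∨ (y = 0 ∧ z ^ 2 = s ^ 2) := by
      rcases mul_eq_zero.mp hzy2 with h | h
      · left
        have := abs_eq_zero.mp h
        refine ⟨this, ?_⟩
        rw [this] at hsum; linarith
      · right
        have := abs_eq_zero.mp h
        refine ⟨this, ?_⟩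
        rw [this] at hsum; linarith
    have hz_dvd : s ∣ z := by
      rcases hcase with ⟨h, _⟩ | ⟨_, h⟩
      · rw [h]; exact dvd_zero _
      · rcases sq_eq_sq_iff_eq_or_eq_neg.mp h with h | h
        · rw [h]
        · rw [h]; exact (dvd_neg.mpr dvd_rfl)
    have hy_dvd : s ∣ y := by
      rcases hcase with ⟨_, h⟩ | ⟨h, _⟩
      · rcases sq_eq_sq_iff_eq_or_eq_neg.mp h with h | h
        · rw [h]
        · rw [h]; exact (dvd_neg.mpr dvd_rfl)
      · rw [h]; exact dvd_zero _
    have hu := hp s hdvd hz_dvd hy_dvd dvd_rfl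
    have hs1 : s = 1 := by
      rcases Int.isUnit_iff.mp hu with h | h
      · exact h
      · omega
    subst hs1
    have hd1 : d = 1 ∨ d = -1 := by
      rcases sq_eq_sq_iff_eq_or_eq_neg.mp hd2 with h | h
      · left; exact h
      · right; exact h
    have e2 : 2 * (1 : ℤ) - 1 = 1 := by norm_num
    rw [e2]
    apply Orb.base
    simp only [Fin.sum_univ_four, Matrix.cons_val_zero, Matrix.cons_val_one, Matrix.cons_val]
    rcases hd1 with h | h
    · have ha' : a = 2 := by omega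
      have hb' : b = 1 := by omega
      rw [ha', hb']; linarith
    · have ha' : a = 1 := by omega
      have hb' : b = 2 := by omega
      rw [ha', hb']; linarith

theorem stmD : StmD := fun d z y s hs hso hdo hzy hq hp a b ha hb =>
  d_aux s.toNat d z y s rfl hs hso hdo hzy hq hp a b ha hb

end Pool.Agent.R376.AP
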