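import Mathlib

/-!
# MP_ab5bd9_nt: definitions

The Apollonian sphere packing of `ℝ³ ∪ {∞}` built from the 24-cell.
-/

set_option autoImplicit false

open scoped RealInnerProductSpace

namespace Pool.Agent.R376.AP

/-- Euclidean space `ℝ³`. -/
abbrev E3 := EuclideanSpace ℝ (Fin 3)
/-- Euclidean space `ℝ⁴`. -/
abbrev E4 := EuclideanSpace ℝ (Fin 4)
/-- `ℝ³ ∪ {∞}`. -/
abbrev Hat := OnePoint E3

/-- The north pole `N = (0, 0, 0, 1)`. -/
noncomputable def north : E4 := !₂[0, 0, 0, 1]

/-- Stereographic projection from the north pole of the unit sphere of `ℝ⁴` to `ℝ³ ∪ {∞}`. -/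
noncomputable def stereo (x : E4) : Hat :=
  open Classical in
  if x = north then OnePoint.infty
  else ((!₂[x 0 / (1 - x 3), x 1 / (1 - x 3), x 2 / (1 - x 3)] : E3) : Hat)

/-- The dilation of `ℝ³ ∪ {∞}` by the factor `c`. -/
noncomputable def dilate (c : ℝ) : Hat → Hat := OnePoint.map fun y : E3 => c • y

/-- The cap of the unit sphere visible from `v`. -/
def cap (v : E4) : Set E4 := {x | ‖x‖ = 1 ∧ 1 ≤ ⟪x, v⟫}

/-- The image in `ℝ³ ∪ {∞}` of the cap of `v` under the stereographic projection and the dilation by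
`1 / √3`. -/
noncomputable def member (v : E4) : Set Hat := dilate (1 / √3) '' (stereo '' cap v)

/-- An integer vector as a vector of `ℝ⁴`. -/
noncomputable def ofInt (u : Fin 4 → ℤ) : E4 := WithLp.toLp 2 fun i => (u i : ℝ)

/-- `V` is the vertex set of a regular 24-cell with all edges tangent to the unit sphere of `ℝ⁴`: the
image under a linear isometry of the 24 vectors `√(2/3) u`, where `u` is a permutation of
`(±1, ±1, 0, 0)`, i.e. an integer vector with `∑ u_i² = 2`. -/
def IsEdgeScribed24Cell (V : Set E4) : Prop :=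
  ∃ U : E4 ≃ₗᵢ[ℝ] E4, V = {x | ∃ u : Fin 4 → ℤ, ∑ i, u i ^ 2 = 2 ∧ x = U (√(2 / 3) • ofInt u)}

/-- `V` has an edge (two vertices at the distance `2/√3`, the edge length) whose midpoint lies on the
ray from the origin through the north pole. -/
def HasEdgeTowardsNorth (V : Set E4) : Prop :=
  ∃ a ∈ V, ∃ b ∈ V, dist a b = 2 / √3 ∧ ∃ c : ℝ, 0 < c ∧ midpoint ℝ a b = c • north

/-- `f` is the pole of a facet of the convex hull of `V`, i.e. a vertex of the polar polytope: the
hyperplane `⟪x, f⟫ = 1` supports `V` and its points in `V` span `ℝ⁴` (so that they lie in no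
lower-dimensional affine subspace of the hyperplane). -/
def IsFacetPole (V : Set E4) (f : E4) : Prop :=
  (∀ v ∈ V, ⟪v, f⟫ ≤ 1) ∧ Submodule.span ℝ {v | v ∈ V ∧ ⟪v, f⟫ = 1} = ⊤

/-- The closed ball with centre `c` and radius `r`, as a subset of `ℝ³ ∪ {∞}`. -/
def ballSet (c : E3) (r : ℝ) : Set Hat := {p | ∃ x : E3, p = x ∧ dist x c ≤ r}

/-- The closed half-space `⟪n, x⟫ ≥ h` with the point `∞`. -/
def halfSet (n : E3) (h : ℝ) : Set Hat := {p | p = OnePoint.infty ∨ ∃ x : E3, p = x ∧ h ≤ ⟪n, x⟫}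

/-- The closure of the complement of the ball with centre `c` and radius `r`, with the point `∞`. -/
def coballSet (c : E3) (r : ℝ) : Set Hat := {p | p = OnePoint.infty ∨ ∃ x : E3, p = x ∧ r ≤ dist x c}

/-- `B` is a ball, a half-space or the closure of the complement of a ball, with curvature `k`. -/
def HasCurvature (B : Set Hat) (k : ℝ) : Prop :=
  (∃ (c : E3) (r : ℝ), 0 < r ∧ B = ballSet c r ∧ k = 1 / r) ∨
  (∃ (n : E3) (h : ℝ), ‖n‖ = 1 ∧ B = halfSet n h ∧ k = 0) ∨
  (∃ (c : E3) (r : ℝ), 0 < r ∧ B = coballSet c r ∧ k = -(1 / r))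

/-- The inversion of `ℝ³ ∪ {∞}` in the sphere with centre `c` and radius `r`. -/
noncomputable def invBall (c : E3) (r : ℝ) : Hat → Hat
  | none => (c : Hat)
  | some x => open Classical in
      if x = c then OnePoint.infty else ((c + (r / dist x c) ^ 2 • (x - c) : E3) : Hat)

/-- The reflection of `ℝ³ ∪ {∞}` in the plane `⟪n, x⟫ = h` (with `‖n‖ = 1`). -/
noncomputable def reflPlane (n : E3) (h : ℝ) : Hat → Hat :=
  OnePoint.map fun x : E3 => x - (2 * (⟪n, x⟫ - h)) • n

/-- `φ` is the inversion in the (boundary sphere or plane of the) ball `B`. -/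
def IsInversionIn (B : Set Hat) (φ : Hat → Hat) : Prop :=
  (∃ (c : E3) (r : ℝ), 0 < r ∧ (B = ballSet c r ∨ B = coballSet c r) ∧ φ = invBall c r) ∨
  (∃ (n : E3) (h : ℝ), ‖n‖ = 1 ∧ B = halfSet n h ∧ φ = reflPlane n h)

/-- The Apollonian group: generated by the inversions in the members of the dual packing. -/
def apollonianGroup (V : Set E4) : Subgroup (Equiv.Perm Hat) :=
  Subgroup.closure {g | ∃ f : E4, IsFacetPole V f ∧ IsInversionIn (member f) g}

/-- The Apollonian packing: all images of the members of `𝓑` under the Apollonian group. -/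
def packing (V : Set E4) : Set (Set Hat) :=
  {B | ∃ g ∈ apollonianGroup V, ∃ v ∈ V, B = g '' member v}

/-! ### Auxiliary definitions for the proof -/

/-- The generalised ball `a |x|² - 2 ⟪b, x⟫ + c ≤ 0`. -/
def GB (a : ℝ) (b : E3) (c : ℝ) : Set Hat :=
  {p | (p = OnePoint.infty ∧ a ≤ 0) ∨ ∃ x : E3, p = x ∧ a * ‖x‖ ^ 2 - 2 * ⟪b, x⟫ + c ≤ 0}

/-- First three coordinates. -/
noncomputable def pr (W : E4) : E3 := !₂[W 0, W 1, W 2]

/-- The generalised ball of the cap `{x : τ ≤ ⟪x, W⟫}` (after stereographic projection, dilation). -/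
noncomputable def GW (W : E4) (τ : ℝ) : Set Hat := GB (√3 * (τ - W 3)) (pr W) ((τ + W 3) / √3)

/-- The orbit in integer coordinates: the Lorentz vector of `(X, t)` is `(√2 X, √3 t)`. -/
inductive Orb : (Fin 4 → ℤ) → ℤ → Prop
  | base (u : Fin 4 → ℤ) (hu : ∑ i, u i ^ 2 = 2) : Orb u 1
  | step (X : Fin 4 → ℤ) (t : ℤ) (w : Fin 4 → ℤ) (k : ℤ) (h : Orb X t) (hw : ∑ i, w i ^ 2 = 4)
      (hk : 2 * k = ∑ i, X i * w i - 2 * t) :
      Orb (fun i => X i - 3 * k * w i) (t - 4 * k)

/-- The Eisenstein integers `ℤ[ω]`, `ω² = -1 - ω`; the norm is `x² - xy + y²`. -/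
abbrev R := QuadraticAlgebra ℤ (-1) (-1)

end Pool.Agent.R376.AP
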