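import Pool.Agent.R376.AP.Pole

/-!
# MP_ab5bd9_nt: normal form of the position (piece EDGE)
-/

set_option autoImplicit false

open scoped RealInnerProductSpace

namespace Pool.Agent.R376.AP

namespace Edge

open Pole

/-- the roots -/
def L : List (Fin 4 → ℤ) :=
  [![1, 1, 0, 0], ![1, -1, 0, 0], ![-1, 1, 0, 0], ![-1, -1, 0, 0],
   ![1, 0, 1, 0], ![1, 0, -1, 0], ![-1, 0, 1, 0], ![-1, 0, -1, 0],
   ![1, 0, 0, 1], ![1, 0, 0, -1], ![-1, 0, 0, 1], ![-1, 0, 0, -1],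
   ![0, 1, 1, 0], ![0, 1, -1, 0], ![0, -1, 1, 0], ![0, -1, -1, 0],
   ![0, 1, 0, 1], ![0, 1, 0, -1], ![0, -1, 0, 1], ![0, -1, 0, -1],
   ![0, 0, 1, 1], ![0, 0, 1, -1], ![0, 0, -1, 1], ![0, 0, -1, -1]]

lemma mem_L0 (p q r s : ℤ) (h : p ^ 2 + q ^ 2 + r ^ 2 + s ^ 2 = 2) : ![p, q, r, s] ∈ L := by
  obtain ⟨p1, p2⟩ := bounds p 0 (by nlinarith)
  obtain ⟨q1, q2⟩ := bounds q 0 (by nlinarith)
  obtain ⟨r1, r2⟩ := bounds r 0 (by nlinarith)
  obtain ⟨s1, s2⟩ := bounds s 0 (by nlinarith)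
  interval_cases p <;> interval_cases q <;> interval_cases r <;> interval_cases s <;>
    first
    | (exfalso; revert h; norm_num; done)
    | decide

lemma mem_L (u : Fin 4 → ℤ) (h : ∑ i, u i ^ 2 = 2) : u ∈ L := by
  have e : u = ![u 0, u 1, u 2, u 3] := by
    ext i
    fin_cases i <;> rfl
  rw [Fin.sum_univ_four] at h
  rw [e]
  exact mem_L0 _ _ _ _ h

/-- the signed permutation matrix of a pair of roots -/
def Mx (u v : Fin 4 → ℤ) : Fin 4 → Fin 4 → ℤ :=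
  ![fun k => u k ^ 2 * v k, fun k => u k - u k ^ 2 * v k, fun k => v k - u k ^ 2 * v k,
    fun k => (1 - u k ^ 2) * (1 - v k ^ 2)]

lemma orth_L : ∀ u ∈ L, ∀ v ∈ L, (∑ i, u i * v i = 1) → ∀ k l : Fin 4,
    ∑ i, Mx u v k i * Mx u v l i = if k = l then 1 else 0 := by
  decide +kernel

lemma inner_int (u v : Fin 4 → ℤ) : ⟪ofInt u, ofInt v⟫ = ((∑ i, u i * v i : ℤ) : ℝ) := by
  rw [inner4, Fin.sum_univ_four]
  push_cast
  rfl

lemma iso_of (M : Fin 4 → Fin 4 → ℤ)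
    (hM : ∀ k l, ∑ i, M k i * M l i = if k = l then 1 else 0) :
    ∃ P : E4 ≃ₗᵢ[ℝ] E4, ∀ x : E4, P x = ∑ k, x k • ofInt (M k) := by
  have hon : Orthonormal ℝ (fun k => ofInt (M k)) := by
    rw [orthonormal_iff_ite]
    intro k l
    rw [inner_int, hM k l]
    split_ifs <;> norm_num
  obtain ⟨b, hb⟩ := Orthonormal.exists_orthonormalBasis_extension_of_card_eq (𝕜 := ℝ) (E := E4)
    (ι := Fin 4) (by simp) (v := fun k => ofInt (M k)) (s := Set.univ)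
    (hon.comp _ Subtype.val_injective)
  refine ⟨(EuclideanSpace.basisFun (Fin 4) ℝ).equiv b (Equiv.refl _), fun x => ?_⟩
  rw [OrthonormalBasis.equiv_apply_euclideanSpace]
  refine Finset.sum_congr rfl fun k _ => ?_
  rw [hb k (Set.mem_univ k)]

lemma P_int (M : Fin 4 → Fin 4 → ℤ) (P : E4 ≃ₗᵢ[ℝ] E4)
    (hP : ∀ x : E4, P x = ∑ k, x k • ofInt (M k)) (w : Fin 4 → ℤ) :
    P (ofInt w) = ofInt (fun i => ∑ k, w k * M k i) := by
  rw [hP]
  have key : ∀ i, (∑ k, (ofInt w) k • ofInt (M k)) i = ((∑ k, w k * M k i : ℤ) : ℝ) := by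
    intro i
    rw [Fin.sum_univ_four, Fin.sum_univ_four]
    push_cast
    rfl
  exact ext4 _ _ (key 0) (key 1) (key 2) (key 3)

lemma P_surj (M : Fin 4 → Fin 4 → ℤ) (P : E4 ≃ₗᵢ[ℝ] E4)
    (hP : ∀ x : E4, P x = ∑ k, x k • ofInt (M k)) (y : Fin 4 → ℤ) :
    ∃ w : Fin 4 → ℤ, P (ofInt w) = ofInt y := by
  refine ⟨fun k => ∑ i, M k i * y i, ?_⟩
  have key : ∀ k, (P.symm (ofInt y)) k = ((∑ i, M k i * y i : ℤ) : ℝ) := by
    intro k
    have h1 : P (EuclideanSpace.single k (1 : ℝ)) = ofInt (M k) := by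
      rw [hP, Finset.sum_eq_single k]
      · simp
      · intro j _ hj
        simp [hj]
      · simp
    have h2 : ⟪EuclideanSpace.single k (1 : ℝ), P.symm (ofInt y)⟫ = (P.symm (ofInt y)) k := by
      rw [EuclideanSpace.inner_single_left]
      simp
    rw [← h2, ← P.inner_map_map, h1, P.apply_symm_apply, inner_int]
  have h3 : P.symm (ofInt y) = ofInt (fun k => ∑ i, M k i * y i) :=
    ext4 _ _ (key 0) (key 1) (key 2) (key 3)
  rw [← h3, P.apply_symm_apply]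

lemma norm_int (u : Fin 4 → ℤ) : ‖ofInt u‖ ^ 2 = ((∑ i, u i ^ 2 : ℤ) : ℝ) := by
  rw [← real_inner_self_eq_norm_sq, inner_int]
  congr 1
  refine Finset.sum_congr rfl fun i _ => ?_
  ring

lemma norm_P {P : E4 ≃ₗᵢ[ℝ] E4} {w y : Fin 4 → ℤ} (h : P (ofInt w) = ofInt y) :
    ∑ i, w i ^ 2 = ∑ i, y i ^ 2 := by
  have h1 : ‖ofInt w‖ ^ 2 = ‖ofInt y‖ ^ 2 := by rw [← h, P.norm_map]
  rw [norm_int, norm_int] at h1
  exact_mod_cast h1

lemma norm_north : ‖north‖ = 1 := by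
  have : ‖north‖ ^ 2 = 1 := by
    rw [← real_inner_self_eq_norm_sq, inner4, north]
    simp
  have h0 := norm_nonneg north
  nlinarith

end Edge

open Pole Edge

theorem stmEdge : StmEdge := by
  rintro V ⟨U₀, rfl⟩ ⟨a, ⟨u, hu, rfl⟩, b, ⟨v, hv, rfl⟩, hd, c, hc, hm⟩
  set t : ℝ := √(2 / 3) with ht
  have ht0 : 0 < t := sqrt_pos'
  have ht2 : t ^ 2 = 2 / 3 := Real.sq_sqrt (by norm_num)
  have huv : ∑ i, u i * v i = 1 := by
    rw [dist_eq_norm, ← map_sub, U₀.norm_map, ← smul_sub, norm_smul, Real.norm_eq_abs,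
      abs_of_pos ht0] at hd
    have h1 : (t * ‖ofInt u - ofInt v‖) ^ 2 = 4 / 3 := by
      rw [hd, div_pow, Real.sq_sqrt (by norm_num)]
      norm_num
    rw [mul_pow, ht2, norm_sub_sq_real, norm_int, norm_int, inner_int, hu, hv] at h1
    have h2 : ((∑ i, u i * v i : ℤ) : ℝ) = 1 := by
      push_cast at h1 ⊢
      linarith
    exact_mod_cast h2
  obtain ⟨P, hP⟩ := iso_of (Mx u v) (orth_L u (mem_L u hu) v (mem_L v hv) huv)
  have h2110 : P (ofInt ![2, 1, 1, 0]) = ofInt u + ofInt v := by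
    rw [P_int _ P hP]
    have key : ∀ i, ((∑ k, (![2, 1, 1, 0] : Fin 4 → ℤ) k * Mx u v k i : ℤ) : ℝ) =
        (ofInt u + ofInt v) i := by
      intro i
      have h1 : (∑ k, (![2, 1, 1, 0] : Fin 4 → ℤ) k * Mx u v k i : ℤ) = u i + v i := by
        rw [Fin.sum_univ_four]
        show 2 * (u i ^ 2 * v i) + 1 * (u i - u i ^ 2 * v i) + 1 * (v i - u i ^ 2 * v i) +
          0 * ((1 - u i ^ 2) * (1 - v i ^ 2)) = u i + v i
        ring
      rw [h1]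
      push_cast
      rfl
    exact ext4 _ _ (key 0) (key 1) (key 2) (key 3)
  refine ⟨P.trans U₀, ?_, ?_⟩
  · ext x
    constructor
    · rintro ⟨y, hy, rfl⟩
      obtain ⟨w, hw⟩ := P_surj _ P hP y
      refine ⟨w, (norm_P hw).trans hy, ?_⟩
      rw [LinearIsometryEquiv.trans_apply, map_smul P, hw]
    · rintro ⟨w, hw, rfl⟩
      have h1 := P_int _ P hP w
      refine ⟨_, (norm_P h1).symm.trans hw, ?_⟩
      rw [LinearIsometryEquiv.trans_apply, map_smul P, h1]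
  · set X := (P.trans U₀) (ofInt ![2, 1, 1, 0]) with hX
    have hX1 : X = U₀ (ofInt u + ofInt v) := by
      rw [hX, LinearIsometryEquiv.trans_apply, h2110]
    have hmid : midpoint ℝ (U₀ (t • ofInt u)) (U₀ (t • ofInt v)) = (t / 2) • X := by
      rw [midpoint_eq_smul_add, hX1, ← map_add, ← smul_add, ← map_smul, ← map_smul, smul_smul]
      congr 2
      rw [invOf_eq_inv]
      ring
    rw [hmid] at hm
    have hXn : ‖X‖ = √6 := by
      rw [hX, LinearIsometryEquiv.norm_map]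
      have h1 := norm_int ![2, 1, 1, 0]
      rw [vec4] at h1
      have h2 : ‖ofInt ![2, 1, 1, 0]‖ ^ 2 = 6 := by rw [h1]; norm_num
      rw [← h2, Real.sqrt_sq (norm_nonneg _)]
    have hX2 : X = (2 * c / t) • north := by
      have h1 : (2 / t) • ((t / 2) • X) = (2 / t) • (c • north) := by rw [hm]
      rw [smul_smul, smul_smul] at h1
      have e1 : 2 / t * (t / 2) = 1 := by field_simp
      have e2 : 2 / t * c = 2 * c / t := by ring
      rw [e1, one_smul, e2] at h1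
      exact h1
    have h3 : 2 * c / t = √6 := by
      rw [← hXn, hX2, norm_smul, norm_north, mul_one, Real.norm_eq_abs,
        abs_of_pos (by positivity)]
    rw [hX2, h3]

theorem stmEx : StmEx := by
  set t : ℝ := √(2 / 3) with ht
  have ht0 : 0 < t := sqrt_pos'
  have h6 : (0 : ℝ) < √6 := Real.sqrt_pos.2 (by norm_num)
  have hn1 : ‖ofInt ![2, 1, 1, 0]‖ = ‖√6 • north‖ := by
    rw [norm_smul, norm_north, mul_one, Real.norm_eq_abs, abs_of_pos h6]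
    have h1 := norm_int ![2, 1, 1, 0]
    rw [vec4] at h1
    have h2 : ‖ofInt ![2, 1, 1, 0]‖ ^ 2 = 6 := by rw [h1]; norm_num
    rw [← h2, Real.sqrt_sq (norm_nonneg _)]
  obtain ⟨U, hU⟩ : ∃ U : E4 ≃ₗᵢ[ℝ] E4, U (ofInt ![2, 1, 1, 0]) = √6 • north :=
    ⟨_, Submodule.reflection_sub hn1⟩
  refine ⟨{x | ∃ u : Fin 4 → ℤ, ∑ i, u i ^ 2 = 2 ∧ x = U (t • ofInt u)}, ⟨U, rfl⟩,
    U (t • ofInt ![1, 1, 0, 0]), ⟨_, by rw [vec4]; norm_num, rfl⟩,
    U (t • ofInt ![1, 0, 1, 0]), ⟨_, by rw [vec4]; norm_num, rfl⟩, ?_, t / 2 * √6,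
    by positivity, ?_⟩
  · rw [dist_eq_norm, ← map_sub, U.norm_map, ← smul_sub, norm_smul, Real.norm_eq_abs,
      abs_of_pos ht0]
    have h1 : ‖ofInt ![1, 1, 0, 0] - ofInt ![1, 0, 1, 0]‖ ^ 2 = 2 := by
      have h3 : ∑ i, (![1, 1, 0, 0] : Fin 4 → ℤ) i * (![1, 0, 1, 0] : Fin 4 → ℤ) i = 1 := by
        decide
      rw [norm_sub_sq_real, norm_int, norm_int, inner_int, vec4, vec4, h3]
      norm_num
    have h2 : ‖ofInt ![1, 1, 0, 0] - ofInt ![1, 0, 1, 0]‖ = √2 := by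
      rw [← h1, Real.sqrt_sq (norm_nonneg _)]
    rw [h2, ht, Real.sqrt_div (by norm_num), div_mul_eq_mul_div, Real.mul_self_sqrt (by norm_num)]
  · have h1 : ofInt ![1, 1, 0, 0] + ofInt ![1, 0, 1, 0] = ofInt ![2, 1, 1, 0] := by
      refine ext4 _ _ ?_ ?_ ?_ ?_
      · show ((1 : ℤ) : ℝ) + ((1 : ℤ) : ℝ) = ((2 : ℤ) : ℝ)
        norm_num
      · show ((1 : ℤ) : ℝ) + ((0 : ℤ) : ℝ) = ((1 : ℤ) : ℝ)
        norm_num
      · show ((0 : ℤ) : ℝ) + ((1 : ℤ) : ℝ) = ((1 : ℤ) : ℝ)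
        norm_num
      · show ((0 : ℤ) : ℝ) + ((0 : ℤ) : ℝ) = ((0 : ℤ) : ℝ)
        norm_num
    have h2 : midpoint ℝ (U (t • ofInt ![1, 1, 0, 0])) (U (t • ofInt ![1, 0, 1, 0])) =
        (t / 2) • U (ofInt ![2, 1, 1, 0]) := by
      rw [midpoint_eq_smul_add, ← map_add, ← smul_add, ← map_smul, ← map_smul, smul_smul, h1]
      congr 2
      rw [invOf_eq_inv]
      ring
    rw [h2, hU, smul_smul]

end Pool.Agent.R376.AP
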