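import Pool.Agent.R376.AP.Stm

/-!
# MP_ab5bd9_nt: assembly
-/

set_option autoImplicit false

open scoped RealInnerProductSpace

namespace Pool.Agent.R376.AP

namespace FF

theorem inner_ofInt (u v : Fin 4 → ℤ) : ⟪ofInt u, ofInt v⟫ = ((∑ i, u i * v i : ℤ) : ℝ) := by
  simp only [ofInt, PiLp.inner_apply, RCLike.inner_apply, conj_trivial]
  push_cast
  exact Finset.sum_congr rfl fun i _ => mul_comm _ _

theorem norm_sq_ofInt (u : Fin 4 → ℤ) : ‖ofInt u‖ ^ 2 = ((∑ i, u i ^ 2 : ℤ) : ℝ) := by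
  rw [← real_inner_self_eq_norm_sq, inner_ofInt]
  congr 1
  exact Finset.sum_congr rfl fun i _ => (sq (u i)).symm

theorem inner_E3 (x y : E3) : ⟪x, y⟫ = x 0 * y 0 + x 1 * y 1 + x 2 * y 2 := by
  simp only [PiLp.inner_apply, RCLike.inner_apply, conj_trivial, Fin.sum_univ_three]
  ring

theorem inner_E4 (x y : E4) : ⟪x, y⟫ = x 0 * y 0 + x 1 * y 1 + x 2 * y 2 + x 3 * y 3 := by
  simp only [PiLp.inner_apply, RCLike.inner_apply, conj_trivial, Fin.sum_univ_four]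
  ring

theorem inner_pr (W W' : E4) : ⟪pr W, pr W'⟫ = ⟪W, W'⟫ - W 3 * W' 3 := by
  rw [inner_E3, inner_E4]
  simp [pr]

theorem s3 : (√3 : ℝ) ≠ 0 := by positivity

/-- the normalisation of `GW` -/
theorem norm_GW (W : E4) (τ : ℝ) (h : ‖W‖ ^ 2 - τ ^ 2 = 1) :
    ‖pr W‖ ^ 2 - (√3 * (τ - W 3)) * ((τ + W 3) / √3) = 1 := by
  rw [← real_inner_self_eq_norm_sq, inner_pr, real_inner_self_eq_norm_sq]
  have h3 := s3
  field_simp
  linear_combination h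

/-- inversions of `GW` -/
theorem inv_GW (hInv : StmInv) (W W' : E4) (τ τ' : ℝ) (h : ‖W‖ ^ 2 - τ ^ 2 = 1)
    (h' : ‖W'‖ ^ 2 - τ' ^ 2 = 1) (φ : Hat → Hat) (hφ : IsInversionIn (GW W τ) φ) (q : ℝ)
    (hq : q = 2 * (⟪W, W'⟫ - τ * τ')) :
    φ '' GW W' τ' = GW (W' - q • W) (τ' - q * τ) := by
  have h3 := s3
  have key := ((hInv _ _ _ (norm_GW W τ h)).2 φ hφ).2 _ _ _ (norm_GW W' τ' h') q (by
    rw [inner_pr, hq]
    field_simp
    ring)
  unfold GW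
  rw [key]
  congr 1
  · simp only [PiLp.sub_apply, PiLp.smul_apply, smul_eq_mul]; ring
  · ext i
    fin_cases i <;> simp [pr]
  · simp only [PiLp.sub_apply, PiLp.smul_apply, smul_eq_mul]
    field_simp
    ring

/-- the generalised ball of `(X, t)` -/
noncomputable def G (U : E4 ≃ₗᵢ[ℝ] E4) (X : Fin 4 → ℤ) (t : ℤ) : Set Hat :=
  GW (√2 • U (ofInt X)) (√3 * t)

theorem norm_W (U : E4 ≃ₗᵢ[ℝ] E4) (X : Fin 4 → ℤ) (t : ℤ)
    (h : 2 * ∑ i, X i ^ 2 = 3 * t ^ 2 + 1) :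
    ‖√2 • U (ofInt X)‖ ^ 2 - (√3 * (t : ℝ)) ^ 2 = 1 := by
  rw [norm_smul, mul_pow, LinearIsometryEquiv.norm_map, norm_sq_ofInt, mul_pow, Real.norm_eq_abs,
    sq_abs, Real.sq_sqrt (by norm_num), Real.sq_sqrt (by norm_num)]
  have h1 : ((2 * ∑ i, X i ^ 2 : ℤ) : ℝ) = ((3 * t ^ 2 + 1 : ℤ) : ℝ) := by rw [h]
  push_cast at h1 ⊢
  linarith

theorem member_eq (hCap : StmCap) (v : E4) (k : ℝ) (hk : 0 < k) (h : ‖k • v‖ ^ 2 - k ^ 2 = 1) :
    member v = GW (k • v) k := by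
  rw [← hCap _ _ h]
  unfold member cap
  congr 2
  ext x
  simp only [Set.mem_ofPred_eq, inner_smul_right]
  constructor
  · rintro ⟨h1, h2⟩
    exact ⟨h1, by nlinarith⟩
  · rintro ⟨h1, h2⟩
    refine ⟨h1, ?_⟩
    by_contra h3
    push Not at h3
    nlinarith

theorem sqrt_aux1 : √3 * √(2 / 3) = √2 := by
  rw [← Real.sqrt_mul (by norm_num)]; congr 1; norm_num

theorem sqrt_aux2 : √2 * (√(3 / 2) / 2) = √3 / 2 := by
  rw [← mul_div_assoc, ← Real.sqrt_mul (by norm_num)]; congr 2; norm_num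

theorem member_vertex (hCap : StmCap) (U : E4 ≃ₗᵢ[ℝ] E4) (u : Fin 4 → ℤ)
    (hu : ∑ i, u i ^ 2 = 2) : member (U (√(2 / 3) • ofInt u)) = G U u 1 := by
  have e1 : √3 • U (√(2 / 3) • ofInt u) = √2 • U (ofInt u) := by
    rw [LinearIsometryEquiv.map_smul, smul_smul, sqrt_aux1]
  have e2 : √3 * ((1 : ℤ) : ℝ) = √3 := by simp
  unfold G
  rw [e2, ← e1]
  refine member_eq hCap _ _ (by positivity) ?_
  have := norm_W U u 1 (by rw [hu]; norm_num)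
  rw [e2] at this
  rw [e1, this]

/-- the Lorentz vector of a dual ball -/
noncomputable def Wd (U : E4 ≃ₗᵢ[ℝ] E4) (w : Fin 4 → ℤ) : E4 := (√3 / 2) • U (ofInt w)

theorem norm_Wd (U : E4 ≃ₗᵢ[ℝ] E4) (w : Fin 4 → ℤ) (hw : ∑ i, w i ^ 2 = 4) :
    ‖Wd U w‖ ^ 2 - √2 ^ 2 = 1 := by
  unfold Wd
  rw [norm_smul, mul_pow, LinearIsometryEquiv.norm_map, norm_sq_ofInt, hw, Real.norm_eq_abs,
    sq_abs, div_pow, Real.sq_sqrt (by norm_num), Real.sq_sqrt (by norm_num)]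
  norm_num

theorem member_pole (hCap : StmCap) (U : E4 ≃ₗᵢ[ℝ] E4) (w : Fin 4 → ℤ)
    (hw : ∑ i, w i ^ 2 = 4) : member (U ((√(3 / 2) / 2) • ofInt w)) = GW (Wd U w) √2 := by
  have e1 : √2 • U ((√(3 / 2) / 2) • ofInt w) = Wd U w := by
    rw [LinearIsometryEquiv.map_smul, smul_smul, sqrt_aux2]; rfl
  rw [← e1]
  refine member_eq hCap _ _ (by positivity) ?_
  rw [e1]; exact norm_Wd U w hw

theorem ofInt_sub (X w : Fin 4 → ℤ) (k : ℤ) :
    ofInt (fun i => X i - 3 * k * w i) = ofInt X - (3 * (k : ℝ)) • ofInt w := by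
  ext i
  simp [ofInt]

theorem step_eq (hInv : StmInv) (U : E4 ≃ₗᵢ[ℝ] E4) (X : Fin 4 → ℤ) (t : ℤ) (w : Fin 4 → ℤ) (k : ℤ)
    (hX : 2 * ∑ i, X i ^ 2 = 3 * t ^ 2 + 1) (hw : ∑ i, w i ^ 2 = 4)
    (hk : 2 * k = ∑ i, X i * w i - 2 * t) (φ : Hat → Hat)
    (hφ : IsInversionIn (GW (Wd U w) √2) φ) :
    φ '' G U X t = G U (fun i => X i - 3 * k * w i) (t - 4 * k) := by
  have h6 : √2 * √3 = √6 := by rw [← Real.sqrt_mul (by norm_num)]; norm_num
  have hinner : ⟪Wd U w, √2 • U (ofInt X)⟫ = √6 / 2 * ((∑ i, X i * w i : ℤ) : ℝ) := by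
    unfold Wd
    rw [inner_smul_left, inner_smul_right, LinearIsometryEquiv.inner_map_map, inner_ofInt]
    have : (∑ i, w i * X i) = ∑ i, X i * w i := Finset.sum_congr rfl fun i _ => mul_comm _ _
    rw [this, conj_trivial, ← h6]
    ring
  have hkk : ((∑ i, X i * w i : ℤ) : ℝ) = 2 * k + 2 * t := by
    have : (∑ i, X i * w i : ℤ) = 2 * k + 2 * t := by linarith
    rw [this]; push_cast; ring
  have key := inv_GW hInv (Wd U w) (√2 • U (ofInt X)) √2 (√3 * t) (norm_Wd U w hw)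
    (norm_W U X t hX) φ hφ (2 * √6 * k) (by
      rw [hinner, hkk]
      have : √2 * (√3 * (t : ℝ)) = √6 * t := by rw [← mul_assoc, h6]
      rw [this]; ring)
  unfold G
  rw [key]
  congr 1
  · rw [ofInt_sub, map_sub, LinearIsometryEquiv.map_smul]
    unfold Wd
    rw [smul_sub, smul_smul, smul_smul]
    congr 2
    rw [← h6]
    have h33 : √3 * √3 = 3 := Real.mul_self_sqrt (by norm_num)
    linear_combination (√2 * k) * h33
  · push_cast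
    rw [← h6]
    have h22 : √2 * √2 = 2 := Real.mul_self_sqrt (by norm_num)
    linear_combination (-2 * √3 * k) * h22

theorem even_inner (X w : Fin 4 → ℤ) (hX : ∃ k, ∑ i, X i = 2 * k) (hw : ∑ i, w i ^ 2 = 4) :
    ∃ l : ℤ, ∑ i, X i * w i = 2 * l := by
  obtain ⟨k, hk⟩ := hX
  rw [Fin.sum_univ_four] at hk hw ⊢
  have hpar : ∀ x : ℤ, ∃ a e, x = 2 * a + e ∧ (e = 0 ∨ e = 1) ∧ x ^ 2 = 4 * (a ^ 2 + a * e) + e := by
    intro x
    rcases Int.even_or_odd' x with ⟨a, h | h⟩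
    · exact ⟨a, 0, by rw [h]; ring, Or.inl rfl, by rw [h]; ring⟩
    · exact ⟨a, 1, h, Or.inr rfl, by rw [h]; ring⟩
  obtain ⟨a0, e0, h0, he0, hs0⟩ := hpar (w 0)
  obtain ⟨a1, e1, h1, he1, hs1⟩ := hpar (w 1)
  obtain ⟨a2, e2, h2, he2, hs2⟩ := hpar (w 2)
  obtain ⟨a3, e3, h3, he3, hs3⟩ := hpar (w 3)
  rw [hs0, hs1, hs2, hs3] at hw
  have he : (e0 = 0 ∧ e1 = 0 ∧ e2 = 0 ∧ e3 = 0) ∨ (e0 = 1 ∧ e1 = 1 ∧ e2 = 1 ∧ e3 = 1) := by
    omega
  rcases he with ⟨h4, h5, h6, h7⟩ | ⟨h4, h5, h6, h7⟩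
  · refine ⟨X 0 * a0 + X 1 * a1 + X 2 * a2 + X 3 * a3, ?_⟩
    rw [h0, h1, h2, h3, h4, h5, h6, h7]; ring
  · refine ⟨X 0 * a0 + X 1 * a1 + X 2 * a2 + X 3 * a3 + k, ?_⟩
    rw [h0, h1, h2, h3, h4, h5, h6, h7]; linear_combination hk

/-- the vertex set in normal form -/
def VV (U : E4 ≃ₗᵢ[ℝ] E4) : Set E4 :=
  {x | ∃ u : Fin 4 → ℤ, ∑ i, u i ^ 2 = 2 ∧ x = U (√(2 / 3) • ofInt u)}

/-- `g` maps the orbit to itself. -/
def Good (U : E4 ≃ₗᵢ[ℝ] E4) (g : Equiv.Perm Hat) : Prop :=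
  ∀ X t, Orb X t → ∃ X' t', Orb X' t' ∧ g '' G U X t = G U X' t'

theorem good_gen (hP : StmP) (hCap : StmCap) (hInv : StmInv) (hPole : StmPole)
    (U : E4 ≃ₗᵢ[ℝ] E4) (g : Equiv.Perm Hat)
    (hg : ∃ f : E4, IsFacetPole (VV U) f ∧ IsInversionIn (member f) g) :
    Good U g ∧ g⁻¹ = g := by
  obtain ⟨f, hf, hg⟩ := hg
  obtain ⟨w, hw, rfl⟩ := (hPole U f).1 hf
  rw [member_pole hCap U w hw] at hg
  refine ⟨?_, ?_⟩
  · intro X t hX
    obtain ⟨h1, h2, -, -⟩ := hP X t hX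
    obtain ⟨l, hl⟩ := even_inner X w h2 hw
    have hk : 2 * (l - t) = ∑ i, X i * w i - 2 * t := by rw [hl]; ring
    exact ⟨_, _, Orb.step X t w (l - t) hX hw hk, step_eq hInv U X t w (l - t) h1 hw hk g hg⟩
  · have h := ((hInv _ _ _ (norm_GW _ _ (norm_Wd U w hw))).2 g hg).1
    rw [inv_eq_iff_mul_eq_one]
    ext x : 1
    exact congrFun h x

theorem packing_eq (hP : StmP) (hCap : StmCap) (hInv : StmInv) (hPole : StmPole)
    (U : E4 ≃ₗᵢ[ℝ] E4) : packing (VV U) = {B | ∃ X t, Orb X t ∧ B = G U X t} := by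
  ext B
  constructor
  · rintro ⟨g, hg, v, ⟨u, hu, rfl⟩, rfl⟩
    rw [member_vertex hCap U u hu]
    have key : Good U g ∧ Good U g⁻¹ := by
      unfold apollonianGroup at hg
      induction hg using Subgroup.closure_induction with
      | mem g hg =>
        obtain ⟨h1, h2⟩ := good_gen hP hCap hInv hPole U g hg
        exact ⟨h1, by rw [h2]; exact h1⟩
      | one => exact ⟨fun X t h => ⟨X, t, h, by simp⟩, fun X t h => ⟨X, t, h, by simp⟩⟩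
      | mul g h _ _ hg hh =>
        constructor
        · intro X t hX
          obtain ⟨X', t', h1, h2⟩ := hh.1 X t hX
          obtain ⟨X'', t'', h3, h4⟩ := hg.1 X' t' h1
          refine ⟨X'', t'', h3, ?_⟩
          rw [Equiv.Perm.coe_mul, Set.image_comp, h2, h4]
        · intro X t hX
          obtain ⟨X', t', h1, h2⟩ := hg.2 X t hX
          obtain ⟨X'', t'', h3, h4⟩ := hh.2 X' t' h1
          refine ⟨X'', t'', h3, ?_⟩
          rw [mul_inv_rev, Equiv.Perm.coe_mul, Set.image_comp, h2, h4]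
      | inv g _ hg => exact ⟨hg.2, by rw [inv_inv]; exact hg.1⟩
    obtain ⟨X', t', h1, h2⟩ := key.1 u 1 (Orb.base u hu)
    exact ⟨X', t', h1, h2⟩
  · rintro ⟨X, t, hX, rfl⟩
    induction hX with
    | base u hu =>
      exact ⟨1, one_mem _, _, ⟨u, hu, rfl⟩, by rw [member_vertex hCap U u hu]; simp⟩
    | step X t w k hX hw hk ih =>
      obtain ⟨g, hg, v, hv, hB⟩ := ih
      obtain ⟨h1, -, -, -⟩ := hP X t hX
      obtain ⟨φ, hφ⟩ := (hInv _ _ _ (norm_GW _ _ (norm_Wd U w hw))).1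
      refine ⟨φ * g, mul_mem (Subgroup.subset_closure ?_) hg, v, hv, ?_⟩
      · exact ⟨_, (hPole U _).2 ⟨w, hw, rfl⟩, by rw [member_pole hCap U w hw]; exact hφ⟩
      · rw [← step_eq hInv U X t w k h1 hw hk φ hφ, hB, Equiv.Perm.coe_mul, Set.image_comp]

theorem curv_G (hP : StmP) (hCurv : StmCurv) (U : E4 ≃ₗᵢ[ℝ] E4)
    (hU : U (ofInt ![2, 1, 1, 0]) = √6 • north) (X : Fin 4 → ℤ) (t : ℤ) (hX : Orb X t) (k : ℝ) :
    HasCurvature (G U X t) k ↔ k = ((3 * t - (2 * X 0 + X 1 + X 2) : ℤ) : ℝ) := by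
  obtain ⟨h1, -, -, -⟩ := hP X t hX
  unfold G GW
  rw [hCurv _ _ _ (norm_GW _ _ (norm_W U X t h1))]
  have e1 : (√2 • U (ofInt X)) 3 = √2 * ⟪U (ofInt X), north⟫ := by
    rw [inner_E4]
    simp [north]
  have e2 : √6 * ⟪U (ofInt X), north⟫ = ((2 * X 0 + X 1 + X 2 : ℤ) : ℝ) := by
    rw [← inner_smul_right, ← hU, LinearIsometryEquiv.inner_map_map, inner_ofInt]
    congr 1
    rw [Fin.sum_univ_four]
    simp
    ring
  have h6 : √3 * √2 = √6 := by rw [← Real.sqrt_mul (by norm_num)]; norm_num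
  have h33 : √3 * √3 = 3 := Real.mul_self_sqrt (by norm_num)
  have e3 : √3 * (√3 * (t : ℝ) - (√2 • U (ofInt X)) 3)
      = ((3 * t - (2 * X 0 + X 1 + X 2) : ℤ) : ℝ) := by
    rw [e1]
    push_cast
    push_cast at e2
    rw [← e2, ← h6]
    linear_combination (t : ℝ) * h33
  rw [e3]

end FF

open FF in
theorem fin (hP : StmP) (hS : StmS) (hCap : StmCap) (hCurv : StmCurv) (hInv : StmInv)
    (hPole : StmPole) (hEdge : StmEdge) (V : Set E4) (hV : IsEdgeScribed24Cell V)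
    (hE : HasEdgeTowardsNorth V) :
    (∀ B ∈ packing V, ∃! k : ℝ, HasCurvature B k) ∧
    {k : ℝ | ∃ B ∈ packing V, HasCurvature B k} = Set.range (fun n : ℕ => (n : ℝ)) := by
  obtain ⟨U, hVU, hU⟩ := hEdge V hV hE
  have hVU' : V = VV U := hVU
  have hp := packing_eq hP hCap hInv hPole U
  rw [hVU', hp]
  constructor
  · rintro B ⟨X, t, hX, rfl⟩
    exact ⟨_, (curv_G hP hCurv U hU X t hX _).2 rfl, fun k hk =>
      (curv_G hP hCurv U hU X t hX k).1 hk⟩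
  · ext k
    constructor
    · rintro ⟨B, ⟨X, t, hX, rfl⟩, hk⟩
      rw [curv_G hP hCurv U hU X t hX] at hk
      obtain ⟨n, hn⟩ := Int.eq_ofNat_of_zero_le (hP X t hX).2.2.2
      exact ⟨n, by rw [hk, hn]; simp⟩
    · rintro ⟨n, rfl⟩
      obtain ⟨X, t, hX, hn⟩ := hS n
      refine ⟨G U X t, ⟨X, t, hX, rfl⟩, ?_⟩
      rw [curv_G hP hCurv U hU X t hX, hn]
      simp

end Pool.Agent.R376.AP
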