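import Pool.Agent.R376.AP.Curv

/-!
# AP-INV: inversions of generalised balls
-/

set_option autoImplicit false

open scoped RealInnerProductSpace

namespace Pool.Agent.R376.AP

theorem inv_infty (c : E3) (r : ℝ) : invBall c r OnePoint.infty = (c : Hat) := rfl

theorem inv_centre (c : E3) (r : ℝ) : invBall c r (c : Hat) = OnePoint.infty := by
  change (open Classical in if c = c then OnePoint.infty else
    ((c + (r / dist c c) ^ 2 • (c - c) : E3) : Hat)) = OnePoint.infty
  rw [if_pos rfl]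

theorem inv_coe (c : E3) (r : ℝ) (x : E3) (hx : x ≠ c) :
    invBall c r (x : Hat) = ((c + (r / dist x c) ^ 2 • (x - c) : E3) : Hat) := by
  change (open Classical in if x = c then OnePoint.infty else
    ((c + (r / dist x c) ^ 2 • (x - c) : E3) : Hat)) = _
  rw [if_neg hx]

theorem inv_inv' (c : E3) (r : ℝ) (hr : 0 < r) (p : Hat) : invBall c r (invBall c r p) = p := by
  induction p using OnePoint.rec with
  | infty => rw [inv_infty, inv_centre]
  | coe x =>
    by_cases hx : x = c
    · rw [hx, inv_centre, inv_infty]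
    · have hd : 0 < dist x c := dist_pos.2 hx
      rw [inv_coe c r x hx]
      have hne : c + (r / dist x c) ^ 2 • (x - c) ≠ c := by
        intro h
        have h1 : (r / dist x c) ^ 2 • (x - c) = 0 := by simpa using h
        rcases smul_eq_zero.1 h1 with h2 | h2
        · have : 0 < (r / dist x c) ^ 2 := by positivity
          linarith
        · exact hx (sub_eq_zero.1 h2)
      rw [inv_coe c r _ hne]
      have hdist : dist (c + (r / dist x c) ^ 2 • (x - c)) c = r ^ 2 / dist x c := by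
        rw [dist_eq_norm, add_sub_cancel_left, norm_smul, ← dist_eq_norm, Real.norm_eq_abs,
          abs_of_nonneg (by positivity)]
        field_simp
      rw [hdist, add_sub_cancel_left, smul_smul]
      have h2 : (r / (r ^ 2 / dist x c)) ^ 2 * (r / dist x c) ^ 2 = 1 := by
        field_simp
      rw [h2, one_smul, add_sub_cancel]

theorem refl_infty (n : E3) (h : ℝ) : reflPlane n h OnePoint.infty = OnePoint.infty := rfl

theorem refl_coe (n : E3) (h : ℝ) (x : E3) :
    reflPlane n h (x : Hat) = ((x - (2 * (⟪n, x⟫ - h)) • n : E3) : Hat) := rfl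

theorem refl_refl (n : E3) (h : ℝ) (hn : ‖n‖ = 1) (p : Hat) :
    reflPlane n h (reflPlane n h p) = p := by
  induction p using OnePoint.rec with
  | infty => rw [refl_infty, refl_infty]
  | coe x =>
    rw [refl_coe, refl_coe, inner_sub_right, inner_smul_right, real_inner_self_eq_norm_sq, hn]
    congr 1
    rw [sub_sub, ← add_smul]
    have h1 : 2 * (⟪n, x⟫ - h) + 2 * (⟪n, x⟫ - 2 * (⟪n, x⟫ - h) * 1 ^ 2 - h) = 0 := by ring
    rw [h1, zero_smul, sub_zero]

theorem QQ_comb (a : ℝ) (b : E3) (c : ℝ) (a' : ℝ) (b' : E3) (c' : ℝ) (q : ℝ) (x : E3) :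
    QQ (a' - q * a) (b' - q • b) (c' - q * c) x = QQ a' b' c' x - q * QQ a b c x := by
  unfold QQ
  rw [inner_sub_left, inner_smul_left]
  simp only [conj_trivial]
  ring

/-- inversion in the sphere with centre `c₀` and radius `r` -/
theorem inv_mem (c₀ : E3) (r : ℝ) (hr : 0 < r) (a' : ℝ) (b' : E3) (c' : ℝ) (q : ℝ)
    (hq : q = 2 * ⟪(1 / r) • c₀, b'⟫ - (1 / r) * c' - a' * ((‖c₀‖ ^ 2 - r ^ 2) / r)) (p : Hat) :
    invBall c₀ r p ∈ GB a' b' c' ↔ p ∈ GB (a' - q * (1 / r)) (b' - q • ((1 / r) • c₀))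
      (c' - q * ((‖c₀‖ ^ 2 - r ^ 2) / r)) := by
  have hq' : q * r = a' * r ^ 2 - QQ a' b' c' c₀ := by
    rw [hq]
    unfold QQ
    rw [inner_smul_left, real_inner_comm]
    simp only [conj_trivial]
    field_simp
    ring
  induction p using OnePoint.rec with
  | infty =>
    rw [inv_infty, mem_GB_coe, mem_GB_infty]
    have h1 : a' - q * (1 / r) = QQ a' b' c' c₀ / r ^ 2 := by
      field_simp
      linear_combination -hq'
    rw [h1, div_nonpos_iff]
    constructor
    · intro h
      exact Or.inr ⟨h, by positivity⟩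
    · rintro (⟨-, h⟩ | ⟨h, -⟩)
      · have : 0 < r ^ 2 := by positivity
        linarith
      · exact h
  | coe x =>
    rw [mem_GB_coe, QQ_comb, QQ_centre r hr]
    by_cases hx : x = c₀
    · subst hx
      rw [inv_centre, mem_GB_infty, sub_self, norm_zero]
      have h1 : QQ a' b' c' x - q * ((0 ^ 2 - r ^ 2) / r) = a' * r ^ 2 := by
        have h2 : (0 ^ 2 - r ^ 2) / r = -r := by field_simp; ring
        rw [h2]
        linarith
      rw [h1]
      have h3 : 0 < r ^ 2 := by positivity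
      constructor
      · intro h; nlinarith
      · intro h
        by_contra h4
        push Not at h4
        have := mul_pos h4 h3
        linarith
    · have hd : 0 < dist x c₀ := dist_pos.2 hx
      rw [inv_coe c₀ r x hx, mem_GB_coe, QQ_add]
      obtain ⟨D, hD⟩ : ∃ D, D = dist x c₀ := ⟨_, rfl⟩
      have hD2 : ‖x - c₀‖ = D := by rw [hD, dist_eq_norm]
      rw [← hD] at hd ⊢
      rw [hD2]
      obtain ⟨κ, hκ⟩ : ∃ κ, κ = ⟪a' • c₀ - b', x - c₀⟫ := ⟨_, rfl⟩
      rw [← hκ]
      have h1 : QQ a' b' c' x = QQ a' b' c' c₀ + 2 * κ + a' * D ^ 2 := by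
        have h2 := QQ_add a' b' c' c₀ (x - c₀) 1
        rw [one_smul, add_sub_cancel, hD2, ← hκ] at h2
        rw [h2]
        ring
      have h3 : QQ a' b' c' x - q * ((D ^ 2 - r ^ 2) / r) =
          (QQ a' b' c' c₀ + 2 * (r / D) ^ 2 * κ + a' * ((r / D) ^ 2) ^ 2 * D ^ 2) *
            (D ^ 2 / r ^ 2) := by
        rw [h1]
        have h4 : q = (a' * r ^ 2 - QQ a' b' c' c₀) / r := by
          field_simp
          linarith
        rw [h4]
        field_simp
        ring
      rw [h3]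
      have h5 : 0 < D ^ 2 / r ^ 2 := by positivity
      constructor
      · intro h; nlinarith
      · intro h
        by_contra h6
        push Not at h6
        have := mul_pos h6 h5
        linarith

/-- reflection in a plane -/
theorem refl_mem (n : E3) (h : ℝ) (hn : ‖n‖ = 1) (a' : ℝ) (b' : E3) (c' : ℝ) (q : ℝ)
    (hq : q = 2 * ⟪n, b'⟫ - 0 * c' - a' * (2 * h)) (p : Hat) :
    reflPlane n h p ∈ GB a' b' c' ↔ p ∈ GB (a' - q * 0) (b' - q • n) (c' - q * (2 * h)) := by
  induction p using OnePoint.rec with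
  | infty =>
    rw [refl_infty, mem_GB_infty, mem_GB_infty, mul_zero, sub_zero]
  | coe x =>
    rw [refl_coe, mem_GB_coe, mem_GB_coe, QQ_comb]
    have h1 : x - (2 * (⟪n, x⟫ - h)) • n = x + (-(2 * (⟪n, x⟫ - h))) • n := by
      rw [neg_smul, sub_eq_add_neg]
    rw [h1, QQ_add, inner_sub_left, inner_smul_left, hn]
    simp only [conj_trivial]
    have h2 : QQ a' b' c' x + 2 * -(2 * (⟪n, x⟫ - h)) * (a' * ⟪x, n⟫ - ⟪b', n⟫) +
        a' * (-(2 * (⟪n, x⟫ - h))) ^ 2 * 1 ^ 2 = QQ a' b' c' x - q * QQ 0 n (2 * h) x := by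
      rw [hq]
      have h3 : QQ 0 n (2 * h) x = -2 * (⟪n, x⟫ - h) := by
        unfold QQ
        ring
      rw [h3, real_inner_comm n x, real_inner_comm n b']
      ring
    rw [h2]

theorem image_of_invol (φ : Hat → Hat) (hφ : ∀ p, φ (φ p) = p) (A B : Set Hat)
    (h : ∀ p, φ p ∈ A ↔ p ∈ B) : φ '' A = B := by
  ext p
  constructor
  · rintro ⟨x, hx, rfl⟩
    rw [← h, hφ]
    exact hx
  · intro hp
    exact ⟨φ p, (h p).2 hp, hφ p⟩

theorem stmInv : StmInv := by
  intro a b c h
  constructor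
  · rcases canon a b c h with ⟨c₀, r, hr, hB, -⟩ | ⟨n, h₀, hn, hB, -⟩ | ⟨c₀, r, hr, hB, -⟩
    · exact ⟨Function.Involutive.toPerm (invBall c₀ r) (inv_inv' c₀ r hr),
        Or.inl ⟨c₀, r, hr, Or.inl hB, rfl⟩⟩
    · exact ⟨Function.Involutive.toPerm (reflPlane n h₀) (refl_refl n h₀ hn),
        Or.inr ⟨n, h₀, hn, hB, rfl⟩⟩
    · exact ⟨Function.Involutive.toPerm (invBall c₀ r) (inv_inv' c₀ r hr),
        Or.inl ⟨c₀, r, hr, Or.inr hB, rfl⟩⟩
  · rintro φ (⟨c₀, r, hr, hB, rfl⟩ | ⟨n, h₀, hn, hB, rfl⟩)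
    · refine ⟨funext (inv_inv' c₀ r hr), ?_⟩
      rintro a' b' c' - q hq
      refine image_of_invol _ (inv_inv' c₀ r hr) _ _ fun p => ?_
      rcases hB with hB | hB
      · rw [ball_GB _ _ hr] at hB
        obtain ⟨ha, hb, hc⟩ := GB_unique a b c h _ _ _ (norm_centre r hr c₀) hB
        rw [inv_mem c₀ r hr a' b' c' q (by rw [hq, ha, hb, hc]) p, ← hb, ← ha, ← hc]
      · rw [coball_GB _ _ hr] at hB
        have h1 := norm_centre r hr c₀
        obtain ⟨ha, hb, hc⟩ := GB_unique a b c h _ _ _ (by rw [norm_neg]; linarith) hB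
        have h2 := inv_mem c₀ r hr a' b' c' (-q) (by
          rw [hq, ha, hb, hc, inner_neg_left]
          ring) p
        rw [h2]
        have e1 : a' - -q * (1 / r) = a' - q * a := by rw [ha]; ring
        have e2 : b' - (-q) • ((1 / r) • c₀) = b' - q • b := by rw [hb]; module
        have e3 : c' - -q * ((‖c₀‖ ^ 2 - r ^ 2) / r) = c' - q * c := by rw [hc]; ring
        rw [e1, e2, e3]
    · refine ⟨funext (refl_refl n h₀ hn), ?_⟩
      rintro a' b' c' - q hq
      refine image_of_invol _ (refl_refl n h₀ hn) _ _ fun p => ?_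
      rw [half_GB] at hB
      obtain ⟨ha, hb, hc⟩ := GB_unique a b c h _ _ _ (by rw [hn]; ring) hB
      rw [refl_mem n h₀ hn a' b' c' q (by rw [hq, ha, hb, hc]) p, ← hc, ← hb, ← ha]

end Pool.Agent.R376.AP
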