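import Pool.Agent.R376.AP.Stm

/-!
# MP_ab5bd9_nt: facts about the orbit (piece P)
-/

set_option autoImplicit false

namespace Pool.Agent.R376.AP

namespace PP

lemma cs (a b c d x y z w : ℤ) : (a * x + b * y + c * z + d * w) ^ 2 ≤
    (a ^ 2 + b ^ 2 + c ^ 2 + d ^ 2) * (x ^ 2 + y ^ 2 + z ^ 2 + w ^ 2) := by
  nlinarith [sq_nonneg (a * y - b * x), sq_nonneg (a * z - c * x), sq_nonneg (a * w - d * x),
    sq_nonneg (b * z - c * y), sq_nonneg (b * w - d * y), sq_nonneg (c * w - d * z)]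

lemma parity (a : ℤ) : ∃ k, a ^ 2 - a = 2 * k := by
  rcases Int.even_or_odd' a with ⟨m, h | h⟩
  · exact ⟨2 * m ^ 2 - m, by rw [h]; ring⟩
  · exact ⟨2 * m ^ 2 + m, by rw [h]; ring⟩

lemma sum_even (a b c d n : ℤ) (h : a ^ 2 + b ^ 2 + c ^ 2 + d ^ 2 = 2 * n) :
    ∃ k, a + b + c + d = 2 * k := by
  obtain ⟨k1, h1⟩ := parity a
  obtain ⟨k2, h2⟩ := parity b
  obtain ⟨k3, h3⟩ := parity c
  obtain ⟨k4, h4⟩ := parity d
  exact ⟨n - k1 - k2 - k3 - k4, by linarith⟩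

lemma last (a b c d t : ℤ) (h : 2 * (a ^ 2 + b ^ 2 + c ^ 2 + d ^ 2) = 3 * t ^ 2 + 1) (ht : 0 < t) :
    0 ≤ 3 * t - (2 * a + b + c) := by
  by_contra hcon
  push Not at hcon
  have h1 := cs a b c d 2 1 1 0
  have h2 : a * 2 + b * 1 + c * 1 + d * 0 = 2 * a + b + c := by ring
  rw [h2] at h1
  nlinarith

end PP

theorem stmP : StmP := by
  have key : ∀ (X : Fin 4 → ℤ) (t : ℤ), Orb X t →
      2 * (X 0 ^ 2 + X 1 ^ 2 + X 2 ^ 2 + X 3 ^ 2) = 3 * t ^ 2 + 1 ∧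
      (∃ k, X 0 + X 1 + X 2 + X 3 = 2 * k) ∧ 0 < t := by
    intro X t h
    induction h with
    | base u hu =>
      rw [Fin.sum_univ_four] at hu
      exact ⟨by linarith, PP.sum_even _ _ _ _ 1 (by linarith), one_pos⟩
    | step X t w k h hw hk ih =>
      obtain ⟨h1, ⟨e, h2⟩, h3⟩ := ih
      rw [Fin.sum_univ_four] at hw hk
      obtain ⟨e', he'⟩ := PP.sum_even (w 0) (w 1) (w 2) (w 3) 2 (by linarith)
      refine ⟨?_, ⟨e - 3 * k * e', ?_⟩, ?_⟩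
      · have e1 : 2 * ((X 0 - 3 * k * w 0) ^ 2 + (X 1 - 3 * k * w 1) ^ 2 +
            (X 2 - 3 * k * w 2) ^ 2 + (X 3 - 3 * k * w 3) ^ 2) =
            2 * (X 0 ^ 2 + X 1 ^ 2 + X 2 ^ 2 + X 3 ^ 2) -
            12 * k * (X 0 * w 0 + X 1 * w 1 + X 2 * w 2 + X 3 * w 3) +
            18 * k ^ 2 * (w 0 ^ 2 + w 1 ^ 2 + w 2 ^ 2 + w 3 ^ 2) := by ring
        have e2 : X 0 * w 0 + X 1 * w 1 + X 2 * w 2 + X 3 * w 3 = 2 * k + 2 * t := by linarith
        show 2 * ((X 0 - 3 * k * w 0) ^ 2 + (X 1 - 3 * k * w 1) ^ 2 +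
            (X 2 - 3 * k * w 2) ^ 2 + (X 3 - 3 * k * w 3) ^ 2) = 3 * (t - 4 * k) ^ 2 + 1
        rw [e1, e2, h1, hw]
        ring
      · show X 0 - 3 * k * w 0 + (X 1 - 3 * k * w 1) + (X 2 - 3 * k * w 2) +
          (X 3 - 3 * k * w 3) = 2 * (e - 3 * k * e')
        linear_combination h2 - 3 * k * he'
      · have hs := PP.cs (X 0) (X 1) (X 2) (X 3) (w 0) (w 1) (w 2) (w 3)
        have e2 : X 0 * w 0 + X 1 * w 1 + X 2 * w 2 + X 3 * w 3 = 2 * k + 2 * t := by linarith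
        rw [e2, hw] at hs
        by_contra hcon
        push Not at hcon
        have h4 : 4 * (k + t) ^ 2 ≤ 6 * t ^ 2 + 2 := by nlinarith
        have h5 : t < 3 := by
          by_contra h6
          push Not at h6
          nlinarith
        have h6 : t = 1 ∨ t = 2 := by omega
        rcases h6 with rfl | rfl
        · have h7 : 1 ≤ k := by omega
          nlinarith
        · omega
  intro X t h
  obtain ⟨h1, ⟨e, h2⟩, h3⟩ := key X t h
  rw [Fin.sum_univ_four, Fin.sum_univ_four]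
  exact ⟨h1, ⟨e, h2⟩, h3, PP.last _ _ _ _ _ h1 h3⟩

end Pool.Agent.R376.AP
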