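import Pool.Agent.R376.AP.Stm

/-!
# MP_ab5bd9_nt: facet poles of the 24-cell (piece POLE)
-/

set_option autoImplicit false

open scoped RealInnerProductSpace

namespace Pool.Agent.R376.AP

namespace Pole

lemma bounds (p _n : ℤ) (h : p ^ 2 ≤ 2) : -1 ≤ p ∧ p ≤ 1 := by
  constructor <;> nlinarith

/-- the case of a large coordinate, nonnegative coordinates -/
lemma big0 (a b c d : ℝ) (p q r s : ℤ) (h2 : p ^ 2 + q ^ 2 + r ^ 2 + s ^ 2 = 2) (hb : 0 ≤ b)
    (hc : 0 ≤ c) (hd : 0 ≤ d) (ha : 1 / 2 < a) (ha1 : a < 1) (hab : a + b ≤ 1) (hac : a + c ≤ 1)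
    (had : a + d ≤ 1) (ht : p * a + q * b + r * c + s * d = 1) : -p + q + r + s = 0 := by
  obtain ⟨p1, p2⟩ := bounds p 0 (by nlinarith)
  obtain ⟨q1, q2⟩ := bounds q 0 (by nlinarith)
  obtain ⟨r1, r2⟩ := bounds r 0 (by nlinarith)
  obtain ⟨s1, s2⟩ := bounds s 0 (by nlinarith)
  interval_cases p <;> interval_cases q <;> interval_cases r <;> interval_cases s <;>
    first
    | (exfalso; revert h2; norm_num; done)
    | (norm_num; done)
    | (exfalso; norm_num at ht; linarith)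

/-- the case of a small coordinate, nonnegative coordinates -/
lemma small0 (a b c d : ℝ) (p q r s : ℤ) (h2 : p ^ 2 + q ^ 2 + r ^ 2 + s ^ 2 = 2) (ha : 0 ≤ a)
    (hb : 0 ≤ b) (hc : 0 ≤ c) (hd : 0 ≤ d) (ha1 : a < 1 / 2) (hb1 : b ≤ 1 / 2) (hc1 : c ≤ 1 / 2)
    (hd1 : d ≤ 1 / 2) (ht : p * a + q * b + r * c + s * d = 1) : p = 0 := by
  obtain ⟨p1, p2⟩ := bounds p 0 (by nlinarith)
  obtain ⟨q1, q2⟩ := bounds q 0 (by nlinarith)
  obtain ⟨r1, r2⟩ := bounds r 0 (by nlinarith)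
  obtain ⟨s1, s2⟩ := bounds s 0 (by nlinarith)
  interval_cases p <;> interval_cases q <;> interval_cases r <;> interval_cases s <;>
    first
    | (exfalso; revert h2; norm_num; done)
    | (norm_num; done)
    | (exfalso; norm_num at ht; linarith)

/-- sign as an integer -/
noncomputable def sg (x : ℝ) : ℤ := if 0 < x then 1 else -1

lemma sg_sq (x : ℝ) : sg x * sg x = 1 := by
  unfold sg
  split_ifs <;> norm_num

lemma sg_abs (x : ℝ) : (sg x : ℝ) * |x| = x := by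
  unfold sg
  split_ifs with h
  · rw [abs_of_pos h]; norm_num
  · rw [abs_of_nonpos (not_lt.1 h)]; norm_num

lemma mul_sg_sq (p : ℤ) (x : ℝ) : (p * sg x) ^ 2 = p ^ 2 := by
  have := sg_sq x
  calc (p * sg x) ^ 2 = p ^ 2 * (sg x * sg x) := by ring
    _ = p ^ 2 := by rw [this, mul_one]

lemma mul_sg_abs (p : ℤ) (x : ℝ) : ((p * sg x : ℤ) : ℝ) * |x| = p * x := by
  have := sg_abs x
  push_cast
  rw [mul_assoc, this]

lemma big (a b c d : ℝ) (p q r s : ℤ) (h2 : p ^ 2 + q ^ 2 + r ^ 2 + s ^ 2 = 2)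
    (ha : 1 / 2 < |a|) (ha1 : |a| < 1) (hab : |a| + |b| ≤ 1) (hac : |a| + |c| ≤ 1)
    (had : |a| + |d| ≤ 1) (ht : p * a + q * b + r * c + s * d = 1) :
    (p : ℝ) * (-sg a) + q * sg b + r * sg c + s * sg d = 0 := by
  have h := big0 |a| |b| |c| |d| (p * sg a) (q * sg b) (r * sg c) (s * sg d)
    (by rw [mul_sg_sq, mul_sg_sq, mul_sg_sq, mul_sg_sq]; exact h2) (abs_nonneg _) (abs_nonneg _)
    (abs_nonneg _) ha ha1 hab hac had
    (by rw [mul_sg_abs, mul_sg_abs, mul_sg_abs, mul_sg_abs]; exact ht)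
  have h' : ((-(p * sg a) + q * sg b + r * sg c + s * sg d : ℤ) : ℝ) = 0 := by exact_mod_cast h
  push_cast at h'
  linarith

lemma small (a b c d : ℝ) (p q r s : ℤ) (h2 : p ^ 2 + q ^ 2 + r ^ 2 + s ^ 2 = 2)
    (ha1 : |a| < 1 / 2) (hb1 : |b| ≤ 1 / 2) (hc1 : |c| ≤ 1 / 2)
    (hd1 : |d| ≤ 1 / 2) (ht : p * a + q * b + r * c + s * d = 1) : p = 0 := by
  have h := small0 |a| |b| |c| |d| (p * sg a) (q * sg b) (r * sg c) (s * sg d)
    (by rw [mul_sg_sq, mul_sg_sq, mul_sg_sq, mul_sg_sq]; exact h2) (abs_nonneg _) (abs_nonneg _)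
    (abs_nonneg _) (abs_nonneg _) ha1 hb1 hc1 hd1
    (by rw [mul_sg_abs, mul_sg_abs, mul_sg_abs, mul_sg_abs]; exact ht)
  have h3 := mul_sg_sq p a
  rw [h] at h3
  have : p ^ 2 = 0 := by linarith
  exact pow_eq_zero_iff (two_ne_zero) |>.1 this

/-- a coordinate of absolute value one -/
lemma unit_case (a b c d : ℝ) (ha : |a| = 1) (hab : |a| + |b| ≤ 1) (hac : |a| + |c| ≤ 1)
    (had : |a| + |d| ≤ 1) : ∃ p : ℤ, p ^ 2 = 4 ∧ a = p / 2 ∧ b = 0 ∧ c = 0 ∧ d = 0 := by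
  have hb : b = 0 := abs_eq_zero.1 (le_antisymm (by linarith) (abs_nonneg _))
  have hc : c = 0 := abs_eq_zero.1 (le_antisymm (by linarith) (abs_nonneg _))
  have hd : d = 0 := abs_eq_zero.1 (le_antisymm (by linarith) (abs_nonneg _))
  rcases (abs_eq (zero_le_one)).1 ha with h | h
  · exact ⟨2, by norm_num, by rw [h]; norm_num, hb, hc, hd⟩
  · exact ⟨-2, by norm_num, by rw [h]; norm_num, hb, hc, hd⟩

lemma half_case (a : ℝ) (ha : |a| = 1 / 2) : ∃ p : ℤ, p ^ 2 = 1 ∧ a = p / 2 := by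
  rcases (abs_eq (by norm_num : (0 : ℝ) ≤ 1 / 2)).1 ha with h | h
  · exact ⟨1, by norm_num, by rw [h]; norm_num⟩
  · exact ⟨-1, by norm_num, by rw [h]; norm_num⟩

/-- the supporting inequalities -/
def Sup (a b c d : ℝ) : Prop := ∀ p q r s : ℤ, p ^ 2 + q ^ 2 + r ^ 2 + s ^ 2 = 2 →
  (p : ℝ) * a + q * b + r * c + s * d ≤ 1

/-- the tight roots span -/
def Spn (a b c d : ℝ) : Prop := ∀ x y z w : ℝ,
  (∀ p q r s : ℤ, p ^ 2 + q ^ 2 + r ^ 2 + s ^ 2 = 2 → (p : ℝ) * a + q * b + r * c + s * d = 1 →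
    (p : ℝ) * x + q * y + r * z + s * w = 0) → x = 0 ∧ y = 0 ∧ z = 0 ∧ w = 0

lemma abs_add_le_one (a b : ℝ) (h1 : a + b ≤ 1) (h2 : a - b ≤ 1) (h3 : -a + b ≤ 1)
    (h4 : -a - b ≤ 1) : |a| + |b| ≤ 1 := by
  rcases abs_cases a with ⟨h, -⟩ | ⟨h, -⟩ <;> rcases abs_cases b with ⟨h', -⟩ | ⟨h', -⟩ <;>
    rw [h, h'] <;> linarith

lemma Sup.ab {a b c d : ℝ} (h : Sup a b c d) : |a| + |b| ≤ 1 := by
  have h1 := h 1 1 0 0 (by norm_num)
  have h2 := h 1 (-1) 0 0 (by norm_num)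
  have h3 := h (-1) 1 0 0 (by norm_num)
  have h4 := h (-1) (-1) 0 0 (by norm_num)
  norm_num at h1 h2 h3 h4
  exact abs_add_le_one a b (by linarith) (by linarith) (by linarith) (by linarith)

lemma Sup.perm1 {a b c d : ℝ} (h : Sup a b c d) : Sup b a c d := by
  intro p q r s h2
  have := h q p r s (by linarith)
  linarith

lemma Sup.perm2 {a b c d : ℝ} (h : Sup a b c d) : Sup a c b d := by
  intro p q r s h2
  have := h p r q s (by linarith)
  linarith

lemma Sup.perm3 {a b c d : ℝ} (h : Sup a b c d) : Sup a b d c := by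
  intro p q r s h2
  have := h p q s r (by linarith)
  linarith

lemma Spn.perm1 {a b c d : ℝ} (h : Spn a b c d) : Spn b a c d := by
  intro x y z w H
  have := h y x z w (fun p q r s h2 ht => by
    have := H q p r s (by linarith) (by linarith)
    linarith)
  tauto

lemma Spn.perm2 {a b c d : ℝ} (h : Spn a b c d) : Spn a c b d := by
  intro x y z w H
  have := h x z y w (fun p q r s h2 ht => by
    have := H p r q s (by linarith) (by linarith)
    linarith)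
  tauto

lemma Spn.perm3 {a b c d : ℝ} (h : Spn a b c d) : Spn a b d c := by
  intro x y z w H
  have := h x y w z (fun p q r s h2 ht => by
    have := H p q s r (by linarith) (by linarith)
    linarith)
  tauto

/-- the conclusion for a large first coordinate -/
lemma large {a b c d : ℝ} (h : Sup a b c d) (hs : Spn a b c d) (ha : 1 / 2 < |a|) :
    ∃ p : ℤ, p ^ 2 = 4 ∧ a = p / 2 ∧ b = 0 ∧ c = 0 ∧ d = 0 := by
  have hab := h.ab
  have hac := h.perm2.ab
  have had := h.perm3.perm2.ab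
  rcases lt_or_ge |a| 1 with h1 | h1
  · exfalso
    have h2 := hs (-sg a) (sg b) (sg c) (sg d) (fun p q r s h2 ht =>
      big a b c d p q r s h2 ha h1 hab hac had ht)
    have h3 : (sg a : ℝ) = 0 := by linarith [h2.1]
    have h4 : sg a = 0 := by exact_mod_cast h3
    have h5 := sg_sq a
    rw [h4] at h5
    norm_num at h5
  · exact unit_case a b c d (le_antisymm (by linarith [abs_nonneg b]) h1) hab hac had

lemma not_small {a b c d : ℝ} (hs : Spn a b c d) (ha : |a| ≤ 1 / 2) (hb : |b| ≤ 1 / 2)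
    (hc : |c| ≤ 1 / 2) (hd : |d| ≤ 1 / 2) : |a| = 1 / 2 := by
  by_contra hne
  have h1 : |a| < 1 / 2 := lt_of_le_of_ne ha hne
  have h2 := hs 1 0 0 0 (fun p q r s h2 ht => by
    have := small a b c d p q r s h2 h1 hb hc hd ht
    rw [this]
    norm_num)
  norm_num at h2

lemma fwd {a b c d : ℝ} (h : Sup a b c d) (hs : Spn a b c d) :
    ∃ p q r s : ℤ, p ^ 2 + q ^ 2 + r ^ 2 + s ^ 2 = 4 ∧ a = p / 2 ∧ b = q / 2 ∧ c = r / 2 ∧
      d = s / 2 := by
  rcases lt_or_ge (1 / 2) |a| with ha | ha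
  · obtain ⟨p, hp, h1, h2, h3, h4⟩ := large h hs ha
    exact ⟨p, 0, 0, 0, by linarith, h1, by simp [h2], by simp [h3], by simp [h4]⟩
  rcases lt_or_ge (1 / 2) |b| with hb | hb
  · obtain ⟨p, hp, h1, h2, h3, h4⟩ := large h.perm1 hs.perm1 hb
    exact ⟨0, p, 0, 0, by linarith, by simp [h2], h1, by simp [h3], by simp [h4]⟩
  rcases lt_or_ge (1 / 2) |c| with hc | hc
  · obtain ⟨p, hp, h1, h2, h3, h4⟩ := large h.perm2.perm1 hs.perm2.perm1 hc
    exact ⟨0, 0, p, 0, by linarith, by simp [h2], by simp [h3], h1, by simp [h4]⟩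
  rcases lt_or_ge (1 / 2) |d| with hd | hd
  · obtain ⟨p, hp, h1, h2, h3, h4⟩ := large h.perm3.perm2.perm1 hs.perm3.perm2.perm1 hd
    exact ⟨0, 0, 0, p, by linarith, by simp [h2], by simp [h3], by simp [h4], h1⟩
  obtain ⟨p, hp, ha'⟩ := half_case a (not_small hs ha hb hc hd)
  obtain ⟨q, hq, hb'⟩ := half_case b (not_small hs.perm1 hb ha hc hd)
  obtain ⟨r, hr, hc'⟩ := half_case c (not_small hs.perm2.perm1 hc ha hb hd)
  obtain ⟨s, hs', hd'⟩ := half_case d (not_small hs.perm3.perm2.perm1 hd ha hb hc)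
  exact ⟨p, q, r, s, by linarith, ha', hb', hc', hd'⟩

lemma bwd_sup (p q r s : ℤ) (h : p ^ 2 + q ^ 2 + r ^ 2 + s ^ 2 = 4) :
    Sup (p / 2) (q / 2) (r / 2) (s / 2) := by
  intro p' q' r' s' h'
  have h1 : p * p' + q * q' + r * r' + s * s' ≤ 2 := by
    have hc : (p * p' + q * q' + r * r' + s * s') ^ 2 ≤ (p ^ 2 + q ^ 2 + r ^ 2 + s ^ 2) *
        (p' ^ 2 + q' ^ 2 + r' ^ 2 + s' ^ 2) := by
      nlinarith [sq_nonneg (p * q' - q * p'), sq_nonneg (p * r' - r * p'),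
        sq_nonneg (p * s' - s * p'), sq_nonneg (q * r' - r * q'), sq_nonneg (q * s' - s * q'),
        sq_nonneg (r * s' - s * r')]
    rw [h, h'] at hc
    nlinarith
  have h2 : (p : ℝ) * p' + q * q' + r * r' + s * s' ≤ 2 := by exact_mod_cast h1
  linarith

lemma classify (p q r s : ℤ) (h : p ^ 2 + q ^ 2 + r ^ 2 + s ^ 2 = 4) :
    (p ^ 2 = 1 ∧ q ^ 2 = 1 ∧ r ^ 2 = 1 ∧ s ^ 2 = 1) ∨ (p ^ 2 = 4 ∧ q = 0 ∧ r = 0 ∧ s = 0) ∨
    (q ^ 2 = 4 ∧ p = 0 ∧ r = 0 ∧ s = 0) ∨ (r ^ 2 = 4 ∧ p = 0 ∧ q = 0 ∧ s = 0) ∨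
    (s ^ 2 = 4 ∧ p = 0 ∧ q = 0 ∧ r = 0) := by
  have p1 : -2 ≤ p ∧ p ≤ 2 := by constructor <;> nlinarith
  have q1 : -2 ≤ q ∧ q ≤ 2 := by constructor <;> nlinarith
  have r1 : -2 ≤ r ∧ r ≤ 2 := by constructor <;> nlinarith
  have s1 : -2 ≤ s ∧ s ≤ 2 := by constructor <;> nlinarith
  obtain ⟨p1, p2⟩ := p1
  obtain ⟨q1, q2⟩ := q1
  obtain ⟨r1, r2⟩ := r1
  obtain ⟨s1, s2⟩ := s1
  interval_cases p <;> interval_cases q <;> interval_cases r <;> interval_cases s <;>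
    first
    | (exfalso; revert h; norm_num; done)
    | (norm_num; done)

lemma spn_one (p q r s : ℤ) (hp : p ^ 2 = 1) (hq : q ^ 2 = 1) (hr : r ^ 2 = 1) (hs : s ^ 2 = 1) :
    Spn (p / 2) (q / 2) (r / 2) (s / 2) := by
  intro x y z w H
  have hp' : (p : ℝ) ^ 2 = 1 := by exact_mod_cast hp
  have hq' : (q : ℝ) ^ 2 = 1 := by exact_mod_cast hq
  have hr' : (r : ℝ) ^ 2 = 1 := by exact_mod_cast hr
  have hs' : (s : ℝ) ^ 2 = 1 := by exact_mod_cast hs
  have h1 := H p q 0 0 (by linarith) (by push_cast; nlinarith)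
  have h2 := H p 0 r 0 (by linarith) (by push_cast; nlinarith)
  have h3 := H 0 q r 0 (by linarith) (by push_cast; nlinarith)
  have h4 := H 0 0 r s (by linarith) (by push_cast; nlinarith)
  push_cast at h1 h2 h3 h4
  have ep : (p : ℝ) * x = 0 := by linarith
  have eq : (q : ℝ) * y = 0 := by linarith
  have er : (r : ℝ) * z = 0 := by linarith
  have es : (s : ℝ) * w = 0 := by linarith
  have np : (p : ℝ) ≠ 0 := by rintro h; rw [h] at hp'; norm_num at hp'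
  have nq : (q : ℝ) ≠ 0 := by rintro h; rw [h] at hq'; norm_num at hq'
  have nr : (r : ℝ) ≠ 0 := by rintro h; rw [h] at hr'; norm_num at hr'
  have ns : (s : ℝ) ≠ 0 := by rintro h; rw [h] at hs'; norm_num at hs'
  exact ⟨(mul_eq_zero.1 ep).resolve_left np, (mul_eq_zero.1 eq).resolve_left nq,
    (mul_eq_zero.1 er).resolve_left nr, (mul_eq_zero.1 es).resolve_left ns⟩

lemma spn_two (p : ℤ) (hp : p ^ 2 = 4) : Spn (p / 2) 0 0 0 := by
  intro x y z w H
  obtain ⟨e, he, hpe⟩ : ∃ e : ℤ, e ^ 2 = 1 ∧ p = 2 * e := by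
    have : (p - 2) * (p + 2) = 0 := by linarith
    rcases mul_eq_zero.1 this with h | h
    · exact ⟨1, by norm_num, by omega⟩
    · exact ⟨-1, by norm_num, by omega⟩
  have he' : (e : ℝ) ^ 2 = 1 := by exact_mod_cast he
  subst hpe
  have h1 := H e 1 0 0 (by linarith) (by push_cast; nlinarith)
  have h2 := H e (-1) 0 0 (by linarith) (by push_cast; nlinarith)
  have h3 := H e 0 1 0 (by linarith) (by push_cast; nlinarith)
  have h4 := H e 0 0 1 (by linarith) (by push_cast; nlinarith)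
  push_cast at h1 h2 h3 h4
  have ex : (e : ℝ) * x = 0 := by linarith
  have ne : (e : ℝ) ≠ 0 := by rintro h; rw [h] at he'; norm_num at he'
  exact ⟨(mul_eq_zero.1 ex).resolve_left ne, by linarith, by linarith, by linarith⟩

lemma bwd_spn (p q r s : ℤ) (h : p ^ 2 + q ^ 2 + r ^ 2 + s ^ 2 = 4) :
    Spn (p / 2) (q / 2) (r / 2) (s / 2) := by
  rcases classify p q r s h with ⟨h1, h2, h3, h4⟩ | ⟨h1, rfl, rfl, rfl⟩ | ⟨h1, rfl, rfl, rfl⟩ |
    ⟨h1, rfl, rfl, rfl⟩ | ⟨h1, rfl, rfl, rfl⟩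
  · exact spn_one p q r s h1 h2 h3 h4
  · have := spn_two p h1
    norm_num
    exact this
  · have := (spn_two q h1).perm1
    norm_num
    exact this
  · have := (spn_two r h1).perm1.perm2
    norm_num
    exact this
  · have := (spn_two s h1).perm1.perm2.perm3
    norm_num
    exact this

lemma inner4 (x y : E4) : ⟪x, y⟫ = x 0 * y 0 + x 1 * y 1 + x 2 * y 2 + x 3 * y 3 := by
  rw [PiLp.inner_apply, Fin.sum_univ_four]
  simp [mul_comm]

lemma inner_ofInt (c : ℝ) (u : Fin 4 → ℤ) (y : E4) :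
    ⟪c • ofInt u, y⟫ = c * (u 0 * y 0 + u 1 * y 1 + u 2 * y 2 + u 3 * y 3) := by
  rw [inner_smul_left, inner4]
  rfl

lemma ext4 (x y : E4) (h0 : x 0 = y 0) (h1 : x 1 = y 1) (h2 : x 2 = y 2) (h3 : x 3 = y 3) :
    x = y := by
  ext i
  fin_cases i
  · exact h0
  · exact h1
  · exact h2
  · exact h3

lemma vec4 (p q r s : ℤ) : ∑ i, (![p, q, r, s] : Fin 4 → ℤ) i ^ 2 = p ^ 2 + q ^ 2 + r ^ 2 + s ^ 2 := by
  rw [Fin.sum_univ_four]
  rfl

lemma sqrt_pos' : 0 < √(2 / 3 : ℝ) := Real.sqrt_pos.2 (by norm_num)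

lemma sqrt_mul' : √(2 / 3 : ℝ) * √(3 / 2) = 1 := by
  rw [← Real.sqrt_mul (by norm_num)]
  norm_num

end Pole

open Pole in
theorem stmPole : StmPole := by
  intro U f
  obtain ⟨g, rfl⟩ : ∃ g, f = U g := ⟨U.symm f, (U.apply_symm_apply f).symm⟩
  set t : ℝ := √(2 / 3) with ht
  have ht0 : 0 < t := sqrt_pos'
  have hin : ∀ u : Fin 4 → ℤ, ⟪U (t • ofInt u), U g⟫ =
      u 0 * (t * g 0) + u 1 * (t * g 1) + u 2 * (t * g 2) + u 3 * (t * g 3) := by
    intro u
    rw [U.inner_map_map, inner_ofInt]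
    ring
  have e1 : (∀ v ∈ {x | ∃ u : Fin 4 → ℤ, ∑ i, u i ^ 2 = 2 ∧ x = U (t • ofInt u)}, ⟪v, U g⟫ ≤ 1) ↔
      Sup (t * g 0) (t * g 1) (t * g 2) (t * g 3) := by
    constructor
    · intro H p q r s h
      have := H (U (t • ofInt ![p, q, r, s])) ⟨_, by rw [vec4]; exact h, rfl⟩
      rw [hin] at this
      exact this
    · rintro H _ ⟨u, hu, rfl⟩
      rw [hin]
      rw [Fin.sum_univ_four] at hu
      exact H _ _ _ _ hu
  have e2 : Submodule.span ℝ {v | v ∈ {x | ∃ u : Fin 4 → ℤ, ∑ i, u i ^ 2 = 2 ∧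
      x = U (t • ofInt u)} ∧ ⟪v, U g⟫ = 1} = ⊤ ↔
      Spn (t * g 0) (t * g 1) (t * g 2) (t * g 3) := by
    rw [← Submodule.orthogonal_eq_bot_iff]
    constructor
    · intro H x y z w hz
      have h1 : U (!₂[x, y, z, w] : E4) ∈ (Submodule.span ℝ {v | v ∈ {x | ∃ u : Fin 4 → ℤ,
          ∑ i, u i ^ 2 = 2 ∧ x = U (t • ofInt u)} ∧ ⟪v, U g⟫ = 1})ᗮ := by
        rw [Submodule.mem_orthogonal]
        intro v hv
        induction hv using Submodule.span_induction with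
        | mem v hv =>
          obtain ⟨⟨u, hu, rfl⟩, h2⟩ := hv
          rw [hin] at h2
          rw [Fin.sum_univ_four] at hu
          rw [U.inner_map_map, inner_ofInt]
          have h3 := hz _ _ _ _ hu h2
          have h4 : (u 0 : ℝ) * (!₂[x, y, z, w] : E4) 0 + u 1 * (!₂[x, y, z, w] : E4) 1 +
              u 2 * (!₂[x, y, z, w] : E4) 2 + u 3 * (!₂[x, y, z, w] : E4) 3 = 0 := h3
          rw [h4, mul_zero]
        | zero => exact inner_zero_left _
        | add a b _ _ ha hb => rw [inner_add_left, ha, hb, add_zero]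
        | smul c a _ ha => rw [inner_smul_left, ha, mul_zero]
      rw [H, Submodule.mem_bot] at h1
      have h2 : (!₂[x, y, z, w] : E4) = 0 := U.map_eq_zero_iff.1 h1
      refine ⟨?_, ?_, ?_, ?_⟩
      · exact congrArg (fun v : E4 => v 0) h2
      · exact congrArg (fun v : E4 => v 1) h2
      · exact congrArg (fun v : E4 => v 2) h2
      · exact congrArg (fun v : E4 => v 3) h2
    · intro H
      rw [eq_bot_iff]
      intro Z hZ
      rw [Submodule.mem_orthogonal] at hZ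
      obtain ⟨z, rfl⟩ : ∃ z, Z = U z := ⟨U.symm Z, (U.apply_symm_apply Z).symm⟩
      obtain ⟨h0, h1, h2, h3⟩ := H (z 0) (z 1) (z 2) (z 3) (fun p q r s h h' => by
        have h4 := hZ (U (t • ofInt ![p, q, r, s])) (Submodule.subset_span
          ⟨⟨_, by rw [vec4]; exact h, rfl⟩, by rw [hin]; exact h'⟩)
        rw [U.inner_map_map, inner_ofInt] at h4
        exact (mul_eq_zero.1 h4).resolve_left ht0.ne')
      rw [Submodule.mem_bot]
      have : z = 0 := ext4 z 0 h0 h1 h2 h3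
      rw [this, map_zero]
  rw [IsFacetPole, e1, e2]
  have hts : t * √(3 / 2) = 1 := sqrt_mul'
  constructor
  · rintro ⟨h1, h2⟩
    obtain ⟨p, q, r, s, h, ha, hb, hc, hd⟩ := fwd h1 h2
    refine ⟨![p, q, r, s], by rw [vec4]; exact h, ?_⟩
    congr 1
    have key : ∀ x : ℝ, ∀ n : ℤ, t * x = n / 2 → x = (√(3 / 2) / 2) * n := by
      intro x n hx
      have : x = √(3 / 2) * (t * x) := by
        rw [← mul_assoc, mul_comm (√(3 / 2)) t, hts, one_mul]
      rw [this, hx]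
      ring
    exact ext4 _ _ (key _ _ ha) (key _ _ hb) (key _ _ hc) (key _ _ hd)
  · rintro ⟨w, hw, hf⟩
    have hg := U.injective hf
    rw [Fin.sum_univ_four] at hw
    have key : ∀ i, t * g i = w i / 2 := by
      intro i
      have : g i = (√(3 / 2) / 2) * w i := congrArg (fun v : E4 => v i) hg
      rw [this]
      calc t * (√(3 / 2) / 2 * (w i : ℝ)) = (t * √(3 / 2)) * (w i / 2) := by ring
        _ = w i / 2 := by rw [hts, one_mul]
    rw [key, key, key, key]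
    exact ⟨bwd_sup _ _ _ _ hw, bwd_spn _ _ _ _ hw⟩

end Pool.Agent.R376.AP
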