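import Pool.Agent.R376.AP.Stm

/-!
# MP_ab5bd9_nt: piece S (helper92), surjectivity
-/

set_option autoImplicit false

open QuadraticAlgebra

namespace Pool.Agent.R376.AP

theorem s_perm (X : Fin 4 → ℤ) (t : ℤ) (h : Orb X t) (σ : Equiv.Perm (Fin 4)) :
    Orb (fun i => X (σ i)) t := by
  induction h with
  | base u hu =>
    apply Orb.base
    rw [← hu]
    exact Equiv.sum_comp σ (fun i => u i ^ 2)
  | step X t w k _ hw hk ih =>
    refine Orb.step (fun i => X (σ i)) t (fun i => w (σ i)) k ih ?_ ?_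
    · rw [← hw]; exact Equiv.sum_comp σ (fun i => w i ^ 2)
    · rw [hk]; congr 1; exact (Equiv.sum_comp σ (fun i => X i * w i)).symm

def sσ : Equiv.Perm (Fin 4) := ⟨![0, 2, 3, 1], ![0, 3, 1, 2], by decide, by decide⟩
def sτ : Equiv.Perm (Fin 4) := ⟨![2, 0, 3, 1], ![1, 3, 0, 2], by decide, by decide⟩

theorem s_norm (z : R) : z.norm = z.re ^ 2 - z.re * z.im + z.im ^ 2 := by
  rw [QuadraticAlgebra.norm_def]; ring

theorem s_norm_nonneg (z : R) : 0 ≤ z.norm := by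
  rw [s_norm]; nlinarith [sq_nonneg (z.re - z.im), sq_nonneg z.re, sq_nonneg z.im]

theorem s_two (z : R) : (2 : R) ∣ z ↔ 2 ∣ z.re ∧ 2 ∣ z.im := by
  constructor
  · rintro ⟨c, rfl⟩
    rw [re_mul, im_mul, re_ofNat, im_ofNat]
    exact ⟨⟨c.re, by ring⟩, ⟨c.im, by ring⟩⟩
  · rintro ⟨⟨a, ha⟩, ⟨b, hb⟩⟩
    refine ⟨⟨a, b⟩, ?_⟩
    ext
    · rw [re_mul, re_ofNat, im_ofNat, ha]; ring
    · rw [im_mul, re_ofNat, im_ofNat, hb]; ring

theorem s_odd (z : R) (h : ¬ (2 : R) ∣ z) : Odd z.norm := by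
  rw [s_two] at h
  rw [s_norm]
  rcases Int.even_or_odd' z.re with ⟨a, ha | ha⟩ <;> rcases Int.even_or_odd' z.im with ⟨b, hb | hb⟩
  · exact absurd ⟨⟨a, ha⟩, ⟨b, hb⟩⟩ h
  · exact ⟨2 * a ^ 2 - 2 * a * b - a + 2 * b ^ 2 + 2 * b, by rw [ha, hb]; ring⟩
  · exact ⟨2 * a ^ 2 + 2 * a - 2 * a * b - b + 2 * b ^ 2, by rw [ha, hb]; ring⟩
  · exact ⟨2 * a ^ 2 + a - 2 * a * b + b + 2 * b ^ 2, by rw [ha, hb]; ring⟩

theorem s_cast_dvd {p : ℤ} {n : ℤ} (h : p ∣ n) : ((p : ℤ) : R) ∣ (n : R) := by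
  obtain ⟨c, rfl⟩ := h
  exact ⟨(c : R), by push_cast; ring⟩

theorem s_unit_of {p : ℤ} (h : ((p : ℤ) : R) ∣ 1) : IsUnit p := by
  obtain ⟨c, hc⟩ := h
  have h1 := congrArg QuadraticAlgebra.re hc
  rw [re_mul, re_intCast, im_intCast, re_one, Int.cast_id] at h1
  have h2 : p * c.re = 1 := by linarith
  exact Int.isUnit_iff.mpr (Int.eq_one_or_neg_one_of_mul_eq_one h2)

theorem s_mul_star (z : R) : z * star z = ((z.norm : ℤ) : R) := by
  rw [← algebraMap_norm_eq_mul_star, eq_intCast]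

theorem s_prim (g b : R) (h : IsCoprime g b) (p : ℤ) (h1 : p ∣ g.norm) (h2 : p ∣ b.norm)
    (h3 : ((p : ℤ) : R) ∣ g * star b) : IsUnit p := by
  obtain ⟨u, v, huv⟩ := h
  have g1 : ((p : ℤ) : R) ∣ g * star g := by rw [s_mul_star]; exact s_cast_dvd h1
  have g2 : ((p : ℤ) : R) ∣ b * star b := by rw [s_mul_star]; exact s_cast_dvd h2
  have g3 : ((p : ℤ) : R) ∣ b * star g := by
    obtain ⟨c, hc⟩ := h3
    refine ⟨star c, ?_⟩
    have : b * star g = star (g * star b) := by rw [star_mul, star_star]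
    rw [this, hc, star_mul, star_intCast, mul_comm]
  apply s_unit_of
  have e : (1 : R) = (u * star u) * (g * star g) + (u * star v) * (g * star b) +
      (v * star u) * (b * star g) + (v * star v) * (b * star b) := by
    have h4 : (1 : R) = (u * g + v * b) * star (u * g + v * b) := by rw [huv, star_one, one_mul]
    rw [h4, star_add, star_mul, star_mul]; ring
  rw [e]
  exact dvd_add (dvd_add (dvd_add (Dvd.dvd.mul_left g1 _) (Dvd.dvd.mul_left h3 _))
    (Dvd.dvd.mul_left g3 _)) (Dvd.dvd.mul_left g2 _)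

/-- the cusps in the coordinates `A, C, x, y` -/
theorem s_orb (hD : StmD) (A C x y : ℤ) (hA : 0 ≤ A) (hC : 0 ≤ C) (hodd : Odd (A + C))
    (hq : A * C = 2 * (x ^ 2 - x * y + y ^ 2))
    (hp : ∀ p : ℤ, Odd p → p ∣ A → p ∣ C → p ∣ x → p ∣ y → IsUnit p) :
    Orb ![2 * A + 2 * C + 5 * y - x - 1, A + C + y + x - 1, A + x + y, C + x + y]
      (2 * (A + C + 2 * y) - 1) := by
  have hs : 0 < A + C + 2 * y := by
    have hAC : 0 < A + C := by
      rcases hodd with ⟨l, hl⟩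
      omega
    by_contra hcon
    push Not at hcon
    have h1 : (A + C) ^ 2 ≤ (2 * y) ^ 2 := by nlinarith
    nlinarith [sq_nonneg (2 * x - y), sq_nonneg (A - C)]
  apply hD (A + C + 4 * y - 2 * x) (A + x + y) (C + x + y) (A + C + 2 * y) hs
  · rcases hodd with ⟨l, hl⟩; exact ⟨l + y, by rw [hl]; ring⟩
  · rcases hodd with ⟨l, hl⟩; exact ⟨l + 2 * y - x, by rw [hl]; ring⟩
  · rcases hodd with ⟨l, hl⟩; exact ⟨l + x + y, by linear_combination hl⟩
  · linear_combination (-4) * hq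
  · intro p p1 p2 p3 p4
    have hpo : Odd p := by
      have hso : Odd (A + C + 2 * y) := by
        rcases hodd with ⟨l, hl⟩; exact ⟨l + y, by rw [hl]; ring⟩
      obtain ⟨m, hm⟩ := p4
      rw [hm] at hso
      exact (Int.odd_mul.mp hso).1
    have hcop : IsCoprime p 2 := by
      obtain ⟨l, hl⟩ := hpo
      exact ⟨1, -l, by rw [hl]; ring⟩
    have hx : p ∣ x := by
      apply hcop.dvd_of_dvd_mul_left
      have e : 2 * x = (A + x + y) + (C + x + y) - (A + C + 2 * y) := by ring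
      rw [e]; exact dvd_sub (dvd_add p2 p3) p4
    have hy : p ∣ y := by
      apply hcop.dvd_of_dvd_mul_left
      have e : 2 * y = (A + C + 4 * y - 2 * x) - (A + C + 2 * y) + 2 * x := by ring
      rw [e]; exact dvd_add (dvd_sub p1 p4) (Dvd.dvd.mul_left hx _)
    apply hp p hpo _ _ hx hy
    · have e : A = (A + x + y) - x - y := by ring
      rw [e]; exact dvd_sub (dvd_sub p2 hx) hy
    · have e : C = (C + x + y) - x - y := by ring
      rw [e]; exact dvd_sub (dvd_sub p3 hx) hy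
  · ring
  · ring

theorem s_dvd_of_re_im {p : ℤ} {z : R} (h1 : p ∣ z.re) (h2 : p ∣ z.im) : ((p : ℤ) : R) ∣ z := by
  obtain ⟨a, ha⟩ := h1
  obtain ⟨b, hb⟩ := h2
  refine ⟨⟨a, b⟩, ?_⟩
  ext
  · rw [re_mul, re_intCast, im_intCast, ha, Int.cast_id]; ring
  · rw [im_mul, re_intCast, im_intCast, hb, Int.cast_id]; ring

theorem s_dvd_two {p n : ℤ} (hp : Odd p) (h : p ∣ 2 * n) : p ∣ n := by
  have hcop : IsCoprime p 2 := by
    obtain ⟨l, hl⟩ := hp
    exact ⟨1, -l, by rw [hl]; ring⟩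
  exact hcop.dvd_of_dvd_mul_left h

theorem s_even (hA : StmA) (hD : StmD) (n : ℕ) (hn : Even n) :
    ∃ (X : Fin 4 → ℤ) (t : ℤ), Orb X t ∧ 3 * t - (2 * X 0 + X 1 + X 2) = n := by
  obtain ⟨g, b, hgb, hcop⟩ := hA (n + 1) (Even.add_one hn)
  push_cast at hgb
  have hO := s_orb hD g.norm (2 * b.norm) (g * star b).re (g * star b).im (s_norm_nonneg g)
    (by linarith [s_norm_nonneg b])
    (by rw [hgb]; obtain ⟨k, hk⟩ := hn; exact ⟨k, by rw [hk]; push_cast; ring⟩)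
    (by
      have h1 : (g * star b).norm = g.norm * b.norm := by rw [map_mul, QuadraticAlgebra.norm_star]
      rw [s_norm] at h1
      linear_combination (-2) * h1)
    (by
      intro p hp p1 p2 p3 p4
      exact s_prim g b hcop p p1 (s_dvd_two hp p2) (s_dvd_of_re_im p3 p4))
  refine ⟨_, _, s_perm _ _ hO sσ, ?_⟩
  simp [sσ]
  linarith

theorem s_alpha (g b : R) (hg : ¬ (2 : R) ∣ g) (hb : ¬ (2 : R) ∣ b) :
    ∃ η : R, η.norm = 1 ∧ (2 : R) ∣ g - η * b := by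
  rw [s_two] at hg hb
  by_cases h1 : 2 ∣ (g - b).re ∧ 2 ∣ (g - b).im
  · exact ⟨1, map_one _, by rw [one_mul, s_two]; exact h1⟩
  by_cases h2 : 2 ∣ (g - (⟨0, 1⟩ : R) * b).re ∧ 2 ∣ (g - (⟨0, 1⟩ : R) * b).im
  · exact ⟨⟨0, 1⟩, by rw [s_norm]; norm_num, by rw [s_two]; exact h2⟩
  refine ⟨⟨-1, -1⟩, by rw [s_norm]; norm_num, ?_⟩
  rw [s_two]
  simp only [re_sub, im_sub, re_mul, im_mul] at h1 h2 ⊢
  omega

theorem s_odd_case (hB : StmB) (hD : StmD) (n : ℕ) (hn : Odd n) :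
    ∃ (X : Fin 4 → ℤ) (t : ℤ), Orb X t ∧ 3 * t - (2 * X 0 + X 1 + X 2) = n := by
  obtain ⟨g, b₀, hgb, hcop₀, hb₀⟩ := hB (n + 2) (by
    obtain ⟨k, hk⟩ := hn; exact ⟨k + 1, by rw [hk]; ring⟩) (by
    obtain ⟨k, hk⟩ := hn; omega)
  push_cast at hgb
  have hg : ¬ (2 : R) ∣ g := by
    rintro ⟨c, hc⟩
    have h1 : g.norm = 4 * c.norm := by
      rw [hc, map_mul]
      congr 1
    obtain ⟨k, hk⟩ := hn
    rw [h1, hk] at hgb
    push_cast at hgb
    omega
  obtain ⟨η, hη, α, hα⟩ := s_alpha g b₀ hg hb₀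
  obtain ⟨b, hb⟩ : ∃ b, b = η * b₀ := ⟨_, rfl⟩
  rw [← hb] at hα
  have hbn : b.norm = b₀.norm := by rw [hb, map_mul, hη, one_mul]
  have hηu : IsUnit η := by rw [isUnit_iff_norm_isUnit, hη]; exact isUnit_one
  have hcop : IsCoprime g b := by rw [hb]; exact (isCoprime_mul_unit_left_right hηu g b₀).mpr hcop₀
  have hbo : Odd b.norm := by rw [hbn]; exact s_odd b₀ hb₀
  have hgα : g = 2 * α + b := by rw [← hα]; ring
  have hcα : IsCoprime α b := by
    rw [hgα] at hcop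
    have h1 : IsCoprime (2 * α) b := by
      have h2 := hcop.add_mul_right_left (-1)
      have e : 2 * α + b + -1 * b = 2 * α := by ring
      rwa [e] at h2
    exact h1.of_mul_left_right
  rw [← hbn] at hgb
  have hω : (⟨0, 1⟩ : R).norm = 1 := by rw [s_norm]; norm_num
  have hO := s_orb hD (2 * α.norm) b.norm ((⟨0, 1⟩ : R) * (α * star b)).re
    ((⟨0, 1⟩ : R) * (α * star b)).im (by linarith [s_norm_nonneg α]) (s_norm_nonneg b)
    (by obtain ⟨l, hl⟩ := hbo; exact ⟨α.norm + l, by rw [hl]; ring⟩)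
    (by
      have h1 : ((⟨0, 1⟩ : R) * (α * star b)).norm = α.norm * b.norm := by
        rw [map_mul, map_mul, QuadraticAlgebra.norm_star, hω, one_mul]
      rw [s_norm] at h1
      linear_combination (-2) * h1)
    (by
      intro p hp p1 p2 p3 p4
      refine s_prim α b hcα p (s_dvd_two hp p1) p2 ?_
      have h5 : ((p : ℤ) : R) ∣ (⟨0, 1⟩ : R) * (α * star b) := s_dvd_of_re_im p3 p4
      have h6 : (⟨-1, -1⟩ : R) * (⟨0, 1⟩ : R) = 1 := by
        ext <;> simp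
      have h7 : α * star b = (⟨-1, -1⟩ : R) * ((⟨0, 1⟩ : R) * (α * star b)) := by
        rw [← mul_assoc, h6, one_mul]
      rw [h7]
      exact Dvd.dvd.mul_left h5 _)
  refine ⟨_, _, s_perm _ _ hO sτ, ?_⟩
  have hgn : g.norm = 4 * α.norm + 2 * (2 * (α * star b).re - (α * star b).im) + b.norm := by
    rw [hgα, s_norm, s_norm, s_norm]
    simp
    ring
  simp only [sτ, Equiv.coe_fn_mk, Matrix.cons_val_zero, Matrix.cons_val_one, Matrix.cons_val]
  simp only [re_mul (⟨0, 1⟩ : R), im_mul (⟨0, 1⟩ : R)]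
  linarith

theorem stmS (hA : StmA) (hB : StmB) (hD : StmD) : StmS := by
  intro n
  rcases Nat.even_or_odd n with h | h
  · exact s_even hA hD n h
  · exact s_odd_case hB hD n h

end Pool.Agent.R376.AP
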