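import Pool.Agent.R376.AP.Defs

/-!
# MP_ab5bd9_nt: statements of the pieces
-/

set_option autoImplicit false

open scoped RealInnerProductSpace

namespace Pool.Agent.R376.AP

/-- NT-T -/
def StmT : Prop := ∀ m : ℕ, Odd m → ∃ u v : ℤ, (m : ℤ) ∣ u ^ 2 + 3 * v ^ 2 + 2

/-- NT-A -/
def StmA : Prop := ∀ m : ℕ, Odd m → ∃ g b : R, g.norm + 2 * b.norm = m ∧ IsCoprime g b

/-- NT-B -/
def StmB : Prop := ∀ m : ℕ, Odd m → 3 ≤ m →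
  ∃ g b : R, g.norm + 2 * b.norm = m ∧ IsCoprime g b ∧ ¬ (2 : R) ∣ b

/-- DESC: the cusps -/
def StmD : Prop := ∀ d z y s : ℤ, 0 < s → Odd s → Odd d → Odd (z + y) →
  d ^ 2 + 2 * z ^ 2 + 2 * y ^ 2 = 3 * s ^ 2 →
  (∀ p : ℤ, p ∣ d → p ∣ z → p ∣ y → p ∣ s → IsUnit p) →
  ∀ a b : ℤ, 2 * a = 3 * s + d → 2 * b = 3 * s - d →
    Orb ![a - 1, b - 1, z, y] (2 * s - 1)

/-- SURJ -/
def StmS : Prop := ∀ n : ℕ, ∃ (X : Fin 4 → ℤ) (t : ℤ), Orb X t ∧ 3 * t - (2 * X 0 + X 1 + X 2) = n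

/-- POS -/
def StmP : Prop := ∀ (X : Fin 4 → ℤ) (t : ℤ), Orb X t →
  2 * ∑ i, X i ^ 2 = 3 * t ^ 2 + 1 ∧ (∃ k, ∑ i, X i = 2 * k) ∧ 0 < t ∧
    0 ≤ 3 * t - (2 * X 0 + X 1 + X 2)

/-- CAP: caps become generalised balls. -/
def StmCap : Prop := ∀ (W : E4) (τ : ℝ), ‖W‖ ^ 2 - τ ^ 2 = 1 →
  dilate (1 / √3) '' (stereo '' {x | ‖x‖ = 1 ∧ τ ≤ ⟪x, W⟫}) = GW W τ

/-- CURV: curvature of generalised balls. -/
def StmCurv : Prop := ∀ (a : ℝ) (b : E3) (c : ℝ), ‖b‖ ^ 2 - a * c = 1 →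
  ∀ k : ℝ, HasCurvature (GB a b c) k ↔ k = a

/-- INV: inversions in generalised balls. -/
def StmInv : Prop := ∀ (a : ℝ) (b : E3) (c : ℝ), ‖b‖ ^ 2 - a * c = 1 →
  (∃ g : Equiv.Perm Hat, IsInversionIn (GB a b c) g) ∧
  ∀ φ : Hat → Hat, IsInversionIn (GB a b c) φ → φ ∘ φ = id ∧
    ∀ (a' : ℝ) (b' : E3) (c' : ℝ), ‖b'‖ ^ 2 - a' * c' = 1 →
      ∀ q : ℝ, q = 2 * ⟪b, b'⟫ - a * c' - a' * c →
        φ '' GB a' b' c' = GB (a' - q * a) (b' - q • b) (c' - q * c)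

/-- POLE: facet poles of the standard 24-cell. -/
def StmPole : Prop := ∀ (U : E4 ≃ₗᵢ[ℝ] E4) (f : E4),
  IsFacetPole {x | ∃ u : Fin 4 → ℤ, ∑ i, u i ^ 2 = 2 ∧ x = U (√(2 / 3) • ofInt u)} f ↔
    ∃ w : Fin 4 → ℤ, ∑ i, w i ^ 2 = 4 ∧ f = U ((√(3 / 2) / 2) • ofInt w)

/-- EDGE: normal form of the position. -/
def StmEdge : Prop := ∀ V : Set E4, IsEdgeScribed24Cell V → HasEdgeTowardsNorth V →
  ∃ U : E4 ≃ₗᵢ[ℝ] E4,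
    V = {x | ∃ u : Fin 4 → ℤ, ∑ i, u i ^ 2 = 2 ∧ x = U (√(2 / 3) • ofInt u)} ∧
    U (ofInt ![2, 1, 1, 0]) = √6 • north

/-- EX: existence of a position. -/
def StmEx : Prop := ∃ V : Set E4, IsEdgeScribed24Cell V ∧ HasEdgeTowardsNorth V

end Pool.Agent.R376.AP
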