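import Pool.Agent.R376.AP.Stm

/-!
# MP_ab5bd9_nt: piece T, every odd `m` divides some `u ^ 2 + 3 * v ^ 2 + 2`
-/

set_option autoImplicit false

namespace Pool.Agent.R376.AP

namespace T813

theorem bez (p : ℕ) (hp : p.Prime) (w c : ℤ) (hw : ¬ (p : ℤ) ∣ w) :
    ∃ x : ℤ, (p : ℤ) ∣ c + w * x := by
  have hpi : Prime (p : ℤ) := Nat.prime_iff_prime_int.mp hp
  have hco : IsCoprime (p : ℤ) w := (Prime.coprime_iff_not_dvd hpi).mpr hw
  obtain ⟨a, b, hab⟩ := hco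
  refine ⟨-c * b, ⟨c * a, ?_⟩⟩
  have : c = c * (a * p + b * w) := by rw [hab, mul_one]
  linear_combination this

theorem base (p : ℕ) (hp : p.Prime) (h2 : p ≠ 2) : ∃ u v : ℤ,
    (p : ℤ) ∣ u ^ 2 + 3 * v ^ 2 + 2 ∧ (¬ (p : ℤ) ∣ u ∨ (p ≠ 3 ∧ ¬ (p : ℤ) ∣ v)) := by
  by_cases h3 : p = 3
  · subst h3
    refine ⟨1, 0, by norm_num, Or.inl (by norm_num)⟩
  have := Fact.mk hp
  have h3' : (3 : ZMod p) ≠ 0 := by
    intro h
    have h1 : ((3 : ℕ) : ZMod p) = 0 := by exact_mod_cast h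
    rw [ZMod.natCast_eq_zero_iff] at h1
    exact h3 ((Nat.prime_dvd_prime_iff_eq hp Nat.prime_three).mp h1)
  obtain ⟨a, b, hab⟩ := FiniteField.exists_root_sum_quadratic (R := ZMod p)
    (f := Polynomial.C 1 * Polynomial.X ^ 2 + Polynomial.C 0 * Polynomial.X + Polynomial.C 0)
    (g := Polynomial.C 3 * Polynomial.X ^ 2 + Polynomial.C 0 * Polynomial.X + Polynomial.C 2)
    (Polynomial.degree_quadratic one_ne_zero) (Polynomial.degree_quadratic h3') (by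
      rw [ZMod.card]
      exact hp.eq_two_or_odd.resolve_left h2)
  simp only [Polynomial.eval_add, Polynomial.eval_mul, Polynomial.eval_C, Polynomial.eval_pow,
    Polynomial.eval_X] at hab
  obtain ⟨u, rfl⟩ := ZMod.intCast_surjective a
  obtain ⟨v, rfl⟩ := ZMod.intCast_surjective b
  have hd : (p : ℤ) ∣ u ^ 2 + 3 * v ^ 2 + 2 := by
    rw [← ZMod.intCast_zmod_eq_zero_iff_dvd]
    push_cast
    linear_combination hab
  refine ⟨u, v, hd, ?_⟩
  by_contra hcon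
  push Not at hcon
  have hu := hcon.1
  have hv := hcon.2 h3
  have h4 : (p : ℤ) ∣ 2 := by
    have h5 : (p : ℤ) ∣ u ^ 2 + 3 * v ^ 2 :=
      dvd_add (Dvd.dvd.pow hu two_ne_zero) (Dvd.dvd.mul_left (Dvd.dvd.pow hv two_ne_zero) 3)
    exact (dvd_add_right h5).mp hd
  have h6 : p ∣ 2 := by exact_mod_cast h4
  exact h2 ((Nat.prime_dvd_prime_iff_eq hp Nat.prime_two).mp h6)

theorem pw (p : ℕ) (hp : p.Prime) (h2 : p ≠ 2) (k : ℕ) : ∃ u v : ℤ,
    (p : ℤ) ^ (k + 1) ∣ u ^ 2 + 3 * v ^ 2 + 2 ∧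
      (¬ (p : ℤ) ∣ u ∨ (p ≠ 3 ∧ ¬ (p : ℤ) ∣ v)) := by
  have hpi : Prime (p : ℤ) := Nat.prime_iff_prime_int.mp hp
  have hn2 : ¬ (p : ℤ) ∣ 2 := by
    intro h
    have h6 : p ∣ 2 := by exact_mod_cast h
    exact h2 ((Nat.prime_dvd_prime_iff_eq hp Nat.prime_two).mp h6)
  induction k with
  | zero =>
    obtain ⟨u, v, h, h'⟩ := base p hp h2
    exact ⟨u, v, by simpa using h, h'⟩
  | succ k ih =>
    obtain ⟨u, v, ⟨c, hc⟩, h'⟩ := ih
    rcases h' with hu | ⟨h3, hv⟩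
    · have hw : ¬ (p : ℤ) ∣ 2 * u := by
        intro h
        rcases hpi.dvd_or_dvd h with h | h
        · exact hn2 h
        · exact hu h
      obtain ⟨x, y, hy⟩ := bez p hp (2 * u) c hw
      refine ⟨u + p ^ (k + 1) * x, v, ⟨y + p ^ k * x ^ 2, ?_⟩, Or.inl ?_⟩
      · have e1 : (p : ℤ) ^ (k + 1 + 1) = p ^ (k + 1) * p := pow_succ _ _
        have e2 : (p : ℤ) ^ (k + 1) = p ^ k * p := pow_succ _ _
        rw [e1]
        have e3 : (u + (p : ℤ) ^ (k + 1) * x) ^ 2 + 3 * v ^ 2 + 2 =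
            (u ^ 2 + 3 * v ^ 2 + 2) + p ^ (k + 1) * (2 * u * x) +
              p ^ (k + 1) * p ^ (k + 1) * x ^ 2 := by ring
        rw [e3, hc]
        have e4 : (p : ℤ) ^ (k + 1) * c + p ^ (k + 1) * (2 * u * x) =
            p ^ (k + 1) * (p * y) := by rw [← hy]; ring
        rw [e4, e2]
        ring
      · intro h
        apply hu
        have h1 : (p : ℤ) ∣ p ^ (k + 1) * x :=
          Dvd.dvd.mul_right (dvd_pow_self _ (Nat.succ_ne_zero k)) x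
        exact (dvd_add_left h1).mp h
    · have hn3 : ¬ (p : ℤ) ∣ 3 := by
        intro h
        have h6 : p ∣ 3 := by exact_mod_cast h
        exact h3 ((Nat.prime_dvd_prime_iff_eq hp Nat.prime_three).mp h6)
      have hw : ¬ (p : ℤ) ∣ 2 * (3 * v) := by
        intro h
        rcases hpi.dvd_or_dvd h with h | h
        · exact hn2 h
        · rcases hpi.dvd_or_dvd h with h | h
          · exact hn3 h
          · exact hv h
      obtain ⟨x, y, hy⟩ := bez p hp (2 * (3 * v)) c hw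
      refine ⟨u, v + p ^ (k + 1) * x, ⟨y + 3 * p ^ k * x ^ 2, ?_⟩, Or.inr ⟨h3, ?_⟩⟩
      · have e1 : (p : ℤ) ^ (k + 1 + 1) = p ^ (k + 1) * p := pow_succ _ _
        have e2 : (p : ℤ) ^ (k + 1) = p ^ k * p := pow_succ _ _
        rw [e1]
        have e3 : u ^ 2 + 3 * (v + (p : ℤ) ^ (k + 1) * x) ^ 2 + 2 =
            (u ^ 2 + 3 * v ^ 2 + 2) + p ^ (k + 1) * (2 * (3 * v) * x) +
              3 * (p ^ (k + 1) * p ^ (k + 1) * x ^ 2) := by ring
        rw [e3, hc]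
        have e4 : (p : ℤ) ^ (k + 1) * c + p ^ (k + 1) * (2 * (3 * v) * x) =
            p ^ (k + 1) * (p * y) := by rw [← hy]; ring
        rw [e4, e2]
        ring
      · intro h
        apply hv
        have h1 : (p : ℤ) ∣ p ^ (k + 1) * x :=
          Dvd.dvd.mul_right (dvd_pow_self _ (Nat.succ_ne_zero k)) x
        exact (dvd_add_left h1).mp h

theorem crt (a b : ℤ) (h : IsCoprime a b) (u1 v1 u2 v2 : ℤ)
    (h1 : a ∣ u1 ^ 2 + 3 * v1 ^ 2 + 2) (h2 : b ∣ u2 ^ 2 + 3 * v2 ^ 2 + 2) :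
    ∃ u v : ℤ, a * b ∣ u ^ 2 + 3 * v ^ 2 + 2 := by
  obtain ⟨x, y, hxy⟩ := h
  have key : ∀ s t : ℤ, a ∣ (s * (y * b) + t * (x * a)) - s ∧
      b ∣ (s * (y * b) + t * (x * a)) - t := by
    intro s t
    refine ⟨⟨(t - s) * x, ?_⟩, ⟨(s - t) * y, ?_⟩⟩
    · linear_combination s * hxy
    · linear_combination t * hxy
  refine ⟨u1 * (y * b) + u2 * (x * a), v1 * (y * b) + v2 * (x * a), ?_⟩
  have hmod : ∀ d s t s' t' : ℤ, d ∣ s' - s → d ∣ t' - t → d ∣ s ^ 2 + 3 * t ^ 2 + 2 →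
      d ∣ s' ^ 2 + 3 * t' ^ 2 + 2 := by
    intro d s t s' t' h1 h2 h3
    have h4 : s' ^ 2 + 3 * t' ^ 2 + 2 = (s' - s) * (s' + s) + (t' - t) * (3 * (t' + t)) +
        (s ^ 2 + 3 * t ^ 2 + 2) := by ring
    rw [h4]
    exact dvd_add (dvd_add (Dvd.dvd.mul_right h1 _) (Dvd.dvd.mul_right h2 _)) h3
  exact IsCoprime.mul_dvd ⟨x, y, hxy⟩
    (hmod a _ _ _ _ (key u1 u2).1 (key v1 v2).1 h1)
    (hmod b _ _ _ _ (key u1 u2).2 (key v1 v2).2 h2)

end T813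

theorem stmT : StmT := by
  intro m
  induction m using Nat.recOnPosPrimePosCoprime with
  | prime_pow p n hp hn =>
    intro hodd
    have h2 : p ≠ 2 := by
      rintro rfl
      rw [Nat.odd_pow_iff hn.ne'] at hodd
      exact absurd hodd (by decide)
    obtain ⟨k, rfl⟩ : ∃ k, n = k + 1 := ⟨n - 1, by omega⟩
    obtain ⟨u, v, h, _⟩ := T813.pw p hp h2 k
    exact ⟨u, v, by exact_mod_cast h⟩
  | zero => intro h; exact absurd h (by decide)
  | one => intro _; exact ⟨0, 0, by simp⟩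
  | coprime a b ha hb hab iha ihb =>
    intro hodd
    rw [Nat.odd_mul] at hodd
    obtain ⟨u1, v1, h1⟩ := iha hodd.1
    obtain ⟨u2, v2, h2⟩ := ihb hodd.2
    obtain ⟨u, v, h⟩ := T813.crt a b (Nat.isCoprime_iff_coprime.mpr hab) u1 v1 u2 v2 h1 h2
    exact ⟨u, v, by rw [Nat.cast_mul]; exact h⟩

end Pool.Agent.R376.AP
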